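import Pool.Agent.N229.RL.Sect

/-!
# The bad events are closed
-/

set_option autoImplicit false

open Filter Topology MeasureTheory Set

namespace Pool.Agent.N229.RL

variable {N : ℕ}

/-- the basic closed set -/
def T0 (R Rp : ℝ) : Set ((Fin N → ℂ) × ℂ) :=
  {x | Base R x.1 ∧ ‖x.2‖ ≤ Rp ∧ ∀ j, ((N : ℝ) ^ 4)⁻¹ ≤ ‖x.2 - x.1 j‖}

theorem closed_T0 (R Rp : ℝ) : IsClosed (T0 (N := N) R Rp) := by
  have h1 : IsClosed {x : (Fin N → ℂ) × ℂ | ∀ j, ‖x.1 j‖ ≤ R} := by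
    simp only [Set.ofPred_forall]
    exact isClosed_iInter fun i => isClosed_le (by fun_prop) continuous_const
  have h2 : IsClosed {x : (Fin N → ℂ) × ℂ | ∀ j, (N : ℝ)⁻¹ ≤ ‖x.1 j‖} := by
    simp only [Set.ofPred_forall]
    exact isClosed_iInter fun i => isClosed_le continuous_const (by fun_prop)
  have h3 : IsClosed {x : (Fin N → ℂ) × ℂ | ∀ j k, j ≠ k →
      ((N : ℝ) ^ 2)⁻¹ ≤ ‖x.1 j - x.1 k‖} := by
    simp only [Set.ofPred_forall]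
    exact isClosed_iInter fun i => isClosed_iInter fun k => isClosed_iInter fun _ =>
      isClosed_le continuous_const (by fun_prop)
  have h4 : IsClosed {x : (Fin N → ℂ) × ℂ | ‖x.2‖ ≤ Rp} :=
    isClosed_le (by fun_prop) continuous_const
  have h5 : IsClosed {x : (Fin N → ℂ) × ℂ | ∀ j, ((N : ℝ) ^ 4)⁻¹ ≤ ‖x.2 - x.1 j‖} := by
    simp only [Set.ofPred_forall]
    exact isClosed_iInter fun i => isClosed_le continuous_const (by fun_prop)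
  have h6 : T0 (N := N) R Rp = (({x : (Fin N → ℂ) × ℂ | ∀ j, ‖x.1 j‖ ≤ R} ∩
      {x : (Fin N → ℂ) × ℂ | ∀ j, (N : ℝ)⁻¹ ≤ ‖x.1 j‖}) ∩
      {x : (Fin N → ℂ) × ℂ | ∀ j k, j ≠ k → ((N : ℝ) ^ 2)⁻¹ ≤ ‖x.1 j - x.1 k‖}) ∩
      ({x : (Fin N → ℂ) × ℂ | ‖x.2‖ ≤ Rp} ∩
      {x : (Fin N → ℂ) × ℂ | ∀ j, ((N : ℝ) ^ 4)⁻¹ ≤ ‖x.2 - x.1 j‖}) := by
    ext x
    constructor
    · rintro ⟨⟨k1, k2, k3⟩, k4, k5⟩
      exact ⟨⟨⟨k1, k2⟩, k3⟩, k4, k5⟩
    · rintro ⟨⟨⟨k1, k2⟩, k3⟩, k4, k5⟩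
      exact ⟨⟨k1, k2, k3⟩, k4, k5⟩
  rw [h6]
  exact ((h1.inter h2).inter h3).inter (h4.inter h5)

theorem T0_pos {R Rp : ℝ} {x : (Fin N → ℂ) × ℂ} (hx : x ∈ T0 R Rp) (j : Fin N) :
    x.2 - x.1 j ≠ 0 := by
  have hN : 0 < N := j.pos
  have hN0 : (0 : ℝ) < N := by exact_mod_cast hN
  exact norm_pos_iff.1 (lt_of_lt_of_le (by positivity) (hx.2.2 j))

theorem cont_SS {e : Fin N → ℤ} {R Rp : ℝ} :
    ContinuousOn (fun x : (Fin N → ℂ) × ℂ => SS e x.1 Finset.univ x.2) (T0 R Rp) := by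
  unfold SS
  refine continuousOn_finset_sum _ fun j _ => ?_
  refine ContinuousOn.div continuousOn_const (by fun_prop) fun x hx => T0_pos hx j

theorem cont_gg {a : ℂ} {e : Fin N → ℤ} {R Rp : ℝ} :
    ContinuousOn (fun x : (Fin N → ℂ) × ℂ => gg a e x.1 Finset.univ x.2) (T0 R Rp) := by
  unfold gg
  refine ContinuousOn.mul continuousOn_const (continuousOn_finset_prod _ fun j _ => ?_)
  exact ContinuousOn.zpow₀ (by fun_prop) _ fun x hx => Or.inl (T0_pos hx j)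

/-- the set with a critical point near `X i` -/
def T1' (R Rp κ : ℝ) (e : Fin N → ℤ) (a : ℂ) (i : Fin N) : Set ((Fin N → ℂ) × ℂ) :=
  {x | x ∈ T0 R Rp ∧ SS e x.1 Finset.univ x.2 = 0 ∧ ‖x.2 - x.1 i‖ ≤ KK κ * Real.log N / N ∧
    ((N : ℝ) ^ 4)⁻¹ ≤ ‖gg a e x.1 Finset.univ x.2‖ ∧ ‖gg a e x.1 Finset.univ x.2‖ ≤ Rp}

theorem closed_T1' (R Rp κ : ℝ) (e : Fin N → ℤ) (a : ℂ) (i : Fin N) :
    IsClosed (T1' R Rp κ e a i) := by
  have h0 := closed_T0 (N := N) R Rp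
  have h1 := (cont_SS (e := e) (R := R) (Rp := Rp)).preimage_isClosed_of_isClosed h0
    (isClosed_singleton (x := (0 : ℂ)))
  have h2 := (cont_gg (a := a) (e := e) (R := R) (Rp := Rp)).norm.preimage_isClosed_of_isClosed h0
    (isClosed_Icc (a := ((N : ℝ) ^ 4)⁻¹) (b := Rp))
  have h3 : IsClosed {x : (Fin N → ℂ) × ℂ | ‖x.2 - x.1 i‖ ≤ KK κ * Real.log N / N} :=
    isClosed_le (by fun_prop) continuous_const
  have h4 : T1' R Rp κ e a i = ((T0 R Rp ∩ (fun x : (Fin N → ℂ) × ℂ =>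
      SS e x.1 Finset.univ x.2) ⁻¹' {0}) ∩ (T0 R Rp ∩ (fun x : (Fin N → ℂ) × ℂ =>
      ‖gg a e x.1 Finset.univ x.2‖) ⁻¹' Icc ((N : ℝ) ^ 4)⁻¹ Rp)) ∩
      {x : (Fin N → ℂ) × ℂ | ‖x.2 - x.1 i‖ ≤ KK κ * Real.log N / N} := by
    ext x
    constructor
    · rintro ⟨k1, k2, k3, k4, k5⟩
      exact ⟨⟨⟨k1, k2⟩, ⟨k1, k4, k5⟩⟩, k3⟩
    · rintro ⟨⟨⟨k1, k2⟩, ⟨_, k4, k5⟩⟩, k3⟩
      exact ⟨k1, k2, k3, k4, k5⟩
  rw [h4]
  exact (h1.inter h2).inter h3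

theorem proj_closed {R Rp : ℝ} {T : Set ((Fin N → ℂ) × ℂ)} (hT : IsClosed T)
    (h : T ⊆ T0 R Rp) : IsClosed (Prod.fst '' T) := by
  have hK : IsCompact ((Set.univ.pi fun _ : Fin N => Metric.closedBall (0 : ℂ) R) ×ˢ
      Metric.closedBall (0 : ℂ) Rp) :=
    (isCompact_univ_pi fun _ => isCompact_closedBall _ _).prod (isCompact_closedBall _ _)
  have hTK : IsCompact T := by
    refine hK.of_isClosed_subset hT ?_
    intro x hx
    have h1 := h hx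
    refine ⟨fun i _ => ?_, ?_⟩
    · rw [mem_closedBall_zero_iff]
      exact h1.1.le i
    · rw [mem_closedBall_zero_iff]
      exact h1.2.1
  exact (hTK.image continuous_fst).isClosed

theorem closed_E4 (R Rp κ : ℝ) (e : Fin N → ℤ) (a : ℂ) (i : Fin N) :
    IsClosed (E4 R Rp κ e a i) := by
  have hcg : ContinuousOn (fun x : (Fin N → ℂ) × ℂ => ‖gg a e x.1 Finset.univ x.2 - x.1 i‖)
      (T1' R Rp κ e a i) :=
    ((cont_gg.mono fun x hx => hx.1).sub (by fun_prop)).norm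
  have hT := hcg.preimage_isClosed_of_isClosed (closed_T1' R Rp κ e a i)
    (isClosed_Iic (a := ((N : ℝ) ^ 4)⁻¹))
  have himg : E4 R Rp κ e a i = Prod.fst '' (T1' R Rp κ e a i ∩
      (fun x : (Fin N → ℂ) × ℂ => ‖gg a e x.1 Finset.univ x.2 - x.1 i‖) ⁻¹'
        Iic ((N : ℝ) ^ 4)⁻¹) := by
    ext X
    constructor
    · rintro ⟨h1, c, h2, h3, h4, h5, h6, h7, h8⟩
      exact ⟨(X, c), ⟨⟨⟨h1, h2, h3⟩, h4, h5, h6, h7⟩, h8⟩, rfl⟩
    · rintro ⟨⟨X', c⟩, ⟨⟨⟨h1, h2, h3⟩, h4, h5, h6, h7⟩, h8⟩, rfl⟩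
      exact ⟨h1, c, h2, h3, h4, h5, h6, h7, h8⟩
  rw [himg]
  exact proj_closed hT fun x hx => hx.1.1

theorem closed_E3 (A : ℕ) (R Rp κ : ℝ) (e : Fin N → ℤ) (a : ℂ) (i : Fin N) :
    IsClosed (E3 A R Rp κ e a i) := by
  classical
  have hN : 0 < N := i.pos
  have hN0 : (0 : ℝ) < N := by exact_mod_cast hN
  set T := T1' R Rp κ e a i with hTdef
  have hTc : IsClosed T := closed_T1' R Rp κ e a i
  have hcv : ContinuousOn (fun x : (Fin N → ℂ) × ℂ => gg a e x.1 Finset.univ x.2) T :=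
    cont_gg.mono fun x hx => hx.1
  have hcj : ∀ j, ContinuousOn (fun x : (Fin N → ℂ) × ℂ =>
      ‖gg a e x.1 Finset.univ x.2 - x.1 j‖) T := fun j => (hcv.sub (by fun_prop)).norm
  -- first part
  set U1 : Set ((Fin N → ℂ) × ℂ) := ⋃ j ∈ Jn i, (T ∩ (fun x : (Fin N → ℂ) × ℂ =>
    ‖gg a e x.1 Finset.univ x.2 - x.1 j‖) ⁻¹' Iic ((N : ℝ) ^ 4)⁻¹) with hU1
  have hU1c : IsClosed U1 := by
    refine Set.Finite.isClosed_biUnion (Finset.finite_toSet _) fun j _ => ?_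
    exact (hcj j).preimage_isClosed_of_isClosed hTc isClosed_Iic
  -- second part
  set U2 : Set ((Fin N → ℂ) × ℂ) := T ∩ ⋂ j ∈ Jn i, (T ∩ (fun x : (Fin N → ℂ) × ℂ =>
    ‖gg a e x.1 Finset.univ x.2 - x.1 j‖) ⁻¹' Ici ((N : ℝ) ^ 4)⁻¹) with hU2
  have hU2c : IsClosed U2 := by
    refine hTc.inter (isClosed_biInter fun j _ => ?_)
    exact (hcj j).preimage_isClosed_of_isClosed hTc isClosed_Ici
  have hU2' : ∀ x ∈ U2, ∀ j ∈ Jn i, ((N : ℝ) ^ 4)⁻¹ ≤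
      ‖gg a e x.1 Finset.univ x.2 - x.1 j‖ := by
    intro x hx j hj
    exact (mem_iInter₂.1 hx.2 j hj).2
  have hcg : ContinuousOn (fun x : (Fin N → ℂ) × ℂ =>
      ‖gg a e x.1 (Jn i) (gg a e x.1 Finset.univ x.2)‖) U2 := by
    refine ContinuousOn.norm ?_
    have hcv2 : ContinuousOn (fun x : (Fin N → ℂ) × ℂ => gg a e x.1 Finset.univ x.2) U2 :=
      hcv.mono inter_subset_left
    have : ContinuousOn (fun x : (Fin N → ℂ) × ℂ =>
        a * ∏ j ∈ Jn i, (gg a e x.1 Finset.univ x.2 - x.1 j) ^ e j) U2 := by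
      refine ContinuousOn.mul continuousOn_const (continuousOn_finset_prod _ fun j hj => ?_)
      refine ContinuousOn.zpow₀ (hcv2.sub (by fun_prop)) _ fun x hx => Or.inl ?_
      exact norm_pos_iff.1 (lt_of_lt_of_le (by positivity) (hU2' x hx j hj))
    exact this
  have hU3c := hcg.preimage_isClosed_of_isClosed hU2c
    (isClosed_Icc (a := ((N : ℝ) ^ A)⁻¹) (b := (N : ℝ) ^ A))
  have himg : E3 A R Rp κ e a i = Prod.fst '' (U1 ∪ (U2 ∩ (fun x : (Fin N → ℂ) × ℂ =>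
      ‖gg a e x.1 (Jn i) (gg a e x.1 Finset.univ x.2)‖) ⁻¹'
        Icc ((N : ℝ) ^ A)⁻¹ ((N : ℝ) ^ A))) := by
    ext X
    constructor
    · rintro ⟨h1, c, h2, h3, h4, h5, h6, h7, h8⟩
      have hxT : (X, c) ∈ T := ⟨⟨h1, h2, h3⟩, h4, h5, h6, h7⟩
      refine ⟨(X, c), ?_, rfl⟩
      rcases h8 with ⟨j, hj, h8⟩ | ⟨h8, h9, h10⟩
      · left
        exact mem_iUnion₂.2 ⟨j, hj, hxT, h8⟩
      · right
        exact ⟨⟨hxT, mem_iInter₂.2 fun j hj => ⟨hxT, h8 j hj⟩⟩, h9, h10⟩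
    · rintro ⟨⟨X', c⟩, h, rfl⟩
      rcases h with h | ⟨h, h9, h10⟩
      · obtain ⟨j, hj, ⟨⟨h1, h2, h3⟩, h4, h5, h6, h7⟩, h8⟩ := mem_iUnion₂.1 h
        exact ⟨h1, c, h2, h3, h4, h5, h6, h7, Or.inl ⟨j, hj, h8⟩⟩
      · have h8 := hU2' _ h
        obtain ⟨⟨⟨h1, h2, h3⟩, h4, h5, h6, h7⟩, _⟩ := h
        exact ⟨h1, c, h2, h3, h4, h5, h6, h7, Or.inr ⟨h8, h9, h10⟩⟩
  rw [himg]
  refine proj_closed (R := R) (Rp := Rp) (hU1c.union hU3c) ?_
  rintro x (hx | hx)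
  · obtain ⟨j, hj, hx⟩ := mem_iUnion₂.1 hx
    exact hx.1.1
  · exact hx.1.1.1

/-- resampling one coordinate -/
theorem resample (μ : Fin N → Measure ℂ) [∀ m, IsProbabilityMeasure (μ m)]
    {E : Set (Fin N → ℂ)} (hE : MeasurableSet E) (i : Fin N) :
    Measure.pi μ E = ∫⁻ X, μ i {x | Function.update X i x ∈ E} ∂Measure.pi μ := by
  classical
  set f : (Fin N → ℂ) → ENNReal := E.indicator 1 with hf
  have hfm : Measurable f := measurable_one.indicator hE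
  set g : (Fin N → ℂ) → ENNReal := fun c => ∫⁻ w, f (Function.update c i w) ∂μ i with hg
  have hgm : Measurable g := by
    have h1 : Measurable fun q : (Fin N → ℂ) × ℂ => f (Function.update q.1 i q.2) := by
      refine hfm.comp ?_
      exact measurable_update'
    exact h1.lintegral_prod_right'
  have hmain : ∫⁻ c, f c ∂Measure.pi μ = ∫⁻ c, g c ∂Measure.pi μ := by
    rw [lintegral_eq_lmarginal_univ (0 : Fin N → ℂ), lintegral_eq_lmarginal_univ (0 : Fin N → ℂ),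
      lmarginal_erase' f hfm (Finset.mem_univ i), lmarginal_erase' g hgm (Finset.mem_univ i)]
    congr 1
    funext c
    simp only [hg, Function.update_idem]
    rw [lintegral_const, measure_univ, mul_one]
  rw [hf, lintegral_indicator_one hE] at hmain
  rw [hmain]
  refine lintegral_congr fun X => ?_
  have hm : MeasurableSet {x | Function.update X i x ∈ E} :=
    (measurable_update X (a := i)) hE
  have h2 : ∀ w, f (Function.update X i w) = {x | Function.update X i x ∈ E}.indicator 1 w := by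
    intro w
    rfl
  simp only [hg, h2]
  rw [lintegral_indicator_one hm]

end Pool.Agent.N229.RL
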