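import Pool.Agent.N229.RL.Rat
import Pool.Agent.W327.RD.Dyn

/-!
# Good configurations of zeros and poles give hyperbolic rational maps
-/

set_option autoImplicit false

open Filter Topology MeasureTheory Set

namespace Pool.Agent.N229.RL

open Polynomial (C X derivative)
open Pool.Agent.W751.CD (P)
open Pool.Agent.W751.RD (Pr Off)

variable {n : ℕ}

/-- the zeros followed by the poles -/
def cat {α : Type*} (z p : Fin n → α) : Fin (n + n) → α := Fin.append z p

/-- the signs: one for the zeros, minus one for the poles -/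
def sg (n : ℕ) : Fin (n + n) → ℤ := Fin.append (fun _ => 1) (fun _ => -1)

theorem sg_left (i : Fin n) : sg n (Fin.castAdd n i) = 1 := Fin.append_left _ _ i

theorem sg_right (i : Fin n) : sg n (Fin.natAdd n i) = -1 := Fin.append_right _ _ i

theorem cat_left {α : Type*} (z p : Fin n → α) (i : Fin n) : cat z p (Fin.castAdd n i) = z i :=
  Fin.append_left _ _ i

theorem cat_right {α : Type*} (z p : Fin n → α) (i : Fin n) : cat z p (Fin.natAdd n i) = p i :=
  Fin.append_right _ _ i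

theorem sg_sign (i : Fin (n + n)) : sg n i = 1 ∨ sg n i = -1 := by
  induction i using Fin.addCases with
  | left i => exact Or.inl (sg_left i)
  | right i => exact Or.inr (sg_right i)

theorem gg_cat (a : ℂ) (z p : Fin n → ℂ) (w : ℂ) :
    gg a (sg n) (cat z p) Finset.univ w = a * Pool.Agent.W751.RD.R z p w := by
  unfold gg Pool.Agent.W751.RD.R
  rw [Fin.prod_univ_add, W327.RD.P_eval, W327.RD.P_eval]
  simp only [sg_left, sg_right, cat_left, cat_right, zpow_one, zpow_neg]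
  rw [Finset.prod_inv_distrib, div_eq_mul_inv]

theorem SS_cat (z p : Fin n → ℂ) (w : ℂ) :
    SS (sg n) (cat z p) Finset.univ w = SS one z Finset.univ w - SS one p Finset.univ w := by
  unfold SS one
  rw [Fin.sum_univ_add]
  simp only [sg_left, sg_right, cat_left, cat_right]
  rw [sub_eq_add_neg, ← Finset.sum_neg_distrib]
  congr 1
  refine Finset.sum_congr rfl fun i _ => ?_
  push_cast
  ring

theorem wro_eval (z p : Fin n → ℂ) {w : ℂ} (hz : ∀ j, w ≠ z j) (hp : ∀ j, w ≠ p j) :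
    (Pool.Agent.H762R2.Rt.wro (P z) (P p)).eval w =
      (P z).eval w * (P p).eval w * SS (sg n) (cat z p) Finset.univ w := by
  have h1 : ∀ q : Fin n → ℂ, PJ 1 q Finset.univ = P q := by
    intro q
    unfold PJ P
    rw [Polynomial.C_1, one_mul]
  have hz' := deriv_PJ 1 z Finset.univ (w := w) fun j _ => hz j
  have hp' := deriv_PJ 1 p Finset.univ (w := w) fun j _ => hp j
  rw [← eval_PJ, h1] at hz' hp'
  unfold Pool.Agent.H762R2.Rt.wro
  rw [Polynomial.eval_sub, Polynomial.eval_mul, Polynomial.eval_mul, hz', hp', SS_cat]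
  ring

theorem card_filter_sg : ((Finset.univ : Finset (Fin (n + n))).filter fun j => sg n j = 1).card = n ∧
    ((Finset.univ : Finset (Fin (n + n))).filter fun j => ¬ sg n j = 1).card = n := by
  have h1 : ((Finset.univ : Finset (Fin (n + n))).filter fun j => sg n j = 1).card = n := by
    rw [Finset.card_filter, Fin.sum_univ_add]
    simp only [sg_left, sg_right]
    simp
  refine ⟨h1, ?_⟩
  have h2 := Finset.card_filter_add_card_filter_not (s := (Finset.univ : Finset (Fin (n + n))))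
    (fun j => sg n j = 1)
  rw [h1, Finset.card_univ, Fintype.card_fin] at h2
  omega

/-- the multiplicities for zeros and poles in equal number -/
theorem multOK_cat (hn : 3 ≤ n) {a : ℂ} (ha : a ≠ 0) {R : ℝ} (x : Fin (n + n) → ℂ)
    (i : Fin (n + n)) (hb : BaseI R x i) : MultOK x (sg n) a i (2 * (n + n)) := by
  obtain ⟨c1, c2⟩ := card_filter_sg (n := n)
  have hN0 : (0 : ℝ) < ((n + n : ℕ) : ℝ) := by
    have : 0 < n + n := by omega
    exact_mod_cast this
  have hJ : ∀ q : Fin (n + n) → Prop, [DecidablePred q] →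
      (((Finset.univ : Finset (Fin (n + n))).filter q).card - 1 ≤ ((Jn i).filter q).card) ∧
      (q i → ((Jn i).filter q).card = ((Finset.univ : Finset (Fin (n + n))).filter q).card - 1) := by
    intro q _
    unfold Jn
    rw [Finset.filter_erase]
    refine ⟨Finset.pred_card_le_card_erase, fun hq => ?_⟩
    rw [Finset.card_erase_of_mem (Finset.mem_filter.2 ⟨Finset.mem_univ _, hq⟩)]
  refine multOK_rat ha sg_sign x i (fun j hj k hk hjk h => ?_) ?_ ?_ ?_
  · have h1 := hb.sep j hj k hk hjk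
    rw [h, sub_self, norm_zero] at h1
    have : 0 < (((n + n : ℕ) : ℝ) ^ 2)⁻¹ := by positivity
    linarith
  · have := (hJ (fun j => sg n j = 1)).1
    omega
  · have := (hJ (fun j => ¬ sg n j = 1)).1
    omega
  · intro hi
    have := (hJ (fun j => ¬ sg n j = 1)).2 (by rw [hi]; norm_num)
    omega

theorem abs_log_one_sub {u : ℂ} (hu : ‖u‖ ≤ 1 / 2) :
    |Real.log ‖1 - u‖| ≤ 2 * ‖u‖ ∧ 1 - u ≠ 0 := by
  have h1 : 1 - ‖u‖ ≤ ‖1 - u‖ := by
    have := norm_sub_norm_le 1 u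
    rw [norm_one] at this
    exact this
  have h2 : ‖1 - u‖ ≤ 1 + ‖u‖ := by
    have := norm_sub_le 1 u
    rw [norm_one] at this
    exact this
  have h0 : 0 ≤ ‖u‖ := norm_nonneg u
  have hpos : 0 < ‖1 - u‖ := by linarith
  refine ⟨?_, norm_pos_iff.1 hpos⟩
  rw [abs_le]
  constructor
  · have h3 := Real.one_sub_inv_le_log_of_pos hpos
    have h4 : ‖1 - u‖⁻¹ ≤ 1 + 2 * ‖u‖ := by
      rw [inv_le_comm₀ hpos (by linarith)]
      refine le_trans ?_ h1
      rw [inv_le_iff_one_le_mul₀ (by linarith)]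
      nlinarith
    linarith
  · have h3 := Real.log_le_sub_one_of_pos hpos
    linarith

/-- near infinity -/
theorem near_infty {R κ Rp : ℝ} (hκ : 0 < κ) (hR : 0 ≤ R) (h8 : 8 * R ≤ Rp) (h16 : 16 * R ≤ κ * Rp)
    (hRp : 0 < Rp) {a : ℂ} (ha : a ≠ 0) {z p : Fin n → ℂ} (hz : ∀ j, ‖z j‖ ≤ R)
    (hp : ∀ j, ‖p j‖ ≤ R) (hl : κ * (n + n) ≤ |Real.log ‖a‖|) {x : ℂ} (hx : ‖x‖ ≤ 4 / Rp) :
    Pr p x ≠ 0 ∧ Pr z x ≠ 0 ∧ κ * (n + n) / 2 ≤ |Real.log ‖a * (Pr z x / Pr p x)‖| := by
  have key : ∀ q : Fin n → ℂ, (∀ j, ‖q j‖ ≤ R) →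
      Pr q x ≠ 0 ∧ |Real.log ‖Pr q x‖| ≤ n * (8 * R / Rp) := by
    intro q hq
    have h1 : ∀ j, ‖q j * x‖ ≤ 4 * R / Rp := by
      intro j
      rw [norm_mul]
      calc ‖q j‖ * ‖x‖ ≤ R * (4 / Rp) := by gcongr; exact hq j
        _ = 4 * R / Rp := by ring
    have h2 : ∀ j, ‖q j * x‖ ≤ 1 / 2 := by
      intro j
      refine (h1 j).trans ?_
      rw [div_le_div_iff₀ hRp (by norm_num)]
      linarith
    refine ⟨?_, ?_⟩
    · unfold Pr
      exact Finset.prod_ne_zero_iff.2 fun j _ => (abs_log_one_sub (h2 j)).2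
    · unfold Pr
      rw [norm_prod, Real.log_prod fun j _ => norm_ne_zero_iff.2 (abs_log_one_sub (h2 j)).2]
      refine (Finset.abs_sum_le_sum_abs _ _).trans ?_
      have h3 : ∀ j ∈ (Finset.univ : Finset (Fin n)), |Real.log ‖1 - q j * x‖| ≤ 8 * R / Rp := by
        intro j _
        refine (abs_log_one_sub (h2 j)).1.trans ?_
        have := h1 j
        have e : 8 * R / Rp = 2 * (4 * R / Rp) := by ring
        rw [e]
        linarith
      refine (Finset.sum_le_sum h3).trans ?_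
      rw [Finset.sum_const, Finset.card_univ, Fintype.card_fin, nsmul_eq_mul]
  obtain ⟨p0, p1⟩ := key p hp
  obtain ⟨z0, z1⟩ := key z hz
  refine ⟨p0, z0, ?_⟩
  rw [norm_mul, norm_div, Real.log_mul (norm_ne_zero_iff.2 ha)
    (div_ne_zero (norm_ne_zero_iff.2 z0) (norm_ne_zero_iff.2 p0)),
    Real.log_div (norm_ne_zero_iff.2 z0) (norm_ne_zero_iff.2 p0)]
  have h1 : (n : ℝ) * (8 * R / Rp) ≤ κ * n / 2 := by
    have h2 : 8 * R / Rp ≤ κ / 2 := by
      rw [div_le_div_iff₀ hRp (by norm_num)]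
      linarith
    have h3 : (0 : ℝ) ≤ n := Nat.cast_nonneg n
    calc (n : ℝ) * (8 * R / Rp) ≤ n * (κ / 2) := by gcongr
      _ = κ * n / 2 := by ring
  have h2 : |Real.log ‖a‖| ≤ |Real.log ‖a‖ + (Real.log ‖Pr z x‖ - Real.log ‖Pr p x‖)| +
      (|Real.log ‖Pr z x‖| + |Real.log ‖Pr p x‖|) := by
    have e : Real.log ‖a‖ = (Real.log ‖a‖ + (Real.log ‖Pr z x‖ - Real.log ‖Pr p x‖)) -
        (Real.log ‖Pr z x‖ - Real.log ‖Pr p x‖) := by ring
    nth_rewrite 1 [e]
    refine (abs_sub _ _).trans ?_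
    gcongr
    exact abs_sub _ _
  nlinarith

theorem off_of {N : ℕ} {κ Rp : ℝ} {v : ℂ} (hv : v ≠ 0) (hRp : 1 ≤ Rp) (hN : 4 ≤ N)
    (h4 : 16 / κ * Real.log N ≤ N) (hκ : 0 < κ) (hR : Real.log Rp ≤ Real.log N)
    (hl1 : 1 ≤ Real.log N)
    (h : κ * N / 2 ≤ |Real.log ‖v‖|) : Off (4 * ((N : ℝ) ^ 4)⁻¹) (4 / Rp) v := by
  have hN4 : (4 : ℝ) ≤ N := by exact_mod_cast hN
  have hN0 : (0 : ℝ) < N := by linarith
  have hpos : 0 < ‖v‖ := norm_pos_iff.2 hv
  have hq0 : 0 < ((N : ℝ) ^ 4)⁻¹ := by positivity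
  have h5 : 8 * Real.log N ≤ κ * N / 2 := by
    rw [div_mul_eq_mul_div, div_le_iff₀ hκ] at h4
    linarith
  unfold Off
  have e1 : 4 * ((N : ℝ) ^ 4)⁻¹ / 4 = ((N : ℝ) ^ 4)⁻¹ := by ring
  have e2 : 4 / (4 / Rp) = Rp := by field_simp
  rw [e1, e2]
  rcases le_abs.1 (h5.trans h) with h6 | h6
  · right
    refine (Real.log_lt_log_iff (by linarith) hpos).1 ?_
    linarith
  · left
    refine (Real.log_lt_log_iff hpos hq0).1 ?_
    rw [Real.log_inv, Real.log_pow]
    push_cast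
    linarith

theorem ev_double {q : ℕ → Prop} (h : ∀ᶠ N : ℕ in atTop, q N) : ∀ᶠ n : ℕ in atTop, q (n + n) := by
  have h1 : Tendsto (fun n : ℕ => n + n) atTop atTop :=
    tendsto_atTop_mono (fun n => Nat.le_add_right n n) tendsto_id
  exact h1.eventually h

theorem rational_good {R B κ Rp δ : ℝ} (hκ : 0 < κ) (hR : 0 ≤ R) (hδ : 0 < δ) (hRp : 8 ≤ Rp)
    (h8 : 8 * R ≤ Rp) (h16 : 16 * R ≤ κ * Rp) (hB : 2 * Rp + 2 + R ≤ B) :
    ∀ᶠ n : ℕ in atTop, ∀ (μ : Fin (n + n) → Measure ℂ) (a : ℂ) (z p : Fin n → ℂ), a ≠ 0 →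
      κ * (n + n) ≤ |Real.log ‖a‖| → Reg μ (sg n) a κ Rp δ →
      cat z p ∉ BadAll μ (sg n) a (5 + 4) R B κ Rp →
      Pool.Agent.H762R2.Rt.Hyp (C a * P z) (P p) := by
  filter_upwards [ev_double (core_det 5 hκ hR (by linarith : 1 ≤ Rp) hB hδ),
    ev_double (core_small (5 + 4) hκ hR (by linarith : 1 ≤ Rp) hB hδ),
    ev_double (eventually_ge_atTop 8), ev_double (ev_log (16 / κ) 1),
    ev_double (ev_log_ge (Real.log Rp)), ev_double (ev_log_ge 1), ev_double (ev_log Rp 0)] with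
    n h1 h2 hN h4 h5 h6 h7 μ a z p ha hl hReg hbad
  rw [pow_one] at h4
  rw [pow_zero, mul_one] at h7
  have hNc : ((n + n : ℕ) : ℝ) = n + n := by push_cast; ring
  have hN8 : (8 : ℝ) ≤ ((n + n : ℕ) : ℝ) := by exact_mod_cast hN
  have hN0 : (0 : ℝ) < ((n + n : ℕ) : ℝ) := by linarith
  have hRp0 : 0 < Rp := by linarith
  have hbase : Base R (cat z p) := by
    by_contra h
    exact hbad (Or.inl h)
  have hq0 : 0 < (((n + n : ℕ) : ℝ) ^ 4)⁻¹ := by positivity
  have hq3 : 8 * (((n + n : ℕ) : ℝ) ^ 4)⁻¹ ≤ ((n + n : ℕ) : ℝ)⁻¹ := by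
    rw [← div_eq_mul_inv, div_le_iff₀ (by positivity)]
    have e : ((n + n : ℕ) : ℝ)⁻¹ * ((n + n : ℕ) : ℝ) ^ 4 = ((n + n : ℕ) : ℝ) ^ 3 := by field_simp
    rw [e]
    calc (8 : ℝ) ≤ ((n + n : ℕ) : ℝ) := hN8
      _ ≤ ((n + n : ℕ) : ℝ) ^ 3 := le_self_pow₀ (by linarith) (by norm_num)
  have hNinv : ((n + n : ℕ) : ℝ)⁻¹ ≤ 1 := inv_le_one_of_one_le₀ (by linarith)
  have hzR : ∀ j, ‖z j‖ ≤ R := fun j => by
    have := hbase.le (Fin.castAdd n j)
    rwa [cat_left] at this
  have hpR : ∀ j, ‖p j‖ ≤ R := fun j => by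
    have := hbase.le (Fin.natAdd n j)
    rwa [cat_right] at this
  have hp0 : ∀ j, ((n + n : ℕ) : ℝ)⁻¹ ≤ ‖p j‖ := fun j => by
    have := hbase.ge (Fin.natAdd n j)
    rwa [cat_right] at this
  have hzp : ∀ i j, z i ≠ p j := by
    intro i j h
    have h9 := hbase.sep (Fin.castAdd n i) (Fin.natAdd n j) (by
      intro h
      have := congrArg Fin.val h
      simp at this
      omega)
    rw [cat_left, cat_right, h, sub_self, norm_zero] at h9
    have : 0 < (((n + n : ℕ) : ℝ) ^ 2)⁻¹ := by positivity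
    linarith
  have hoff : ∀ v : ℂ, v ≠ 0 → κ * ((n + n : ℕ) : ℝ) / 2 ≤ |Real.log ‖v‖| →
      Off (4 * (((n + n : ℕ) : ℝ) ^ 4)⁻¹) (4 / Rp) v := fun v hv h =>
    off_of hv (by linarith) (by omega) h4 hκ h5 h6 h
  have hinf : ∀ x : ℂ, ‖x‖ ≤ 4 / Rp → Pr p x ≠ 0 ∧
      Off (4 * (((n + n : ℕ) : ℝ) ^ 4)⁻¹) (4 / Rp) (a * (Pr z x / Pr p x)) := by
    intro x hx
    obtain ⟨g1, g2, g3⟩ := near_infty hκ hR h8 h16 hRp0 ha hzR hpR hl hx
    refine ⟨g1, hoff _ (mul_ne_zero ha (div_ne_zero g2 g1)) ?_⟩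
    rw [hNc]
    exact g3
  refine W327.RD.rdyn n (by omega) z p a (4 * (((n + n : ℕ) : ℝ) ^ 4)⁻¹) (4 / Rp) ha (by positivity)
    (by positivity) ?_ hzp ?_ hinf ?_
  · rw [one_div_div]
    linarith
  · intro w hw
    have hne : ∀ j, w ≠ p j := by
      intro j h
      have := hp0 j
      rw [← h] at this
      linarith
    refine ⟨?_, ?_⟩
    · rw [W327.RD.P_eval]
      exact Finset.prod_ne_zero_iff.2 fun j _ => sub_ne_zero.2 (hne j)
    · have h9 := h2 μ (sg n) a (cat z p) w sg_sign ha hReg hbad hw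
      rw [gg_cat] at h9
      refine hoff _ ?_ h9.le
      intro h
      rw [h, norm_zero, Real.log_zero, abs_zero] at h9
      have : 0 < κ * ((n + n : ℕ) : ℝ) / 2 := by positivity
      linarith
  · intro c hpc hzc hw hwin
    have hcz : ∀ j, c ≠ z j := by
      intro j h
      rw [W327.RD.P_eval] at hzc
      exact hzc (Finset.prod_eq_zero (Finset.mem_univ j) (by rw [h, sub_self]))
    have hcp : ∀ j, c ≠ p j := by
      intro j h
      rw [W327.RD.P_eval] at hpc
      exact hpc (Finset.prod_eq_zero (Finset.mem_univ j) (by rw [h, sub_self]))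
    have hcX : ∀ j, c ≠ cat z p j := by
      intro j
      induction j using Fin.addCases with
      | left j => rw [cat_left]; exact hcz j
      | right j => rw [cat_right]; exact hcp j
    have hcrit : SS (sg n) (cat z p) Finset.univ c = 0 := by
      rw [wro_eval z p hcz hcp] at hw
      rcases mul_eq_zero.1 hw with h | h
      · exact absurd h (mul_ne_zero hzc hpc)
      · exact h
    unfold Off at hwin
    rw [not_or, not_lt, not_lt] at hwin
    have e1 : 4 * (((n + n : ℕ) : ℝ) ^ 4)⁻¹ / 4 = (((n + n : ℕ) : ℝ) ^ 4)⁻¹ := by ring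
    have e2 : 4 / (4 / Rp) = Rp := by field_simp
    rw [e1, e2] at hwin
    have hcR : ‖c‖ ≤ Rp := by
      by_contra hcon
      rw [not_le] at hcon
      have hc0 : c ≠ 0 := by
        intro h
        rw [h, norm_zero] at hcon
        linarith
      have h9 := (hinf c⁻¹ (by
        rw [norm_inv, inv_le_comm₀ (by linarith) (by positivity), inv_div]
        linarith)).2
      have h10 : a * (Pr z c⁻¹ / Pr p c⁻¹) = a * Pool.Agent.W751.RD.R z p c := by
        unfold Pr Pool.Agent.W751.RD.R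
        rw [W327.RD.P_eval, W327.RD.P_eval, ← Finset.prod_div_distrib, ← Finset.prod_div_distrib]
        congr 1
        refine Finset.prod_congr rfl fun j _ => ?_
        have h11 : c - z j = c * (1 - z j * c⁻¹) := by field_simp
        have h12 : c - p j = c * (1 - p j * c⁻¹) := by field_simp
        rw [h11, h12, mul_div_mul_left _ _ hc0]
      rw [h10] at h9
      unfold Off at h9
      rw [e1, e2] at h9
      rcases h9 with h9 | h9
      · linarith [hwin.1]
      · linarith [hwin.2]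
    obtain ⟨g1, g2⟩ := h1 μ (sg n) a (cat z p) c sg_sign ha hReg hbad hcR hcX hcrit
      (by rw [gg_cat]; exact hwin.1) (by rw [gg_cat]; exact hwin.2)
    rw [gg_cat, gg_cat] at g2
    right
    unfold Off
    rw [e1, e2]
    rcases g2 with g2 | g2
    · left
      refine g2.trans_le (inv_anti₀ (by positivity) (pow_le_pow_right₀ (by linarith) (by norm_num)))
    · right
      refine lt_of_le_of_lt ?_ g2
      calc Rp ≤ ((n + n : ℕ) : ℝ) := h7
        _ ≤ ((n + n : ℕ) : ℝ) ^ 5 := le_self_pow₀ (by linarith) (by norm_num)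

end Pool.Agent.N229.RL
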