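import Pool.Agent.N229.RL.Core

/-!
# The critical values of a good configuration
-/

set_option autoImplicit false

open Filter Topology MeasureTheory Set

namespace Pool.Agent.N229.RL

variable {N : ℕ}

/-- no critical point close to one of the points -/
theorem noc (hN : 4 ≤ N) {e : Fin N → ℤ} (he : ∀ i, e i = 1 ∨ e i = -1) {X : Fin N → ℂ}
    (hX : ∀ j k, j ≠ k → ((N : ℝ) ^ 2)⁻¹ ≤ ‖X j - X k‖) {c : ℂ} (hc : ∀ j, c ≠ X j)
    (h : SS e X Finset.univ c = 0) (i : Fin N) : ((N : ℝ) ^ 4)⁻¹ ≤ ‖c - X i‖ := by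
  by_contra hcon
  rw [not_le] at hcon
  have hN4 : (4 : ℝ) ≤ N := by exact_mod_cast hN
  have hN0 : (0 : ℝ) < N := by linarith
  have hpos : ∀ j, 0 < ‖c - X j‖ := fun j => norm_pos_iff.2 (sub_ne_zero.2 (hc j))
  rw [SS_univ X i] at h
  have h1 : (e i : ℂ) / (c - X i) = -SS e X (Jn i) c := by linear_combination h
  have hsign : ∀ j, ‖((e j : ℤ) : ℂ)‖ = 1 := fun j => by
    rcases he j with h | h <;> simp [h]
  have h2 : ‖(e i : ℂ) / (c - X i)‖ = ‖c - X i‖⁻¹ := by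
    rw [norm_div, hsign, one_div]
  have h3 : ‖SS e X (Jn i) c‖ ≤ N * (2 * (N : ℝ) ^ 2) := by
    unfold SS
    refine (norm_sum_le _ _).trans ?_
    have h4 : ∀ j ∈ Jn i, ‖(e j : ℂ) / (c - X j)‖ ≤ 2 * (N : ℝ) ^ 2 := by
      intro j hj
      have hji : j ≠ i := by
        unfold Jn at hj
        exact Finset.ne_of_mem_erase hj
      rw [norm_div, hsign, one_div, inv_le_comm₀ (hpos j) (by positivity)]
      have h5 := hX j i hji
      have h6 : ‖X j - X i‖ ≤ ‖c - X j‖ + ‖c - X i‖ := by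
        have : X j - X i = (c - X i) - (c - X j) := by ring
        rw [this]
        exact (norm_sub_le _ _).trans (by linarith)
      have h7 : ((N : ℝ) ^ 4)⁻¹ ≤ (2 * (N : ℝ) ^ 2)⁻¹ := by
        refine inv_anti₀ (by positivity) ?_
        have e1 : (N : ℝ) ^ 4 = (N : ℝ) ^ 2 * (N : ℝ) ^ 2 := by ring
        have e2 : (2 : ℝ) ≤ (N : ℝ) ^ 2 := by nlinarith
        rw [e1]
        exact mul_le_mul_of_nonneg_right e2 (by positivity)
      have h8 : (2 * (N : ℝ) ^ 2)⁻¹ = ((N : ℝ) ^ 2)⁻¹ / 2 := by field_simp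
      linarith
    refine (Finset.sum_le_sum h4).trans ?_
    rw [Finset.sum_const, nsmul_eq_mul]
    refine mul_le_mul_of_nonneg_right ?_ (by positivity)
    have := Finset.card_le_univ (Jn i)
    rw [Fintype.card_fin] at this
    exact_mod_cast this
  have h4 : (N : ℝ) ^ 4 < ‖c - X i‖⁻¹ := by
    rw [lt_inv_comm₀ (by positivity) (hpos i)]
    exact hcon
  rw [h1, norm_neg] at h2
  have h5 : (N : ℝ) * (2 * (N : ℝ) ^ 2) ≤ (N : ℝ) ^ 4 := by
    have : (N : ℝ) ^ 4 = N * (N : ℝ) ^ 2 * N := by ring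
    rw [this]
    have h6 : 0 < (N : ℝ) * (N : ℝ) ^ 2 := by positivity
    nlinarith
  linarith

theorem core_det {R B κ Rp δ : ℝ} (A : ℕ) (hκ : 0 < κ) (hR : 0 ≤ R) (hRp : 1 ≤ Rp)
    (hB : 2 * Rp + 2 + R ≤ B) (hδ : 0 < δ) :
    ∀ᶠ N : ℕ in atTop, ∀ (μ : Fin N → Measure ℂ) (e : Fin N → ℤ) (a : ℂ) (X : Fin N → ℂ) (c : ℂ),
      (∀ i, e i = 1 ∨ e i = -1) → a ≠ 0 → Reg μ e a κ Rp δ →
      X ∉ BadAll μ e a (A + 4) R B κ Rp → ‖c‖ ≤ Rp → (∀ j, c ≠ X j) →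
      SS e X Finset.univ c = 0 → ((N : ℝ) ^ 4)⁻¹ ≤ ‖gg a e X Finset.univ c‖ →
      ‖gg a e X Finset.univ c‖ ≤ Rp →
      (∀ j, ((N : ℝ) ^ 4)⁻¹ ≤ ‖gg a e X Finset.univ c - X j‖) ∧
      (‖gg a e X Finset.univ (gg a e X Finset.univ c)‖ < ((N : ℝ) ^ A)⁻¹ ∨
        (N : ℝ) ^ A < ‖gg a e X Finset.univ (gg a e X Finset.univ c)‖) := by
  filter_upwards [det_main hκ hR (by linarith : 0 ≤ Rp) hB hδ, eventually_ge_atTop 4,
    ev_log (8 / κ) 1, ev_log_ge (Real.log Rp), ev_log_ge 1, ev_log (Rp + R) 0] with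
    N h1 hN h2 h3 h4 h5 μ e a X c he ha hReg hbad hc hcX hcrit hv1 hv2
  rw [pow_one] at h2
  rw [pow_zero, mul_one] at h5
  have hN4 : (4 : ℝ) ≤ N := by exact_mod_cast hN
  have hN0 : (0 : ℝ) < N := by linarith
  have hbase : Base R X := by
    by_contra h
    exact hbad (Or.inl h)
  have hnet : X ∉ NetBad μ e a B κ Rp := fun h => hbad (Or.inr (Or.inl h))
  have h3' : ∀ i, X ∉ E3 (A + 4) R Rp κ e a i := fun i h =>
    hbad (Or.inr (Or.inr (Or.inl (mem_iUnion.2 ⟨i, h⟩))))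
  have h4' : ∀ i, X ∉ E4 R Rp κ e a i := fun i h =>
    hbad (Or.inr (Or.inr (Or.inr (mem_iUnion.2 ⟨i, h⟩))))
  have hnoc := noc hN he hbase.sep hcX hcrit
  have hq0 : 0 < ((N : ℝ) ^ 4)⁻¹ := by positivity
  have hvpos : 0 < ‖gg a e X Finset.univ c‖ := hq0.trans_le hv1
  have hlog : |Real.log ‖gg a e X Finset.univ c‖| ≤ κ * N / 2 := by
    have h6 : |Real.log ‖gg a e X Finset.univ c‖| ≤ 4 * Real.log N := by
      rw [abs_le]
      constructor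
      · have h7 := Real.log_le_log hq0 hv1
        rw [Real.log_inv, Real.log_pow] at h7
        exact_mod_cast h7
      · have h7 := Real.log_le_log hvpos hv2
        linarith
    rw [div_mul_eq_mul_div, div_le_iff₀ hκ] at h2
    linarith
  obtain ⟨-, h6⟩ := h1 μ e a X Finset.univ c he ha (fun j _ => hbase.le j) hnet (by simp) hReg hc
    (fun j _ => hnoc j) hlog
  obtain ⟨i, hi⟩ : ∃ i, ‖c - X i‖ < KK κ * Real.log N / N := by
    rcases h6 with ⟨j, -, hj⟩ | h6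
    · exact ⟨j, hj⟩
    · rw [hcrit, norm_zero] at h6
      have : 0 < κ * N / 2 := by positivity
      linarith
  set v := gg a e X Finset.univ c with hv
  have hvi : ((N : ℝ) ^ 4)⁻¹ < ‖v - X i‖ := by
    by_contra h
    rw [not_lt] at h
    exact h4' i ⟨hbase, c, hc, hnoc, hcrit, hi.le, hv1, hv2, h⟩
  have hB1 : v ∉ B1 (A + 4) Rp X e a i := fun h =>
    h3' i ⟨hbase, c, hc, hnoc, hcrit, hi.le, h⟩
  have hvj : ∀ j ∈ Jn i, ((N : ℝ) ^ 4)⁻¹ < ‖v - X j‖ := by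
    intro j hj
    by_contra h
    rw [not_lt] at h
    exact hB1 ⟨hv1, hv2, Or.inl ⟨j, hj, h⟩⟩
  have hvall : ∀ j, ((N : ℝ) ^ 4)⁻¹ ≤ ‖v - X j‖ := by
    intro j
    by_cases hji : j = i
    · rw [hji]
      exact hvi.le
    · exact (hvj j (by unfold Jn; exact Finset.mem_erase.2 ⟨hji, Finset.mem_univ _⟩)).le
  refine ⟨hvall, ?_⟩
  have hup : ‖v - X i‖ ≤ (N : ℝ) ^ 4 := by
    refine (norm_sub_le _ _).trans ?_
    have h7 := hbase.le i
    have h8 : (N : ℝ) ≤ (N : ℝ) ^ 4 := le_self_pow₀ (by linarith) (by norm_num)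
    linarith
  have hfac : ((N : ℝ) ^ 4)⁻¹ ≤ ‖(v - X i) ^ e i‖ ∧ ‖(v - X i) ^ e i‖ ≤ (N : ℝ) ^ 4 := by
    rcases he i with h | h
    · rw [h, zpow_one]
      exact ⟨hvi.le, hup⟩
    · rw [h, zpow_neg, zpow_one, norm_inv]
      have hpos : 0 < ‖v - X i‖ := hq0.trans hvi
      constructor
      · exact inv_anti₀ hpos hup
      · rw [inv_le_comm₀ hpos (by positivity)]
        exact hvi.le
  have hprod : ‖gg a e X Finset.univ v‖ = ‖(v - X i) ^ e i‖ * ‖gg a e X (Jn i) v‖ := by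
    rw [gg_univ X i v, norm_mul]
  have hdich : ‖gg a e X (Jn i) v‖ < ((N : ℝ) ^ (A + 4))⁻¹ ∨
      (N : ℝ) ^ (A + 4) < ‖gg a e X (Jn i) v‖ := by
    by_contra h
    push Not at h
    exact hB1 ⟨hv1, hv2, Or.inr ⟨fun j hj => (hvj j hj).le, h.1, h.2⟩⟩
  rcases hdich with h | h
  · left
    rw [hprod]
    calc ‖(v - X i) ^ e i‖ * ‖gg a e X (Jn i) v‖ ≤ (N : ℝ) ^ 4 * ‖gg a e X (Jn i) v‖ := by
          gcongr
          exact hfac.2
      _ < (N : ℝ) ^ 4 * ((N : ℝ) ^ (A + 4))⁻¹ := by gcongr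
      _ = ((N : ℝ) ^ A)⁻¹ := by
          rw [pow_add]
          field_simp
  · right
    rw [hprod]
    calc (N : ℝ) ^ A = ((N : ℝ) ^ 4)⁻¹ * (N : ℝ) ^ (A + 4) := by
          rw [pow_add]
          field_simp
      _ < ((N : ℝ) ^ 4)⁻¹ * ‖gg a e X (Jn i) v‖ := by gcongr
      _ ≤ ‖(v - X i) ^ e i‖ * ‖gg a e X (Jn i) v‖ := by
          gcongr
          exact hfac.1

/-- values at the small points -/
theorem core_small {R B κ Rp δ : ℝ} (A : ℕ) (hκ : 0 < κ) (hR : 0 ≤ R) (hRp : 1 ≤ Rp)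
    (hB : 2 * Rp + 2 + R ≤ B) (hδ : 0 < δ) :
    ∀ᶠ N : ℕ in atTop, ∀ (μ : Fin N → Measure ℂ) (e : Fin N → ℤ) (a : ℂ) (X : Fin N → ℂ) (w : ℂ),
      (∀ i, e i = 1 ∨ e i = -1) → a ≠ 0 → Reg μ e a κ Rp δ →
      X ∉ BadAll μ e a A R B κ Rp → ‖w‖ ≤ 4 * ((N : ℝ) ^ 4)⁻¹ →
      κ * N / 2 < |Real.log ‖gg a e X Finset.univ w‖| := by
  filter_upwards [det_main hκ hR (by linarith : 0 ≤ Rp) hB hδ, eventually_ge_atTop 4,
    ev_log (8 / δ) 0] with N h1 hN h2 μ e a X w he ha hReg hbad hw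
  rw [pow_zero, mul_one] at h2
  have hN4 : (4 : ℝ) ≤ N := by exact_mod_cast hN
  have hN0 : (0 : ℝ) < N := by linarith
  have hbase : Base R X := by
    by_contra h
    exact hbad (Or.inl h)
  have hnet : X ∉ NetBad μ e a B κ Rp := fun h => hbad (Or.inr (Or.inl h))
  by_contra hcon
  rw [not_lt] at hcon
  have hq : 4 * ((N : ℝ) ^ 4)⁻¹ ≤ (N : ℝ)⁻¹ / 4 := by
    have h3 : (16 : ℝ) ≤ (N : ℝ) ^ 3 := by
      calc (16 : ℝ) ≤ 4 ^ 3 := by norm_num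
        _ ≤ (N : ℝ) ^ 3 := by gcongr
    rw [← div_eq_mul_inv, div_le_div_iff₀ (by positivity) (by norm_num), inv_mul_eq_div,
      le_div_iff₀ hN0]
    have : (N : ℝ) ^ 4 = (N : ℝ) ^ 3 * N := by ring
    rw [this]
    nlinarith
  have hq2 : ((N : ℝ) ^ 4)⁻¹ ≤ (N : ℝ)⁻¹ / 16 := by linarith
  have hNinv : 0 < (N : ℝ)⁻¹ := by positivity
  obtain ⟨h3, -⟩ := h1 μ e a X Finset.univ w he ha (fun j _ => hbase.le j) hnet (by simp) hReg
    (by
      have : (N : ℝ)⁻¹ ≤ 1 := inv_le_one_of_one_le₀ (by linarith)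
      linarith)
    (fun j _ => by
      have h4 := hbase.ge j
      have h5 : ‖X j‖ ≤ ‖w‖ + ‖w - X j‖ := by
        have : X j = w - (w - X j) := by ring
        nth_rewrite 1 [this]
        exact norm_sub_le _ _
      linarith) hcon
  have h6 : (N : ℝ)⁻¹ ≤ δ / 8 := by
    rw [inv_le_comm₀ hN0 (by positivity), inv_div]
    exact h2
  linarith

end Pool.Agent.N229.RL
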