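import Pool.Agent.W751.CD.Dyn
import Pool.Agent.N229.RL.CoreDet

/-!
# Polynomials with independent roots
-/

set_option autoImplicit false

open Filter Topology MeasureTheory Set

namespace Pool.Agent.N229.RL

open Polynomial (C X derivative)
open Pool.Agent.W751.CD (P Hyp)

variable {N : ℕ}

/-- all signs are one -/
def one : Fin N → ℤ := fun _ => 1

theorem one_sign : ∀ i : Fin N, one i = 1 ∨ one i = -1 := fun _ => Or.inl rfl

/-- the polynomial with the roots `z j`, `j ∈ J` -/
noncomputable def PJ (a : ℂ) (z : Fin N → ℂ) (J : Finset (Fin N)) : Polynomial ℂ :=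
  C a * ∏ j ∈ J, (X - C (z j))

theorem eval_PJ (a : ℂ) (z : Fin N → ℂ) (J : Finset (Fin N)) (w : ℂ) :
    (PJ a z J).eval w = gg a one z J w := by
  unfold PJ gg one
  rw [Polynomial.eval_mul, Polynomial.eval_C, Polynomial.eval_prod]
  simp

theorem deriv_PJ (a : ℂ) (z : Fin N → ℂ) (J : Finset (Fin N)) {w : ℂ} (hw : ∀ j ∈ J, w ≠ z j) :
    (derivative (PJ a z J)).eval w = gg a one z J w * SS one z J w := by
  have h1 := (PJ a z J).hasDerivAt w
  have h2 := hasDerivAt_gg (a := a) (e := one) hw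
  have h3 : (fun y => (PJ a z J).eval y) = gg a one z J := funext fun y => eval_PJ a z J y
  rw [h3] at h1
  exact h1.unique h2

theorem natDegree_PJ {a : ℂ} (ha : a ≠ 0) (z : Fin N → ℂ) (J : Finset (Fin N)) :
    (PJ a z J).natDegree = J.card := by
  unfold PJ
  rw [Polynomial.natDegree_C_mul ha, Polynomial.natDegree_prod_of_monic _ _
    fun j _ => Polynomial.monic_X_sub_C (z j)]
  simp

theorem encard_roots {Q : Polynomial ℂ} (hQ : Q ≠ 0) {m : ℕ} (hm : Q.natDegree ≤ m) {S : Set ℂ}
    (hS : ∀ w ∈ S, Q.eval w = 0) : S.encard ≤ m := by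
  have h1 : S ⊆ (Q.roots.toFinset : Set ℂ) := by
    intro w hw
    rw [Finset.mem_coe, Multiset.mem_toFinset, Polynomial.mem_roots hQ]
    exact hS w hw
  refine (encard_le_encard h1).trans ?_
  rw [encard_coe_eq_coe_finsetCard]
  have : Q.roots.toFinset.card ≤ m :=
    (Multiset.toFinset_card_le _).trans ((Polynomial.card_roots' Q).trans hm)
  exact_mod_cast this

theorem card_J (i : Fin N) : (Jn i).card = N - 1 := by
  unfold Jn
  rw [Finset.card_erase_of_mem (Finset.mem_univ i), Finset.card_univ, Fintype.card_fin]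

theorem multOK_poly (hN : 4 ≤ N) {a : ℂ} (ha : a ≠ 0) (z : Fin N → ℂ) (i : Fin N) :
    MultOK z one a i (2 * N) := by
  set T := PJ a z (Jn i) with hT
  have hdeg : T.natDegree = N - 1 := by rw [hT, natDegree_PJ ha, card_J]
  have hT0 : T ≠ 0 := by
    intro h
    rw [h, Polynomial.natDegree_zero] at hdeg
    omega
  have hd' : (derivative T).natDegree ≤ N - 2 :=
    (Polynomial.natDegree_derivative_le T).trans (by omega)
  have hT2 : (T ^ 2).natDegree = 2 * (N - 1) := by rw [Polynomial.natDegree_pow, hdeg]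
  refine ⟨fun w => ?_, fun w => ?_, fun w => ?_⟩
  · have hQ : (T - C w).natDegree = N - 1 := by rw [Polynomial.natDegree_sub_C, hdeg]
    refine encard_roots (Q := T - C w) ?_ (by omega) ?_
    · intro h
      rw [h, Polynomial.natDegree_zero] at hQ
      omega
    · rintro y ⟨_, hy⟩
      rw [Polynomial.eval_sub, Polynomial.eval_C, hT, eval_PJ, hy, sub_self]
  · have hlt : (C w * derivative T).natDegree < (T ^ 2).natDegree := by
      rw [hT2]
      refine (Polynomial.natDegree_C_mul_le _ _).trans_lt ?_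
      omega
    have hQ : (T ^ 2 + C w * derivative T).natDegree = 2 * (N - 1) := by
      rw [Polynomial.natDegree_add_eq_left_of_natDegree_lt hlt, hT2]
    refine encard_roots (Q := T ^ 2 + C w * derivative T) ?_ (by omega) ?_
    · intro h
      rw [h, Polynomial.natDegree_zero] at hQ
      omega
    · rintro y ⟨hy1, hy2, hy3⟩
      rw [Polynomial.eval_add, Polynomial.eval_pow, Polynomial.eval_mul, Polynomial.eval_C, hT,
        eval_PJ, deriv_PJ a z _ hy1, ← hy3]
      unfold VV
      simp only [one, Int.cast_one, zpow_neg, zpow_one]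
      field_simp
      ring
  · have hlt : (T + (X + C w) * derivative T).natDegree < (T ^ 2).natDegree := by
      rw [hT2]
      refine (Polynomial.natDegree_add_le _ _).trans_lt (max_lt (by omega) ?_)
      refine (Polynomial.natDegree_mul_le).trans_lt ?_
      rw [Polynomial.natDegree_X_add_C]
      omega
    have hQ : (T ^ 2 + (T + (X + C w) * derivative T)).natDegree = 2 * (N - 1) := by
      rw [Polynomial.natDegree_add_eq_left_of_natDegree_lt hlt, hT2]
    refine encard_roots (Q := T ^ 2 + (T + (X + C w) * derivative T)) ?_ (by omega) ?_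
    · intro h
      rw [h, Polynomial.natDegree_zero] at hQ
      omega
    · rintro y ⟨hy1, hy2, hy3⟩
      rw [Polynomial.eval_add, Polynomial.eval_pow, Polynomial.eval_add, Polynomial.eval_mul,
        Polynomial.eval_add, Polynomial.eval_C, Polynomial.eval_X, hT,
        eval_PJ, deriv_PJ a z _ hy1, ← hy3]
      unfold VV FF
      simp only [one, Int.cast_one, zpow_neg, zpow_one]
      field_simp
      ring

/-- growth outside of a disc -/
theorem escape {R Λ : ℝ} (hR : 0 ≤ R) :
    ∀ᶠ N : ℕ in atTop, ∀ (a : ℂ) (z : Fin N → ℂ), a ≠ 0 → |Real.log ‖a‖| ≤ Λ * N →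
      (∀ j, ‖z j‖ ≤ R) → ∀ w : ℂ, R + 2 * Real.exp Λ + 1 ≤ ‖w‖ →
        2 * ‖w‖ ≤ ‖a * (P z).eval w‖ := by
  have hlim : Tendsto (fun N : ℕ => (2 : ℝ) ^ (N - 1)) atTop atTop :=
    (tendsto_pow_atTop_atTop_of_one_lt (by norm_num)).comp (tendsto_sub_atTop_nat 1)
  filter_upwards [hlim.eventually_ge_atTop (R + 2 * Real.exp Λ), eventually_ge_atTop 1] with
    N h1 hN a z ha hΛ hz w hw
  have hE : 0 < Real.exp Λ := Real.exp_pos _
  set y : ℝ := (‖w‖ - R) * Real.exp (-Λ) with hy
  have hyw : ‖w‖ = R + y * Real.exp Λ := by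
    rw [hy, mul_assoc, ← Real.exp_add, neg_add_cancel, Real.exp_zero]
    ring
  have hy2 : 2 ≤ y := by
    by_contra h
    rw [not_le] at h
    nlinarith
  have h2 : y ^ N ≤ ‖a * (P z).eval w‖ := by
    rw [norm_mul]
    have h3 : Real.exp (-(Λ * N)) ≤ ‖a‖ := by
      rw [← Real.exp_log (norm_pos_iff.2 ha)]
      exact Real.exp_le_exp.2 (abs_le.1 hΛ).1
    have h4 : (‖w‖ - R) ^ N ≤ ‖(P z).eval w‖ := by
      unfold P
      rw [Polynomial.eval_prod, norm_prod]
      have h5 : ∏ _i : Fin N, (‖w‖ - R) ≤ ∏ i : Fin N, ‖Polynomial.eval w (X - C (z i))‖ := by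
        refine Finset.prod_le_prod (fun i _ => by linarith) fun i _ => ?_
        rw [Polynomial.eval_sub, Polynomial.eval_X, Polynomial.eval_C]
        have := norm_sub_norm_le w (z i)
        linarith [hz i]
      simpa using h5
    have h6 : y ^ N = Real.exp (-(Λ * N)) * (‖w‖ - R) ^ N := by
      rw [hy, mul_pow, ← Real.exp_nat_mul, mul_comm]
      congr 2
      ring
    rw [h6]
    have h7 : 0 ≤ (‖w‖ - R) ^ N := pow_nonneg (by linarith) _
    exact mul_le_mul h3 h4 h7 (norm_nonneg _)
  refine le_trans ?_ h2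
  obtain ⟨k, rfl⟩ : ∃ k, N = k + 1 := ⟨N - 1, by omega⟩
  rw [Nat.add_sub_cancel] at h1
  have h8 : (2 : ℝ) ^ k ≤ y ^ k := by gcongr
  rw [pow_succ]
  calc 2 * ‖w‖ = 2 * (R + y * Real.exp Λ) := by rw [hyw]
    _ ≤ (R + 2 * Real.exp Λ) * y := by nlinarith
    _ ≤ 2 ^ k * y := by gcongr
    _ ≤ y ^ k * y := by gcongr

theorem poly_good {R B κ Λ δ : ℝ} (hκ : 0 < κ) (hR : 0 ≤ R) (hδ : 0 < δ)
    (hB : 2 * (R + 2 * Real.exp Λ + 1) + 2 + R ≤ B) :
    ∀ᶠ N : ℕ in atTop, ∀ (μ : Fin N → Measure ℂ) (a : ℂ) (z : Fin N → ℂ), a ≠ 0 →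
      |Real.log ‖a‖| ≤ Λ * N → Reg μ one a κ (R + 2 * Real.exp Λ + 1) δ →
      z ∉ BadAll μ one a (5 + 4) R B κ (R + 2 * Real.exp Λ + 1) → Hyp (C a * P z) := by
  have hE : 0 < Real.exp Λ := Real.exp_pos _
  have hRp : 1 ≤ R + 2 * Real.exp Λ + 1 := by linarith
  filter_upwards [core_det 5 hκ hR hRp hB hδ, core_small (5 + 4) hκ hR hRp hB hδ,
    escape (Λ := Λ) hR, eventually_ge_atTop 4, ev_log (8 / κ) 1,
    ev_log_ge (Real.log (R + 2 * Real.exp Λ + 1)), ev_log_ge 1,
    ev_log (R + 2 * Real.exp Λ + 1) 0] with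
    N h1 h2 h3 hN h4 h5 h6 h7 μ a z ha hΛ hReg hbad
  rw [pow_one] at h4
  rw [pow_zero, mul_one] at h7
  have hN4 : (4 : ℝ) ≤ N := by exact_mod_cast hN
  have hN0 : (0 : ℝ) < N := by linarith
  have hbase : Base R z := by
    by_contra h
    exact hbad (Or.inl h)
  set Rp : ℝ := R + 2 * Real.exp Λ + 1 with hRpdef
  have hq0 : 0 < ((N : ℝ) ^ 4)⁻¹ := by positivity
  have hq1 : ((N : ℝ) ^ 4)⁻¹ ≤ 1 := inv_le_one_of_one_le₀ (one_le_pow₀ (by linarith))
  have heval : ∀ w, gg a one z Finset.univ w = a * (P z).eval w := by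
    intro w
    rw [← eval_PJ]
    unfold PJ P
    rw [Polynomial.eval_mul, Polynomial.eval_C]
  have hRN : Rp < (N : ℝ) ^ 5 := by
    calc Rp ≤ N := h7
      _ < (N : ℝ) ^ 5 := lt_self_pow₀ (by linarith) (by norm_num)
  refine Pool.Agent.W751.CD.dyn_holds (P z) a Rp Rp (4 * ((N : ℝ) ^ 4)⁻¹) ha (by positivity)
    (by linarith) le_rfl (by linarith) (h3 a z ha hΛ hbase.le) ?_ ?_
  · intro w hw
    have h8 := h2 μ one a z w one_sign ha hReg hbad hw
    rw [heval] at h8
    have h9 : 4 * Real.log N ≤ κ * N / 2 := by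
      rw [div_mul_eq_mul_div, div_le_iff₀ hκ] at h4
      linarith
    have hne : a * (P z).eval w ≠ 0 := by
      intro h
      rw [h, norm_zero, Real.log_zero, abs_zero] at h8
      have : 0 < κ * N / 2 := by positivity
      linarith
    have hpos : 0 < ‖a * (P z).eval w‖ := norm_pos_iff.2 hne
    rcases lt_abs.1 h8 with h10 | h10
    · right
      by_contra hcon
      rw [not_lt] at hcon
      have := Real.log_le_log hpos hcon
      linarith
    · left
      have h11 : Real.log ‖a * (P z).eval w‖ < Real.log ((N : ℝ) ^ 4)⁻¹ := by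
        rw [Real.log_inv, Real.log_pow]
        push_cast
        linarith
      have h12 := (Real.log_lt_log_iff hpos hq0).1 h11
      linarith
  · intro c hc hc1 hc2
    -- the roots are simple
    have hcz : ∀ j, c ≠ z j := by
      intro j hj
      have h8 : (derivative (P z)).eval c = ∏ k ∈ Finset.univ.erase j, (c - z k) := by
        have hPj : P z = (X - C (z j)) * ∏ k ∈ Finset.univ.erase j, (X - C (z k)) := by
          unfold P
          exact (Finset.mul_prod_erase Finset.univ (fun k => X - C (z k))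
            (Finset.mem_univ j)).symm
        rw [hPj, Polynomial.derivative_mul, Polynomial.derivative_sub, Polynomial.derivative_X,
          Polynomial.derivative_C, sub_zero, one_mul, Polynomial.eval_add, Polynomial.eval_mul,
          Polynomial.eval_sub, Polynomial.eval_X, Polynomial.eval_C, hj, sub_self, zero_mul,
          add_zero, Polynomial.eval_prod]
        simp
      rw [hc] at h8
      obtain ⟨k, hk, hk'⟩ := Finset.prod_eq_zero_iff.1 h8.symm
      have h9 := hbase.sep j k (Finset.ne_of_mem_erase hk).symm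
      rw [← hj, hk', norm_zero] at h9
      have : 0 < ((N : ℝ) ^ 2)⁻¹ := by positivity
      linarith
    have hcrit : SS one z Finset.univ c = 0 := by
      have h8 := deriv_PJ a z Finset.univ (w := c) fun j _ => hcz j
      have h9 : (derivative (PJ a z Finset.univ)).eval c = a * (derivative (P z)).eval c := by
        unfold PJ P
        rw [Polynomial.derivative_C_mul, Polynomial.eval_mul, Polynomial.eval_C]
      rw [h9, hc, mul_zero] at h8
      rcases mul_eq_zero.1 h8.symm with h10 | h10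
      · exact absurd h10 (gg_ne_zero ha fun j _ => hcz j)
      · exact h10
    have hcR : ‖c‖ ≤ Rp := by
      by_contra hcon
      rw [not_le] at hcon
      have h8 := h3 a z ha hΛ hbase.le c hcon.le
      linarith
    have h8 := h1 μ one a z c one_sign ha hReg hbad hcR hcz hcrit
      (by rw [heval]; linarith) (by rw [heval]; exact hc2)
    rw [heval, heval] at h8
    rcases h8.2 with h9 | h9
    · left
      refine h9.trans_le ?_
      have h10 : ((N : ℝ) ^ 5)⁻¹ ≤ ((N : ℝ) ^ 4)⁻¹ :=
        inv_anti₀ (by positivity) (pow_le_pow_right₀ (by linarith) (by norm_num))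
      linarith
    · right
      linarith

end Pool.Agent.N229.RL
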