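import Pool.Agent.N229.RL.Poly

/-!
# Random polynomials with independent roots are hyperbolic
-/

set_option autoImplicit false

open Filter Topology MeasureTheory Set

namespace Pool.Agent.N229.RL

open Polynomial (C X derivative)
open Pool.Agent.W751.CD (P Hyp)

variable {N : ℕ}

theorem re_half {z w : ℂ} (hw : ‖w‖ < ‖z‖) : 1 / 2 ≤ (z * (z - w)⁻¹).re := by
  have hne : z - w ≠ 0 := by
    intro h
    rw [sub_eq_zero] at h
    rw [h] at hw
    exact lt_irrefl _ hw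
  have h0 : 0 < Complex.normSq (z - w) := Complex.normSq_pos.2 hne
  have h1 : (z * (z - w)⁻¹).re = (z.re * (z - w).re + z.im * (z - w).im) /
      Complex.normSq (z - w) := by
    rw [Complex.mul_re, Complex.inv_re, Complex.inv_im]
    field_simp
    ring
  rw [h1, div_le_div_iff₀ (by norm_num) h0]
  have h2 : ‖w‖ ^ 2 < ‖z‖ ^ 2 := pow_lt_pow_left₀ hw (norm_nonneg _) (by norm_num)
  rw [← Complex.normSq_eq_norm_sq, ← Complex.normSq_eq_norm_sq, Complex.normSq_apply,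
    Complex.normSq_apply] at h2
  rw [Complex.normSq_apply]
  simp only [Complex.sub_re, Complex.sub_im]
  nlinarith

theorem Dens.re_GG {μ : Measure ℂ} {D R : ℝ} (h : Dens μ D R) {z : ℂ} (hz : R < ‖z‖) :
    1 / 2 ≤ (z * GG μ z).re := by
  haveI := h.prob
  have h1 : z * GG μ z = ∫ w, z * (z - w)⁻¹ ∂μ := by
    unfold GG
    rw [integral_const_mul]
  have hi : Integrable (fun w => z * (z - w)⁻¹) μ := (h.integrable_cauchy z).const_mul z
  have h2 : (∫ w, z * (z - w)⁻¹ ∂μ).re = ∫ w, (z * (z - w)⁻¹).re ∂μ := by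
    have := Complex.reCLM.integral_comp_comm hi
    simpa using this.symm
  rw [h1, h2]
  have h3 : ∫ _w, (1 / 2 : ℝ) ∂μ ≤ ∫ w, (z * (z - w)⁻¹).re ∂μ := by
    refine integral_mono_ae (integrable_const _) hi.re ?_
    filter_upwards [h.ae] with w hw
    exact re_half (hw.trans_lt hz)
  simpa using h3

theorem MG_far {μ : Fin N → Measure ℂ} {D R : ℝ} (h : ∀ i, Dens (μ i) D R) {z : ℂ}
    (hz : R < ‖z‖) (hz0 : 0 < ‖z‖) : N / (2 * ‖z‖) ≤ ‖MG μ one z‖ := by
  have h1 : (N : ℝ) / 2 ≤ (z * MG μ one z).re := by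
    unfold MG
    rw [Finset.mul_sum, Complex.re_sum]
    have h2 : ∑ _i : Fin N, (1 / 2 : ℝ) ≤ ∑ i : Fin N, (z * (((one i : ℤ) : ℂ) * GG (μ i) z)).re := by
      refine Finset.sum_le_sum fun i _ => ?_
      have := (h i).re_GG hz
      simpa [one] using this
    simp only [Finset.sum_const, Finset.card_univ, Fintype.card_fin, nsmul_eq_mul] at h2
    linarith
  have h3 := (h1.trans (Complex.re_le_norm _))
  rw [norm_mul] at h3
  rw [div_le_iff₀ (by positivity)]
  linarith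

theorem MU_near {μ : Fin N → Measure ℂ} {D R : ℝ} (h : ∀ i, Dens (μ i) D R) {e : Fin N → ℤ}
    (he : ∀ i, e i = 1 ∨ e i = -1) (a z : ℂ) :
    |MU μ e a z - MU μ e a 0| ≤ N * (‖z‖ * (2 * (2 * Real.pi * D + 1))) := by
  unfold MU
  have h1 : Real.log ‖a‖ + ∑ i, (e i : ℝ) * UU (μ i) z - (Real.log ‖a‖ +
      ∑ i, (e i : ℝ) * UU (μ i) 0) = ∑ i, (e i : ℝ) * (UU (μ i) z - UU (μ i) 0) := by
    rw [add_sub_add_left_eq_sub, ← Finset.sum_sub_distrib]
    exact Finset.sum_congr rfl fun i _ => by ring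
  rw [h1]
  refine (Finset.abs_sum_le_sum_abs _ _).trans ?_
  have h2 : ∀ i ∈ (Finset.univ : Finset (Fin N)), |(e i : ℝ) * (UU (μ i) z - UU (μ i) 0)| ≤
      ‖z‖ * (2 * (2 * Real.pi * D + 1)) := by
    intro i _
    rw [abs_mul, sign_abs (he i), one_mul]
    have := (h i).lip z 0
    rwa [sub_zero] at this
  refine (Finset.sum_le_sum h2).trans (le_of_eq ?_)
  simp

/-- the general theorem -/
theorem general (R D κ Λ : ℝ) (hκ : 0 < κ) :
    ∃ K : ℝ, 0 < K ∧ ∀ N : ℕ, 2 ≤ N → ∀ (μ : Fin N → Measure ℂ) (a : ℂ),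
      (∀ i, Dens (μ i) D R) → a ≠ 0 → |Real.log ‖a‖| ≤ Λ * N →
      (∀ z : ℂ, ‖z‖ ≤ R → κ * N ≤ |MU μ one a z| ∨ κ * N ≤ ‖MG μ one z‖) →
      κ * N ≤ |MU μ one a 0| →
      Measure.pi μ {z | ¬ Hyp (C a * P z)} ≤ ENNReal.ofReal (K * Real.log N ^ 4 / N) := by
  by_cases hDR : 0 ≤ D ∧ 0 ≤ R
  swap
  · refine ⟨1, one_pos, fun N hN μ a hμ => ?_⟩
    exact absurd ⟨(hμ ⟨0, by omega⟩).D0, (hμ ⟨0, by omega⟩).R0⟩ hDR
  obtain ⟨hD, hR⟩ := hDR
  have hpi := Real.pi_pos
  have hE : 0 < Real.exp Λ := Real.exp_pos _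
  set Rp : ℝ := R + 2 * Real.exp Λ + 1 with hRp
  have hRp1 : 1 ≤ Rp := by rw [hRp]; linarith
  set κ' : ℝ := min (κ / 2) (1 / (2 * (Rp + 1))) with hκ'
  have hκ'0 : 0 < κ' := lt_min (by positivity) (by positivity)
  set δ : ℝ := κ / (2 * (2 * (2 * Real.pi * D + 1))) with hδ
  have hδ0 : 0 < δ := by rw [hδ]; positivity
  set B : ℝ := 2 * Rp + 2 + R with hB
  obtain ⟨K, hK, hK'⟩ := core_prob (5 + 4) hκ'0 hR hRp1 (le_refl B) hδ0 hD
  obtain ⟨N₀, hN₀⟩ := eventually_atTop.1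
    (hK'.and ((poly_good (B := B) (Λ := Λ) hκ'0 hR hδ0 le_rfl).and (eventually_ge_atTop 4)))
  refine ⟨K + N₀ / Real.log 2 ^ 4, by
    have : 0 < Real.log 2 := Real.log_pos (by norm_num)
    positivity, ?_⟩
  intro N hN μ a hμ ha hΛ hreg h0
  haveI : ∀ i, IsProbabilityMeasure (μ i) := fun i => (hμ i).prob
  have hN2 : (2 : ℝ) ≤ N := by exact_mod_cast hN
  have hNpos : (0 : ℝ) < N := by linarith
  have hl2 : 0 < Real.log 2 := Real.log_pos (by norm_num)
  have hlog : Real.log 2 ≤ Real.log N := Real.log_le_log (by norm_num) hN2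
  have hl4 : Real.log 2 ^ 4 ≤ Real.log N ^ 4 := by gcongr
  have hlN : 0 < Real.log N := by linarith
  by_cases hcase : N₀ ≤ N
  · obtain ⟨k1, k2, k3⟩ := hN₀ N hcase
    have hReg : Reg μ one a κ' Rp δ := by
      refine ⟨fun z hz => ?_, fun z hz => ?_⟩
      · by_cases hzR : ‖z‖ ≤ R
        · have h1 : κ' * N ≤ κ * N := by
            have : κ' ≤ κ := (min_le_left _ _).trans (by linarith)
            gcongr
          rcases hreg z hzR with h | h
          · exact Or.inl (h1.trans h)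
          · exact Or.inr (h1.trans h)
        · right
          rw [not_le] at hzR
          have hz0 : 0 < ‖z‖ := hR.trans_lt hzR
          refine le_trans ?_ (MG_far hμ hzR hz0)
          have h1 : κ' ≤ 1 / (2 * ‖z‖) := by
            refine (min_le_right _ _).trans ?_
            gcongr
          calc κ' * N ≤ 1 / (2 * ‖z‖) * N := by gcongr
            _ = N / (2 * ‖z‖) := by ring
      · have h1 := MU_near hμ one_sign a z
        have h2 : ‖z‖ * (2 * (2 * Real.pi * D + 1)) ≤ κ / 2 := by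
          have h3 : ‖z‖ * (2 * (2 * Real.pi * D + 1)) ≤ δ * (2 * (2 * Real.pi * D + 1)) := by
            gcongr
          refine h3.trans (le_of_eq ?_)
          rw [hδ]
          field_simp
        have h4 : (N : ℝ) * (‖z‖ * (2 * (2 * Real.pi * D + 1))) ≤ N * (κ / 2) := by gcongr
        have h5 : |MU μ one a 0| ≤ |MU μ one a z| + |MU μ one a z - MU μ one a 0| := by
          have : MU μ one a 0 = MU μ one a z - (MU μ one a z - MU μ one a 0) := by ring
          nth_rewrite 1 [this]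
          exact abs_sub _ _
        have h6 : κ' * N ≤ κ / 2 * N := by
          have : κ' ≤ κ / 2 := min_le_left _ _
          gcongr
        linarith
    have h1 := k1 μ one a one_sign ha hμ hReg (fun X i _ => multOK_poly k3 ha X i)
    have hsub : {z | ¬ Hyp (C a * P z)} ⊆ BadAll μ one a (5 + 4) R B κ' Rp := by
      intro z hz
      by_contra hcon
      exact hz (k2 μ a z ha hΛ hReg hcon)
    refine (measure_mono hsub).trans (h1.trans (ENNReal.ofReal_le_ofReal ?_))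
    have h2 : K ≤ K + N₀ / Real.log 2 ^ 4 := by
      have : 0 ≤ (N₀ : ℝ) / Real.log 2 ^ 4 := by positivity
      linarith
    gcongr
  · refine prob_le_one.trans ?_
    rw [← ENNReal.ofReal_one]
    refine ENNReal.ofReal_le_ofReal ?_
    rw [le_div_iff₀ hNpos, one_mul]
    have h1 : (N : ℝ) ≤ N₀ := by
      rw [not_le] at hcase
      exact_mod_cast hcase.le
    calc (N : ℝ) ≤ N₀ := h1
      _ = N₀ / Real.log 2 ^ 4 * Real.log 2 ^ 4 := by field_simp
      _ ≤ N₀ / Real.log 2 ^ 4 * Real.log N ^ 4 := by gcongr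
      _ ≤ (K + N₀ / Real.log 2 ^ 4) * Real.log N ^ 4 := by
          gcongr
          linarith

/-- identically distributed roots -/
theorem iid {μ : Measure ℂ} {D R t : ℝ} (h : Dens μ D R) (h0 : t + UU μ 0 ≠ 0)
    (hreg : ∀ z, t + UU μ z = 0 → GG μ z ≠ 0) :
    ∃ K : ℝ, 0 < K ∧ ∀ N : ℕ, 2 ≤ N → ∀ a : ℂ, ‖a‖ = Real.exp (t * N) →
      Measure.pi (fun _ : Fin N => μ) {z | ¬ Hyp (C a * P z)} ≤
        ENNReal.ofReal (K * Real.log N ^ 4 / N) := by
  -- a uniform lower bound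
  obtain ⟨κ, hκ, hκ'⟩ : ∃ κ : ℝ, 0 < κ ∧ ∀ z : ℂ, ‖z‖ ≤ R →
      κ ≤ |t + UU μ z| ∨ κ ≤ ‖GG μ z‖ := by
    have hc : Continuous fun z => max |t + UU μ z| ‖GG μ z‖ :=
      ((continuous_const.add h.continuous_UU).abs).max h.continuous_GG.norm
    obtain ⟨z₀, hz₀, hmin⟩ := (isCompact_closedBall (0 : ℂ) R).exists_isMinOn
      ⟨0, by rw [mem_closedBall_zero_iff]; simpa using h.R0⟩ hc.continuousOn
    refine ⟨max |t + UU μ z₀| ‖GG μ z₀‖, ?_, fun z hz => ?_⟩
    · by_cases h1 : t + UU μ z₀ = 0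
      · exact lt_max_of_lt_right (norm_pos_iff.2 (hreg z₀ h1))
      · exact lt_max_of_lt_left (abs_pos.2 h1)
    · have h2 := hmin (mem_closedBall_zero_iff.2 hz)
      exact le_max_iff.1 h2
  set κ₁ : ℝ := min κ |t + UU μ 0| with hκ₁
  have hκ₁0 : 0 < κ₁ := lt_min hκ (abs_pos.2 h0)
  obtain ⟨K, hK, hK'⟩ := general R D κ₁ |t| hκ₁0
  refine ⟨K, hK, fun N hN a ha => ?_⟩
  have hNpos : (0 : ℝ) < N := by
    have : (2 : ℝ) ≤ N := by exact_mod_cast hN
    linarith
  have hlog : Real.log ‖a‖ = t * N := by rw [ha, Real.log_exp]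
  have hMU : ∀ z, MU (fun _ : Fin N => μ) one a z = N * (t + UU μ z) := by
    intro z
    unfold MU
    rw [hlog]
    simp [one]
    ring
  have hMG : ∀ z, MG (fun _ : Fin N => μ) one z = N * GG μ z := by
    intro z
    unfold MG
    simp [one]
  refine hK' N hN (fun _ => μ) a (fun _ => h) ?_ ?_ (fun z hz => ?_) ?_
  · rw [← norm_pos_iff, ha]
    exact Real.exp_pos _
  · rw [hlog, abs_mul, Nat.abs_cast]
  · rw [hMU, hMG, abs_mul, Nat.abs_cast, norm_mul, Complex.norm_natCast]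
    rcases hκ' z hz with h1 | h1
    · left
      have : κ₁ ≤ |t + UU μ z| := (min_le_left _ _).trans h1
      rw [mul_comm]
      gcongr
    · right
      have : κ₁ ≤ ‖GG μ z‖ := (min_le_left _ _).trans h1
      rw [mul_comm]
      gcongr
  · rw [hMU, abs_mul, Nat.abs_cast, mul_comm]
    have : κ₁ ≤ |t + UU μ 0| := min_le_right _ _
    gcongr

end Pool.Agent.N229.RL
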