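import Pool.Agent.N229.RL.RatGood
import Pool.Agent.N229.RL.Main

/-!
# Rational maps with independent zeros and poles are hyperbolic
-/

set_option autoImplicit false

open Filter Topology MeasureTheory Set

namespace Pool.Agent.N229.RL

open Polynomial (C X derivative)
open Pool.Agent.W751.CD (P)

variable {n : ℕ}

theorem measurable_cat : Measurable fun q : (Fin n → ℂ) × (Fin n → ℂ) => cat q.1 q.2 := by
  rw [measurable_pi_iff]
  intro i
  induction i using Fin.addCases with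
  | left i =>
    simp only [cat_left]
    exact (measurable_pi_apply i).comp measurable_fst
  | right i =>
    simp only [cat_right]
    exact (measurable_pi_apply i).comp measurable_snd

theorem map_cat (μ ν : Fin n → Measure ℂ) (hμ : ∀ i, IsProbabilityMeasure (μ i))
    (hν : ∀ i, IsProbabilityMeasure (ν i)) :
    ((Measure.pi μ).prod (Measure.pi ν)).map (fun q => cat q.1 q.2) =
      Measure.pi (cat μ ν) := by
  haveI : ∀ i, IsProbabilityMeasure (cat μ ν i) := by
    intro i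
    induction i using Fin.addCases with
    | left i => rw [cat_left]; exact hμ i
    | right i => rw [cat_right]; exact hν i
  symm
  refine Measure.pi_eq fun s hs => ?_
  rw [Measure.map_apply measurable_cat (MeasurableSet.univ_pi hs)]
  have h1 : (fun q : (Fin n → ℂ) × (Fin n → ℂ) => cat q.1 q.2) ⁻¹' (univ.pi s) =
      (univ.pi fun i => s (Fin.castAdd n i)) ×ˢ (univ.pi fun i => s (Fin.natAdd n i)) := by
    ext q
    simp only [mem_preimage, Set.mem_pi, mem_univ, forall_true_left, mem_prod]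
    constructor
    · intro h
      refine ⟨fun i => ?_, fun i => ?_⟩
      · have := h (Fin.castAdd n i)
        rwa [cat_left] at this
      · have := h (Fin.natAdd n i)
        rwa [cat_right] at this
    · rintro ⟨h1, h2⟩ i
      induction i using Fin.addCases with
      | left i => rw [cat_left]; exact h1 i
      | right i => rw [cat_right]; exact h2 i
  rw [h1, Measure.prod_prod, Measure.pi_pi, Measure.pi_pi, Fin.prod_univ_add]
  simp only [cat_left, cat_right]

theorem MU_cat (μ ν : Fin n → Measure ℂ) (a z : ℂ) :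
    MU (cat μ ν) (sg n) a z = Real.log ‖a‖ + (∑ i, UU (μ i) z - ∑ i, UU (ν i) z) := by
  unfold MU
  rw [Fin.sum_univ_add]
  simp only [sg_left, sg_right, cat_left, cat_right]
  simp [sub_eq_add_neg]

theorem MG_cat (μ ν : Fin n → Measure ℂ) (z : ℂ) :
    MG (cat μ ν) (sg n) z = ∑ i, GG (μ i) z - ∑ i, GG (ν i) z := by
  unfold MG
  rw [Fin.sum_univ_add]
  simp only [sg_left, sg_right, cat_left, cat_right]
  simp [sub_eq_add_neg]

/-- the general theorem -/
theorem rat_general (R D κ : ℝ) (hκ : 0 < κ) :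
    ∃ K : ℝ, 0 < K ∧ ∀ n : ℕ, 2 ≤ n → ∀ (μ ν : Fin n → Measure ℂ) (a : ℂ),
      (∀ i, Dens (μ i) D R) → (∀ i, Dens (ν i) D R) → a ≠ 0 →
      κ * n ≤ |Real.log ‖a‖| →
      (∀ z : ℂ, κ * n ≤ |MU (cat μ ν) (sg n) a z| ∨ κ * n ≤ ‖MG (cat μ ν) (sg n) z‖) →
      κ * n ≤ |MU (cat μ ν) (sg n) a 0| →
      ((Measure.pi μ).prod (Measure.pi ν))
        {q | ¬ Pool.Agent.H762R2.Rt.Hyp (C a * P q.1) (P q.2)} ≤
        ENNReal.ofReal (K * Real.log n ^ 4 / n) := by
  by_cases hDR : 0 ≤ D ∧ 0 ≤ R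
  swap
  · refine ⟨1, one_pos, fun n hn μ ν a hμ => ?_⟩
    exact absurd ⟨(hμ ⟨0, by omega⟩).D0, (hμ ⟨0, by omega⟩).R0⟩ hDR
  obtain ⟨hD, hR⟩ := hDR
  have hpi := Real.pi_pos
  set κ' : ℝ := κ / 4 with hκ'
  have hκ'0 : 0 < κ' := by rw [hκ']; positivity
  set Rp : ℝ := 8 + 8 * R + 16 * R / κ' with hRp
  have hRp8 : 8 ≤ Rp := by
    have : 0 ≤ 8 * R + 16 * R / κ' := by positivity
    linarith
  have hRpR : 8 * R ≤ Rp := by
    have : 0 ≤ 16 * R / κ' := by positivity
    linarith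
  have hRp16 : 16 * R ≤ κ' * Rp := by
    have h1 : κ' * Rp = κ' * (8 + 8 * R) + 16 * R := by
      rw [hRp]
      field_simp
    have : 0 ≤ κ' * (8 + 8 * R) := by positivity
    linarith
  set δ : ℝ := κ / (4 * (2 * (2 * Real.pi * D + 1))) with hδ
  have hδ0 : 0 < δ := by rw [hδ]; positivity
  set B : ℝ := 2 * Rp + 2 + R with hB
  obtain ⟨K, hK, hK'⟩ := core_prob (5 + 4) hκ'0 hR (by linarith : 1 ≤ Rp) (le_refl B) hδ0 hD
  obtain ⟨n₀, hn₀⟩ := eventually_atTop.1
    ((ev_double hK').and ((rational_good (B := B) hκ'0 hR hδ0 hRp8 hRpR hRp16 le_rfl).and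
      (eventually_ge_atTop 3)))
  refine ⟨K * 16 + n₀ / Real.log 2 ^ 4, by
    have : 0 < Real.log 2 := Real.log_pos (by norm_num)
    positivity, ?_⟩
  intro n hn μ ν a hμ hν ha hl hreg h0
  have : ∀ i, IsProbabilityMeasure (μ i) := fun i => (hμ i).prob
  have : ∀ i, IsProbabilityMeasure (ν i) := fun i => (hν i).prob
  have hn2 : (2 : ℝ) ≤ n := by exact_mod_cast hn
  have hn0 : (0 : ℝ) < n := by linarith
  have hl2 : 0 < Real.log 2 := Real.log_pos (by norm_num)
  have hlog : Real.log 2 ≤ Real.log n := Real.log_le_log (by norm_num) hn2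
  have hln : 0 < Real.log n := by linarith
  have hnn : ((n + n : ℕ) : ℝ) = 2 * n := by push_cast; ring
  by_cases hcase : n₀ ≤ n
  · obtain ⟨k1, k2, k3⟩ := hn₀ n hcase
    have hcD : ∀ i, Dens (cat μ ν i) D R := by
      intro i
      induction i using Fin.addCases with
      | left i => rw [cat_left]; exact hμ i
      | right i => rw [cat_right]; exact hν i
    have hκn : κ' * ((n + n : ℕ) : ℝ) = κ * n / 2 := by
      rw [hnn, hκ']
      ring
    have hκn0 : 0 < κ * n := by positivity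
    have hReg : Reg (cat μ ν) (sg n) a κ' Rp δ := by
      refine ⟨fun z _ => ?_, fun z hz => ?_⟩
      · rw [hκn]
        rcases hreg z with h | h
        · left; linarith
        · right; linarith
      · rw [hκn]
        have h1 := MU_near hcD sg_sign a z
        have h2 : ((n + n : ℕ) : ℝ) * (‖z‖ * (2 * (2 * Real.pi * D + 1))) ≤ κ * n / 2 := by
          have h3 : ‖z‖ * (2 * (2 * Real.pi * D + 1)) ≤ δ * (2 * (2 * Real.pi * D + 1)) := by
            gcongr
          have h4 : δ * (2 * (2 * Real.pi * D + 1)) = κ / 4 := by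
            rw [hδ]
            field_simp
          rw [h4] at h3
          rw [hnn]
          nlinarith
        have h5 : |MU (cat μ ν) (sg n) a 0| ≤ |MU (cat μ ν) (sg n) a z| +
            |MU (cat μ ν) (sg n) a z - MU (cat μ ν) (sg n) a 0| := by
          have : MU (cat μ ν) (sg n) a 0 = MU (cat μ ν) (sg n) a z -
            (MU (cat μ ν) (sg n) a z - MU (cat μ ν) (sg n) a 0) := by ring
          nth_rewrite 1 [this]
          exact abs_sub _ _
        linarith
    have hl' : κ' * ((n : ℝ) + n) ≤ |Real.log ‖a‖| := by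
      have : κ' * ((n : ℝ) + n) = κ * n / 2 := by rw [hκ']; ring
      rw [this]
      linarith
    have h1 := k1 (cat μ ν) (sg n) a sg_sign ha hcD hReg (fun X i hb => multOK_cat k3 ha X i hb)
    have hsub : {q : (Fin n → ℂ) × (Fin n → ℂ) |
        ¬ Pool.Agent.H762R2.Rt.Hyp (C a * P q.1) (P q.2)} ⊆
        (fun q : (Fin n → ℂ) × (Fin n → ℂ) => cat q.1 q.2) ⁻¹'
          BadAll (cat μ ν) (sg n) a (5 + 4) R B κ' Rp := by
      intro q hq
      by_contra hcon
      exact hq (k2 (cat μ ν) a q.1 q.2 ha hl' hReg hcon)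
    refine (measure_mono hsub).trans ((Measure.le_map_apply measurable_cat.aemeasurable _).trans ?_)
    rw [map_cat μ ν (fun i => (hμ i).prob) (fun i => (hν i).prob)]
    refine h1.trans (ENNReal.ofReal_le_ofReal ?_)
    rw [hnn]
    have h2 : Real.log (2 * n) ≤ 2 * Real.log n := by
      rw [Real.log_mul (by norm_num) hn0.ne']
      linarith
    have h3 : 0 ≤ Real.log (2 * n) := Real.log_nonneg (by linarith)
    have h4 : 0 ≤ (n₀ : ℝ) / Real.log 2 ^ 4 := by positivity
    calc K * Real.log (2 * n) ^ 4 / (2 * n) ≤ K * (2 * Real.log n) ^ 4 / (1 * n) := by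
          gcongr
          norm_num
      _ = (K * 16) * Real.log n ^ 4 / n := by ring
      _ ≤ (K * 16 + n₀ / Real.log 2 ^ 4) * Real.log n ^ 4 / n := by
          gcongr
          linarith
  · refine prob_le_one.trans ?_
    rw [← ENNReal.ofReal_one]
    refine ENNReal.ofReal_le_ofReal ?_
    rw [le_div_iff₀ hn0, one_mul]
    have h1 : (n : ℝ) ≤ n₀ := by
      rw [not_le] at hcase
      exact_mod_cast hcase.le
    calc (n : ℝ) ≤ n₀ := h1
      _ = n₀ / Real.log 2 ^ 4 * Real.log 2 ^ 4 := by field_simp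
      _ ≤ n₀ / Real.log 2 ^ 4 * Real.log n ^ 4 := by gcongr
      _ ≤ (K * 16 + n₀ / Real.log 2 ^ 4) * Real.log n ^ 4 := by
          gcongr
          linarith [mul_pos hK (by norm_num : (0 : ℝ) < 16)]

/-- the potential near infinity -/
theorem Dens.UU_far {μ : Measure ℂ} {D R : ℝ} (h : Dens μ D R) {z : ℂ} (hz : 2 * R + 1 ≤ ‖z‖) :
    |UU μ z - Real.log ‖z‖| ≤ 2 * R / ‖z‖ := by
  have := h.prob
  have hR := h.R0
  have hz0 : 0 < ‖z‖ := by linarith
  have hzne : z ≠ 0 := norm_pos_iff.1 hz0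
  have h1 : UU μ z - Real.log ‖z‖ = ∫ w, (Real.log ‖z - w‖ - Real.log ‖z‖) ∂μ := by
    unfold UU
    rw [integral_sub (h.integrable_log z) (integrable_const _)]
    simp
  rw [h1, ← Real.norm_eq_abs]
  refine (norm_integral_le_of_norm_le_const (C := 2 * R / ‖z‖) ?_).trans (by simp)
  filter_upwards [h.ae] with w hw
  have h2 : ‖w / z‖ ≤ 1 / 2 := by
    rw [norm_div, div_le_div_iff₀ hz0 (by norm_num)]
    linarith
  obtain ⟨h3, h4⟩ := abs_log_one_sub h2
  have h5 : z - w = z * (1 - w / z) := by field_simp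
  rw [h5, norm_mul, Real.log_mul hz0.ne' (norm_ne_zero_iff.2 h4), add_sub_cancel_left,
    Real.norm_eq_abs]
  refine h3.trans ?_
  rw [norm_div, mul_div_assoc']
  gcongr

/-- identically distributed zeros and poles -/
theorem rat_iid {μ ν : Measure ℂ} {D R t : ℝ} (hμ : Dens μ D R) (hν : Dens ν D R) (ht : t ≠ 0)
    (h0 : t + (UU μ 0 - UU ν 0) ≠ 0)
    (hreg : ∀ z, t + (UU μ z - UU ν z) = 0 → GG μ z ≠ GG ν z) :
    ∃ K : ℝ, 0 < K ∧ ∀ n : ℕ, 2 ≤ n → ∀ a : ℂ, ‖a‖ = Real.exp (t * n) →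
      ((Measure.pi fun _ : Fin n => μ).prod (Measure.pi fun _ : Fin n => ν))
        {q | ¬ Pool.Agent.H762R2.Rt.Hyp (C a * P q.1) (P q.2)} ≤
        ENNReal.ofReal (K * Real.log n ^ 4 / n) := by
  have hR := hμ.R0
  have htp : 0 < |t| := abs_pos.2 ht
  set R₁ : ℝ := 2 * R + 1 + 8 * R / |t| with hR₁
  have hR₁0 : 0 < R₁ := by rw [hR₁]; positivity
  -- a uniform lower bound
  obtain ⟨κ, hκ, hκ'⟩ : ∃ κ : ℝ, 0 < κ ∧ ∀ z : ℂ, ‖z‖ ≤ R₁ →
      κ ≤ |t + (UU μ z - UU ν z)| ∨ κ ≤ ‖GG μ z - GG ν z‖ := by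
    have hc : Continuous fun z => max |t + (UU μ z - UU ν z)| ‖GG μ z - GG ν z‖ :=
      ((continuous_const.add (hμ.continuous_UU.sub hν.continuous_UU)).abs).max
        (hμ.continuous_GG.sub hν.continuous_GG).norm
    obtain ⟨z₀, hz₀, hmin⟩ := (isCompact_closedBall (0 : ℂ) R₁).exists_isMinOn
      ⟨0, by rw [mem_closedBall_zero_iff]; simpa using hR₁0.le⟩ hc.continuousOn
    refine ⟨max |t + (UU μ z₀ - UU ν z₀)| ‖GG μ z₀ - GG ν z₀‖, ?_, fun z hz => ?_⟩
    · by_cases h1 : t + (UU μ z₀ - UU ν z₀) = 0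
      · exact lt_max_of_lt_right (norm_pos_iff.2 (sub_ne_zero.2 (hreg z₀ h1)))
      · exact lt_max_of_lt_left (abs_pos.2 h1)
    · have h2 := hmin (mem_closedBall_zero_iff.2 hz)
      exact le_max_iff.1 h2
  have hfar : ∀ z : ℂ, R₁ < ‖z‖ → |t| / 2 ≤ |t + (UU μ z - UU ν z)| := by
    intro z hz
    have hz1 : 2 * R + 1 ≤ ‖z‖ := by
      have : 0 ≤ 8 * R / |t| := by positivity
      linarith
    have hz0 : 0 < ‖z‖ := hR₁0.trans hz
    have h1 := hμ.UU_far hz1
    have h2 := hν.UU_far hz1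
    have h3 : 2 * R / ‖z‖ ≤ |t| / 4 := by
      rw [div_le_div_iff₀ hz0 (by norm_num)]
      have h4 : 8 * R / |t| ≤ ‖z‖ := by linarith
      rw [div_le_iff₀ htp] at h4
      linarith
    have h5 : |UU μ z - UU ν z| ≤ |t| / 2 := by
      rw [abs_le] at h1 h2 ⊢
      constructor <;> linarith [h1.1, h1.2, h2.1, h2.2]
    have h6 : |t| ≤ |t + (UU μ z - UU ν z)| + |UU μ z - UU ν z| := by
      have : t = (t + (UU μ z - UU ν z)) - (UU μ z - UU ν z) := by ring
      nth_rewrite 1 [this]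
      exact abs_sub _ _
    linarith
  set κ₁ : ℝ := min κ (min (|t| / 2) |t + (UU μ 0 - UU ν 0)|) with hκ₁
  have hκ₁0 : 0 < κ₁ := lt_min hκ (lt_min (by positivity) (abs_pos.2 h0))
  have k1 : κ₁ ≤ κ := min_le_left _ _
  have k2 : κ₁ ≤ |t| / 2 := (min_le_right _ _).trans (min_le_left _ _)
  have k3 : κ₁ ≤ |t + (UU μ 0 - UU ν 0)| := (min_le_right _ _).trans (min_le_right _ _)
  obtain ⟨K, hK, hK'⟩ := rat_general R D κ₁ hκ₁0
  refine ⟨K, hK, fun n hn a ha => ?_⟩
  have hn0 : (0 : ℝ) < n := by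
    have : (2 : ℝ) ≤ n := by exact_mod_cast hn
    linarith
  have hlog : Real.log ‖a‖ = t * n := by rw [ha, Real.log_exp]
  have hMU : ∀ z, MU (cat (fun _ : Fin n => μ) fun _ : Fin n => ν) (sg n) a z =
      n * (t + (UU μ z - UU ν z)) := by
    intro z
    rw [MU_cat, hlog]
    simp
    ring
  have hMG : ∀ z, MG (cat (fun _ : Fin n => μ) fun _ : Fin n => ν) (sg n) z =
      n * (GG μ z - GG ν z) := by
    intro z
    rw [MG_cat]
    simp
    ring
  refine hK' n hn (fun _ => μ) (fun _ => ν) a (fun _ => hμ) (fun _ => hν) ?_ ?_ (fun z => ?_) ?_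
  · rw [← norm_pos_iff, ha]
    exact Real.exp_pos _
  · rw [hlog, abs_mul, Nat.abs_cast]
    have : κ₁ ≤ |t| := by linarith
    gcongr
  · rw [hMU, hMG, abs_mul, Nat.abs_cast, norm_mul, Complex.norm_natCast]
    by_cases hz : ‖z‖ ≤ R₁
    · rcases hκ' z hz with h1 | h1
      · left
        rw [mul_comm]
        gcongr
        linarith
      · right
        rw [mul_comm]
        gcongr
        linarith
    · left
      have h1 := hfar z (not_le.1 hz)
      rw [mul_comm]
      gcongr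
      linarith
  · rw [hMU, abs_mul, Nat.abs_cast, mul_comm]
    gcongr

end Pool.Agent.N229.RL
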