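import Mathlib

/-!
# Rational functions with independent zeros and poles: definitions

`gg a e X J z = a ∏_{j ∈ J} (z - X j) ^ e j`, `SS e X J z = ∑_{j ∈ J} e j / (z - X j)` its
logarithmic derivative.
-/

set_option autoImplicit false

open Filter Topology MeasureTheory

namespace Pool.Agent.N229.RL

variable {N : ℕ}

/-- `a ∏_{j ∈ J} (z - X j) ^ e j` -/
noncomputable def gg (a : ℂ) (e : Fin N → ℤ) (X : Fin N → ℂ) (J : Finset (Fin N)) (z : ℂ) : ℂ :=
  a * ∏ j ∈ J, (z - X j) ^ e j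

/-- `∑_{j ∈ J} e j / (z - X j)` -/
noncomputable def SS (e : Fin N → ℤ) (X : Fin N → ℂ) (J : Finset (Fin N)) (z : ℂ) : ℂ :=
  ∑ j ∈ J, (e j : ℂ) / (z - X j)

/-- the derivative of `SS` -/
noncomputable def SS' (e : Fin N → ℤ) (X : Fin N → ℂ) (J : Finset (Fin N)) (z : ℂ) : ℂ :=
  ∑ j ∈ J, -((e j : ℂ) / (z - X j) ^ 2)

theorem gg_ne_zero {a : ℂ} {e : Fin N → ℤ} {X : Fin N → ℂ} {J : Finset (Fin N)} {z : ℂ}
    (ha : a ≠ 0) (hz : ∀ j ∈ J, z ≠ X j) : gg a e X J z ≠ 0 := by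
  unfold gg
  refine mul_ne_zero ha (Finset.prod_ne_zero_iff.2 fun j hj => ?_)
  exact zpow_ne_zero _ (sub_ne_zero.2 (hz j hj))

theorem log_norm_gg {a : ℂ} {e : Fin N → ℤ} {X : Fin N → ℂ} {J : Finset (Fin N)} {z : ℂ}
    (ha : a ≠ 0) (hz : ∀ j ∈ J, z ≠ X j) :
    Real.log ‖gg a e X J z‖ = Real.log ‖a‖ + ∑ j ∈ J, (e j : ℝ) * Real.log ‖z - X j‖ := by
  unfold gg
  rw [norm_mul, Real.log_mul (norm_ne_zero_iff.2 ha), norm_prod, Real.log_prod]
  · congr 1
    refine Finset.sum_congr rfl fun j _ => ?_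
    rw [norm_zpow, Real.log_zpow]
  · intro j hj
    exact norm_ne_zero_iff.2 (zpow_ne_zero _ (sub_ne_zero.2 (hz j hj)))
  · rw [norm_ne_zero_iff]
    refine Finset.prod_ne_zero_iff.2 fun j hj => ?_
    exact zpow_ne_zero _ (sub_ne_zero.2 (hz j hj))

theorem hasDerivAt_gg {a : ℂ} {e : Fin N → ℤ} {X : Fin N → ℂ} {J : Finset (Fin N)} {z : ℂ}
    (hz : ∀ j ∈ J, z ≠ X j) : HasDerivAt (gg a e X J) (gg a e X J z * SS e X J z) z := by
  classical
  unfold gg SS
  induction J using Finset.induction_on with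
  | empty => simpa using hasDerivAt_const z a
  | insert i J hi ih =>
    have h1 := ih fun j hj => hz j (Finset.mem_insert_of_mem hj)
    have h2 : z - X i ≠ 0 := sub_ne_zero.2 (hz i (Finset.mem_insert_self _ _))
    have h3 : HasDerivAt (fun y : ℂ => (y - X i) ^ e i) ((e i : ℂ) * (z - X i) ^ (e i - 1)) z := by
      have := (hasDerivAt_zpow (e i) (z - X i) (Or.inl h2)).comp z ((hasDerivAt_id z).sub_const (X i))
      simpa [Function.comp_def] using this
    have h4 := h3.mul h1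
    have h5 : (fun y : ℂ => a * ∏ j ∈ insert i J, (y - X j) ^ e j) =
        fun y : ℂ => (y - X i) ^ e i * (a * ∏ j ∈ J, (y - X j) ^ e j) := by
      funext y
      rw [Finset.prod_insert hi]
      ring
    rw [h5]
    refine h4.congr_deriv ?_
    rw [Finset.prod_insert hi, Finset.sum_insert hi, zpow_sub_one₀ h2]
    field_simp

theorem hasDerivAt_SS {e : Fin N → ℤ} {X : Fin N → ℂ} {J : Finset (Fin N)} {z : ℂ}
    (hz : ∀ j ∈ J, z ≠ X j) : HasDerivAt (SS e X J) (SS' e X J z) z := by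
  unfold SS SS'
  refine HasDerivAt.fun_sum fun j hj => ?_
  have h2 : z - X j ≠ 0 := sub_ne_zero.2 (hz j hj)
  have h3 := ((hasDerivAt_id z).sub_const (X j)).inv h2
  have h4 := h3.const_mul (e j : ℂ)
  refine (h4.congr_deriv ?_).congr_of_eventuallyEq (Eventually.of_forall fun y => ?_)
  · simp only [id]
    field_simp
  · simp only [id, div_eq_mul_inv, Pi.inv_apply]

end Pool.Agent.N229.RL
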