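import Pool.Agent.Y333.TY.MultA
import Pool.Agent.N229.RL.Def

/-!
# Area estimates
-/

set_option autoImplicit false

open Filter Topology MeasureTheory Set

namespace Pool.Agent.N229.RL

open Pool.Agent.Y333.TY.MultX

/-- `F z = z + σ / S z` -/
noncomputable def FF (σ : ℤ) (S : ℂ → ℂ) (z : ℂ) : ℂ := z + (σ : ℂ) / S z

/-- `V z = - σ g z (S z) ^ (-σ)` -/
noncomputable def VV (σ : ℤ) (g S : ℂ → ℂ) (z : ℂ) : ℂ := -(σ : ℂ) * g z * S z ^ (-σ)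

/-- the derivative of `FF` -/
noncomputable def FF' (σ : ℤ) (S S' : ℂ → ℂ) (z : ℂ) : ℂ := 1 - (σ : ℂ) * S' z / S z ^ 2

theorem hasDerivAt_FF {σ : ℤ} {S S' : ℂ → ℂ} {z : ℂ} (hS : HasDerivAt S (S' z) z) (h0 : S z ≠ 0) :
    HasDerivAt (FF σ S) (FF' σ S S' z) z := by
  unfold FF FF'
  have h := (hasDerivAt_id z).add ((hS.inv h0).const_mul (σ : ℂ))
  refine (h.congr_deriv ?_).congr_of_eventuallyEq (Eventually.of_forall fun y => ?_)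
  · field_simp
    ring
  · simp [div_eq_mul_inv]

theorem hasDerivAt_VV {σ : ℤ} {g S S' : ℂ → ℂ} {z : ℂ} (hg : HasDerivAt g (g z * S z) z)
    (hS : HasDerivAt S (S' z) z) (h0 : S z ≠ 0) :
    HasDerivAt (VV σ g S) (VV σ g S z * S z * FF' σ S S' z) z := by
  unfold VV FF'
  have h1 : HasDerivAt (fun y => S y ^ (-σ)) (((-σ : ℤ) : ℂ) * S z ^ (-σ - 1) * S' z) z :=
    (hasDerivAt_zpow (-σ) (S z) (Or.inl h0)).comp z hS
  have h2 := (hg.mul h1).const_mul (-(σ : ℂ))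
  refine (h2.congr_deriv ?_).congr_of_eventuallyEq (Eventually.of_forall fun y => ?_)
  · rw [zpow_sub_one₀ h0]
    push_cast
    field_simp
    ring
  · simp [mul_assoc]

theorem hasDerivAt_HH {σ : ℤ} {g S S' : ℂ → ℂ} {z : ℂ} (hg : HasDerivAt g (g z * S z) z)
    (hS : HasDerivAt S (S' z) z) (h0 : S z ≠ 0) :
    HasDerivAt (fun y => VV σ g S y - FF σ S y) ((VV σ g S z * S z - 1) * FF' σ S S' z) z := by
  have h := (hasDerivAt_VV (σ := σ) hg hS h0).sub (hasDerivAt_FF (σ := σ) hS h0)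
  exact h.congr_deriv (by ring)

theorem norm_sign {σ : ℤ} (hσ : σ = 1 ∨ σ = -1) : ‖(σ : ℂ)‖ = 1 := by
  rcases hσ with rfl | rfl <;> simp

theorem norm_sub_FF {σ : ℤ} (hσ : σ = 1 ∨ σ = -1) (S : ℂ → ℂ) (z : ℂ) :
    ‖z - FF σ S z‖ = ‖S z‖⁻¹ := by
  have : z - FF σ S z = -((σ : ℂ) / S z) := by unfold FF; ring
  rw [this, norm_neg, norm_div, norm_sign hσ, one_div]

theorem VV_ne_zero {σ : ℤ} (hσ : σ = 1 ∨ σ = -1) {g S : ℂ → ℂ} {z : ℂ} (hg : g z ≠ 0)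
    (h0 : S z ≠ 0) : VV σ g S z ≠ 0 := by
  unfold VV
  refine mul_ne_zero (mul_ne_zero ?_ hg) (zpow_ne_zero _ h0)
  rcases hσ with rfl | rfl <;> simp

/-- the area of the image under a holomorphic map -/
theorem area_image {A : Set ℂ} {F F' : ℂ → ℂ} (hA : MeasurableSet A)
    (hF : ∀ z ∈ A, HasDerivAt F (F' z) z) :
    volume (F '' A) ≤ ∫⁻ z in A, ENNReal.ofReal (‖F' z‖ ^ 2) := by
  have h := addHaar_image_le_lintegral_abs_det_fderiv (volume : Measure ℂ) hA (f := F)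
    (f' := fun z => (F' z) • (ContinuousLinearMap.id ℝ ℂ)) (fun z hz => by
      have h2 := (hF z hz).complexToReal_fderiv
      refine (h2.congr_fderiv ?_).hasFDerivWithinAt
      ext <;> simp)
  refine h.trans (le_of_eq ?_)
  refine lintegral_congr fun z => ?_
  rw [mult_det, abs_of_nonneg (by positivity)]

theorem area_F {Ω A B : Set ℂ} (hΩ : IsOpen Ω) (hA : MeasurableSet A) (hAΩ : A ⊆ Ω)
    (hB : MeasurableSet B) {g S S' : ℂ → ℂ} (hg : ∀ z ∈ Ω, HasDerivAt g (g z * S z) z)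
    (hS : ∀ z ∈ Ω, HasDerivAt S (S' z) z) (h0 : ∀ z ∈ Ω, g z ≠ 0 ∧ S z ≠ 0) {σ : ℤ}
    (hσ : σ = 1 ∨ σ = -1) {r : ℝ} (hr : ∀ z ∈ A, ‖z - FF σ S z‖ ≤ r)
    (hVB : ∀ z ∈ A, VV σ g S z ∈ B) (m : ℕ)
    (hm : ∀ w, Set.encard {z : ℂ | z ∈ A ∧ VV σ g S z = w} ≤ m) :
    volume (FF σ S '' A) ≤
      ENNReal.ofReal (r ^ 2) * ((∫⁻ w in B, ENNReal.ofReal ((‖w‖ ^ 2)⁻¹)) * m) := by
  have h1 := area_image hA (F := FF σ S) (F' := FF' σ S S')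
    (fun z hz => hasDerivAt_FF (hS z (hAΩ hz)) (h0 z (hAΩ hz)).2)
  refine h1.trans ?_
  have hd : DifferentiableOn ℂ (VV σ g S) Ω := fun z hz =>
    (hasDerivAt_VV (hg z hz) (hS z hz) (h0 z hz).2).differentiableAt.differentiableWithinAt
  have h2 := area_mult (VV σ g S) hΩ hd hA hAΩ m hm
    (B.indicator fun w => ENNReal.ofReal ((‖w‖ ^ 2)⁻¹))
    ((by fun_prop : Measurable fun w : ℂ => ENNReal.ofReal ((‖w‖ ^ 2)⁻¹)).indicator hB)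
  rw [lintegral_indicator hB] at h2
  refine le_trans ?_ (mul_le_mul_right h2 (ENNReal.ofReal (r ^ 2)))
  rw [← lintegral_const_mul' _ _ ENNReal.ofReal_ne_top]
  refine setLIntegral_mono' hA fun z hz => ?_
  have hzΩ := hAΩ hz
  rw [(hasDerivAt_VV (σ := σ) (hg z hzΩ) (hS z hzΩ) (h0 z hzΩ).2).deriv,
    Set.indicator_of_mem (hVB z hz), ← ENNReal.ofReal_mul (by positivity),
    ← ENNReal.ofReal_mul (by positivity)]
  refine ENNReal.ofReal_le_ofReal ?_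
  have hV0 : 0 < ‖VV σ g S z‖ := norm_pos_iff.2 (VV_ne_zero hσ (h0 z hzΩ).1 (h0 z hzΩ).2)
  have hS0 : 0 < ‖S z‖ := norm_pos_iff.2 (h0 z hzΩ).2
  have hr' := hr z hz
  rw [norm_sub_FF hσ] at hr'
  have h3 : 1 ≤ r * ‖S z‖ := by
    rw [inv_le_iff_one_le_mul₀ hS0] at hr'
    linarith
  rw [norm_mul, norm_mul]
  have h4 : r ^ 2 * ((‖VV σ g S z‖ * ‖S z‖ * ‖FF' σ S S' z‖) ^ 2 * (‖VV σ g S z‖ ^ 2)⁻¹) =
      (r * ‖S z‖) ^ 2 * ‖FF' σ S S' z‖ ^ 2 := by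
    field_simp
  rw [h4]
  have h5 : (1 : ℝ) ≤ (r * ‖S z‖) ^ 2 := by nlinarith
  nlinarith [sq_nonneg ‖FF' σ S S' z‖]

theorem area_H {Ω A : Set ℂ} (hΩ : IsOpen Ω) (hA : MeasurableSet A) (hAΩ : A ⊆ Ω)
    {g S S' : ℂ → ℂ} (hg : ∀ z ∈ Ω, HasDerivAt g (g z * S z) z)
    (hS : ∀ z ∈ Ω, HasDerivAt S (S' z) z) (h0 : ∀ z ∈ Ω, g z ≠ 0 ∧ S z ≠ 0) {σ : ℤ}
    {η : ℝ} (hη : 0 ≤ η) (hVF : ∀ z ∈ A, ‖VV σ g S z - FF σ S z‖ ≤ η)
    (h1 : ∀ z ∈ A, 1 ≤ ‖VV σ g S z * S z - 1‖) (m : ℕ)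
    (hm : ∀ w, Set.encard {z : ℂ | z ∈ A ∧ VV σ g S z - FF σ S z = w} ≤ m) :
    volume (FF σ S '' A) ≤ ENNReal.ofReal (Real.pi * η ^ 2) * m := by
  have h2 := area_image hA (F := FF σ S) (F' := FF' σ S S')
    (fun z hz => hasDerivAt_FF (hS z (hAΩ hz)) (h0 z (hAΩ hz)).2)
  refine h2.trans ?_
  have hd : DifferentiableOn ℂ (fun y => VV σ g S y - FF σ S y) Ω := fun z hz =>
    (hasDerivAt_HH (hg z hz) (hS z hz) (h0 z hz).2).differentiableAt.differentiableWithinAt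
  have h3 := area_mult (fun y => VV σ g S y - FF σ S y) hΩ hd hA hAΩ m hm
    ((Metric.closedBall (0 : ℂ) η).indicator 1)
    (measurable_one.indicator Metric.isClosed_closedBall.measurableSet)
  rw [lintegral_indicator_one Metric.isClosed_closedBall.measurableSet, Complex.volume_closedBall]
    at h3
  have h4 : ENNReal.ofReal η ^ 2 * (NNReal.pi : ENNReal) = ENNReal.ofReal (Real.pi * η ^ 2) := by
    rw [mul_comm Real.pi, ENNReal.ofReal_mul (by positivity), ENNReal.ofReal_pow hη]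
    congr 1
    exact (ENNReal.ofReal_coe_nnreal (p := NNReal.pi)).symm
  rw [h4] at h3
  refine le_trans ?_ h3
  refine setLIntegral_mono' hA fun z hz => ?_
  have hzΩ := hAΩ hz
  have hb : VV σ g S z - FF σ S z ∈ Metric.closedBall (0 : ℂ) η := by
    rw [mem_closedBall_zero_iff]
    exact hVF z hz
  rw [(hasDerivAt_HH (σ := σ) (hg z hzΩ) (hS z hzΩ) (h0 z hzΩ).2).deriv,
    Set.indicator_of_mem hb, Pi.one_apply, mul_one]
  refine ENNReal.ofReal_le_ofReal ?_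
  rw [norm_mul, mul_pow]
  have h5 : (1 : ℝ) ≤ ‖VV σ g S z * S z - 1‖ ^ 2 := by nlinarith [h1 z hz]
  nlinarith [sq_nonneg ‖FF' σ S S' z‖]

theorem area_g {Ω A : Set ℂ} (hΩ : IsOpen Ω) (hA : MeasurableSet A) (hAΩ : A ⊆ Ω)
    {g S : ℂ → ℂ} (hg : ∀ z ∈ Ω, HasDerivAt g (g z * S z) z) {r₁ r₂ s : ℝ} (hr₁ : 0 < r₁)
    (hr : r₁ ≤ r₂) (hs : 0 ≤ s) (h1 : ∀ z ∈ A, r₁ ≤ ‖g z‖ ∧ ‖g z‖ ≤ r₂)
    (h2 : ∀ z ∈ A, s ≤ ‖S z‖) (m : ℕ)
    (hm : ∀ w, Set.encard {z : ℂ | z ∈ A ∧ g z = w} ≤ m) :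
    ENNReal.ofReal (s ^ 2) * volume A ≤
      ENNReal.ofReal (2 * Real.pi * Real.log (r₂ / r₁)) * m := by
  have hd : DifferentiableOn ℂ g Ω := fun z hz =>
    (hg z hz).differentiableAt.differentiableWithinAt
  have h3 := area_mult g hΩ hd hA hAΩ m hm
    ((Rg r₁ r₂).indicator fun w => ENNReal.ofReal ((‖w‖ ^ 2)⁻¹))
    ((by fun_prop : Measurable fun w : ℂ => ENNReal.ofReal ((‖w‖ ^ 2)⁻¹)).indicator (Rg_meas _ _))
  rw [ring_int hr₁ hr] at h3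
  refine le_trans ?_ h3
  rw [← setLIntegral_const]
  refine setLIntegral_mono' hA fun z hz => ?_
  have hzΩ := hAΩ hz
  rw [(hg z hzΩ).deriv, Set.indicator_of_mem (show g z ∈ Rg r₁ r₂ from h1 z hz),
    ← ENNReal.ofReal_mul (by positivity)]
  refine ENNReal.ofReal_le_ofReal ?_
  have hg0 : 0 < ‖g z‖ := hr₁.trans_le (h1 z hz).1
  rw [norm_mul]
  have h4 : (‖g z‖ * ‖S z‖) ^ 2 * (‖g z‖ ^ 2)⁻¹ = ‖S z‖ ^ 2 := by field_simp
  rw [h4]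
  exact pow_le_pow_left₀ hs (h2 z hz) 2

end Pool.Agent.N229.RL
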