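import Pool.Agent.N229.RL.Det
import Pool.Agent.N229.RL.Area

/-!
# The window of the values
-/

set_option autoImplicit false

open Filter Topology MeasureTheory Set

namespace Pool.Agent.N229.RL

open Pool.Agent.Y333.TY.MultX

variable {N : ℕ}

theorem det_main {R B κ Rp δ : ℝ} (hκ : 0 < κ) (hR : 0 ≤ R) (hRp : 0 ≤ Rp)
    (hB : 2 * Rp + 2 + R ≤ B) (hδ : 0 < δ) :
    ∀ᶠ N : ℕ in atTop, ∀ (μ : Fin N → Measure ℂ) (e : Fin N → ℤ) (a : ℂ) (X : Fin N → ℂ)
      (J : Finset (Fin N)) (z : ℂ), (∀ i, e i = 1 ∨ e i = -1) → a ≠ 0 → (∀ j ∈ J, ‖X j‖ ≤ R) →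
      X ∉ NetBad μ e a B κ Rp → (Finset.univ \ J).card ≤ 1 → Reg μ e a κ Rp δ → ‖z‖ ≤ Rp →
      (∀ j ∈ J, ((N : ℝ) ^ 4)⁻¹ ≤ ‖z - X j‖) → |Real.log ‖gg a e X J z‖| ≤ κ * N / 2 →
      δ / 2 < ‖z‖ ∧ ((∃ j ∈ J, ‖z - X j‖ < KK κ * Real.log N / N) ∨
        κ * N / 2 ≤ ‖SS e X J z‖) := by
  filter_upwards [det_log hκ hR hRp hB, det_cauchy hκ hR hRp hB, eventually_ge_atTop 4,
    ev_log (2 / δ) 0] with N h1 h2 hN h3 μ e a X J z he ha hX hbad hJ hReg hz hzX hlog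
  rw [pow_zero, mul_one] at h3
  have hN4 : (4 : ℝ) ≤ N := by exact_mod_cast hN
  have hN0 : (0 : ℝ) < N := by linarith
  have hh : 0 < ((N : ℝ) ^ 9)⁻¹ := by positivity
  have hh1 : ((N : ℝ) ^ 9)⁻¹ ≤ 1 := inv_le_one_of_one_le₀ (one_le_pow₀ (by linarith))
  obtain ⟨z', hz', hzz'⟩ := net_near hh hz
  have h4 := h1 μ e a X J z z' he ha hX hbad hJ hz hzX hz' hzz'
  have hκN : 0 < κ * N := by positivity
  have h5 : ¬ κ * N ≤ |MU μ e a z'| := by
    intro h6
    have h7 : |MU μ e a z'| ≤ |Real.log ‖gg a e X J z‖| +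
        |Real.log ‖gg a e X J z‖ - MU μ e a z'| := by
      have : MU μ e a z' = Real.log ‖gg a e X J z‖ -
        (Real.log ‖gg a e X J z‖ - MU μ e a z') := by ring
      nth_rewrite 1 [this]
      exact abs_sub _ _
    linarith
  have hz'n : ‖z'‖ ≤ ‖z‖ + ((N : ℝ) ^ 9)⁻¹ := by
    have : z' = z - (z - z') := by ring
    rw [this]
    exact (norm_sub_le _ _).trans (by linarith)
  constructor
  · by_contra hcon
    rw [not_lt] at hcon
    refine h5 (hReg.zero z' ?_)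
    have h6 : ((N : ℝ) ^ 9)⁻¹ ≤ δ / 2 := by
      have h7 : ((N : ℝ) ^ 9)⁻¹ ≤ (N : ℝ)⁻¹ :=
        inv_anti₀ hN0 (le_self_pow₀ (by linarith) (by norm_num))
      refine h7.trans ?_
      rw [inv_le_comm₀ hN0 (by positivity), inv_div]
      exact h3
    linarith
  · by_cases h6 : ∃ j ∈ J, ‖z - X j‖ < KK κ * Real.log N / N
    · exact Or.inl h6
    · right
      push Not at h6
      have h7 := h2 μ e a X J z z' he hbad hJ h6 hz' hzz'
      have h8 : κ * N ≤ ‖MG μ e z'‖ := by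
        rcases hReg.reg z' (by linarith) with h9 | h9
        · exact absurd h9 h5
        · exact h9
      have h9 : ‖MG μ e z'‖ ≤ ‖SS e X J z‖ + ‖SS e X J z - MG μ e z'‖ := by
        have : MG μ e z' = SS e X J z - (SS e X J z - MG μ e z') := by ring
        nth_rewrite 1 [this]
        exact norm_sub_le _ _
      linarith

/-- all indices but `i` -/
def Jn (i : Fin N) : Finset (Fin N) := Finset.univ.erase i

theorem card_Jn (i : Fin N) : (Finset.univ \ Jn i).card ≤ 1 := by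
  unfold Jn
  have : Finset.univ \ Finset.univ.erase i = {i} := by
    ext j
    simp
  rw [this, Finset.card_singleton]

theorem measurable_gg {a : ℂ} {e : Fin N → ℤ} {X : Fin N → ℂ} {J : Finset (Fin N)}
    (he : ∀ i, e i = 1 ∨ e i = -1) : Measurable (gg a e X J) := by
  unfold gg
  refine (Finset.measurable_prod _ fun j _ => ?_).const_mul a
  rcases he j with h | h
  · simp only [h, zpow_one]
    fun_prop
  · simp only [h, zpow_neg, zpow_one]
    fun_prop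

theorem measurable_SS {e : Fin N → ℤ} {X : Fin N → ℂ} {J : Finset (Fin N)} :
    Measurable (SS e X J) := by
  unfold SS
  fun_prop

/-- the values `v` which are close to one of the points, or with `log ‖gg v‖` of logarithmic size -/
def B1 (A : ℕ) (Rp : ℝ) (X : Fin N → ℂ) (e : Fin N → ℤ) (a : ℂ) (i : Fin N) : Set ℂ :=
  {v | ((N : ℝ) ^ 4)⁻¹ ≤ ‖v‖ ∧ ‖v‖ ≤ Rp ∧ ((∃ j ∈ Jn i, ‖v - X j‖ ≤ ((N : ℝ) ^ 4)⁻¹) ∨
    ((∀ j ∈ Jn i, ((N : ℝ) ^ 4)⁻¹ ≤ ‖v - X j‖) ∧ ((N : ℝ) ^ A)⁻¹ ≤ ‖gg a e X (Jn i) v‖ ∧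
      ‖gg a e X (Jn i) v‖ ≤ (N : ℝ) ^ A))}

theorem measurable_B1 {A : ℕ} {Rp : ℝ} {X : Fin N → ℂ} {e : Fin N → ℤ} {a : ℂ} {i : Fin N}
    (he : ∀ i, e i = 1 ∨ e i = -1) : MeasurableSet (B1 A Rp X e a i) := by
  have hg : Measurable fun v => ‖gg a e X (Jn i) v‖ := (measurable_gg he).norm
  have h1 : MeasurableSet {v : ℂ | ∃ j ∈ Jn i, ‖v - X j‖ ≤ ((N : ℝ) ^ 4)⁻¹} := by
    have : {v : ℂ | ∃ j ∈ Jn i, ‖v - X j‖ ≤ ((N : ℝ) ^ 4)⁻¹} =
        ⋃ j ∈ Jn i, {v : ℂ | ‖v - X j‖ ≤ ((N : ℝ) ^ 4)⁻¹} := by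
      ext v
      simp
    rw [this]
    exact Finset.measurableSet_biUnion _ fun j _ => measurableSet_le (by fun_prop) measurable_const
  have h2 : MeasurableSet {v : ℂ | ∀ j ∈ Jn i, ((N : ℝ) ^ 4)⁻¹ ≤ ‖v - X j‖} := by
    have : {v : ℂ | ∀ j ∈ Jn i, ((N : ℝ) ^ 4)⁻¹ ≤ ‖v - X j‖} =
        ⋂ j ∈ Jn i, {v : ℂ | ((N : ℝ) ^ 4)⁻¹ ≤ ‖v - X j‖} := by
      ext v
      simp
    rw [this]
    exact Finset.measurableSet_biInter _ fun j _ => measurableSet_le measurable_const (by fun_prop)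
  exact (measurableSet_le measurable_const measurable_norm).inter
    ((measurableSet_le measurable_norm measurable_const).inter (h1.union
      (h2.inter ((measurableSet_le measurable_const hg).inter
        (measurableSet_le hg measurable_const)))))

theorem vol_ball_le (x : ℂ) {r : ℝ} (hr : 0 ≤ r) :
    volume (Metric.closedBall x r) ≤ ENNReal.ofReal (Real.pi * r ^ 2) := by
  rw [Complex.volume_closedBall, mul_comm Real.pi, ENNReal.ofReal_mul (by positivity),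
    ENNReal.ofReal_pow hr]
  exact le_of_eq (by
    congr 1
    exact (ENNReal.ofReal_coe_nnreal (p := NNReal.pi)).symm)

theorem vol_union_le (J : Finset (Fin N)) (X : Fin N → ℂ) {r : ℝ} (hr : 0 ≤ r) :
    volume (⋃ j ∈ J, Metric.closedBall (X j) r) ≤ ENNReal.ofReal (N * (Real.pi * r ^ 2)) := by
  refine (measure_biUnion_finset_le _ _).trans ?_
  refine (Finset.sum_le_sum fun j _ => vol_ball_le (X j) hr).trans ?_
  have h0 : ENNReal.ofReal (N * (Real.pi * r ^ 2)) =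
      (N : ENNReal) * ENNReal.ofReal (Real.pi * r ^ 2) := by
    rw [ENNReal.ofReal_mul (by positivity), ENNReal.ofReal_natCast]
  rw [Finset.sum_const, nsmul_eq_mul, h0]
  refine mul_le_mul_left ?_ _
  have := Finset.card_le_univ J
  rw [Fintype.card_fin] at this
  exact_mod_cast this

/-- integral of `‖v‖⁻²` over a set away from the origin -/
theorem int_le {P : Set ℂ} {r : ℝ} (hr : 0 < r) (hP : MeasurableSet P) (h : ∀ v ∈ P, r ≤ ‖v‖) :
    ∫⁻ v in P, ENNReal.ofReal ((‖v‖ ^ 2)⁻¹) ≤ ENNReal.ofReal ((r ^ 2)⁻¹) * volume P := by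
  rw [← setLIntegral_const]
  refine setLIntegral_mono' hP fun v hv => ENNReal.ofReal_le_ofReal ?_
  have := h v hv
  gcongr

theorem B1_log {R B κ Rp δ : ℝ} (A : ℕ) (hκ : 0 < κ) (hR : 0 ≤ R) (hRp : 0 ≤ Rp)
    (hB : 2 * Rp + 2 + R ≤ B) (hδ : 0 < δ) :
    ∃ C : ℝ, 0 < C ∧ ∀ᶠ N : ℕ in atTop, ∀ (μ : Fin N → Measure ℂ) (e : Fin N → ℤ) (a : ℂ)
      (X : Fin N → ℂ) (i : Fin N), (∀ i, e i = 1 ∨ e i = -1) → a ≠ 0 →
      (∀ j ∈ Jn i, ‖X j‖ ≤ R) → (∀ j ∈ Jn i, (N : ℝ)⁻¹ ≤ ‖X j‖) → X ∉ NetBad μ e a B κ Rp → Reg μ e a κ Rp δ →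
      (∀ w, Set.encard {z : ℂ | (∀ j ∈ Jn i, z ≠ X j) ∧ gg a e X (Jn i) z = w} ≤ (2 * N : ℕ)) →
      ∫⁻ v in B1 A Rp X e a i, ENNReal.ofReal ((‖v‖ ^ 2)⁻¹) ≤
        ENNReal.ofReal (C * Real.log N ^ 2 / N) := by
  have hpi := Real.pi_pos
  refine ⟨4 * Real.pi + 4 / δ ^ 2 * (Real.pi * KK κ ^ 2) + 4 / δ ^ 2 * (32 * Real.pi * A / κ ^ 2),
    by positivity, ?_⟩
  filter_upwards [det_main hκ hR hRp hB hδ, eventually_ge_atTop 4, ev_log (2 * A / κ) 1,
    ev_log_ge 1] with N h1 hN h2 h3 μ e a X i he ha hX hX0 hbad hReg hm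
  rw [pow_one] at h2
  have hN4 : (4 : ℝ) ≤ N := by exact_mod_cast hN
  have hN0 : (0 : ℝ) < N := by linarith
  have hlog : 0 < Real.log N := by linarith
  have hK0 : 0 < KK κ := by unfold KK; positivity
  set q : ℝ := ((N : ℝ) ^ 4)⁻¹ with hq
  have hq0 : 0 < q := by rw [hq]; positivity
  have hqN : q ≤ (2 * (N : ℝ))⁻¹ := by
    rw [hq]
    refine inv_anti₀ (by positivity) ?_
    calc 2 * (N : ℝ) ≤ N ^ 3 * N := by
          gcongr
          calc (2 : ℝ) ≤ N := by linarith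
            _ ≤ N ^ 3 := le_self_pow₀ (by linarith) (by norm_num)
      _ = (N : ℝ) ^ 4 := by ring
  -- the open set
  set Ω : Set ℂ := {z | ∀ j ∈ Jn i, z ≠ X j} with hΩ
  have hΩo : IsOpen Ω := by
    have : Ω = ⋂ j ∈ Jn i, {X j}ᶜ := by
      ext z
      simp [hΩ]
    rw [this]
    exact isOpen_biInter_finset fun j _ => isOpen_compl_singleton
  -- three parts
  set P1 : Set ℂ := {v | (2 * (N : ℝ))⁻¹ ≤ ‖v‖} ∩ ⋃ j ∈ Jn i, Metric.closedBall (X j) q with hP1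
  set P2 : Set ℂ := {v | δ / 2 ≤ ‖v‖} ∩
    ⋃ j ∈ Jn i, Metric.closedBall (X j) (KK κ * Real.log N / N) with hP2
  set P3 : Set ℂ := {v | δ / 2 ≤ ‖v‖} ∩ {v | v ∈ Ω ∧ (((N : ℝ) ^ A)⁻¹ ≤ ‖gg a e X (Jn i) v‖ ∧
      ‖gg a e X (Jn i) v‖ ≤ (N : ℝ) ^ A) ∧ κ * N / 2 ≤ ‖SS e X (Jn i) v‖} with hP3
  have hg : Measurable fun v => ‖gg a e X (Jn i) v‖ := (measurable_gg he).norm
  have hS : Measurable fun v => ‖SS e X (Jn i) v‖ := measurable_SS.norm
  have hm1 : MeasurableSet P1 := (measurableSet_le measurable_const measurable_norm).inter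
    (Finset.measurableSet_biUnion _ fun j _ => Metric.isClosed_closedBall.measurableSet)
  have hm2 : MeasurableSet P2 := (measurableSet_le measurable_const measurable_norm).inter
    (Finset.measurableSet_biUnion _ fun j _ => Metric.isClosed_closedBall.measurableSet)
  have hm3' : MeasurableSet {v | v ∈ Ω ∧ (((N : ℝ) ^ A)⁻¹ ≤ ‖gg a e X (Jn i) v‖ ∧
      ‖gg a e X (Jn i) v‖ ≤ (N : ℝ) ^ A) ∧ κ * N / 2 ≤ ‖SS e X (Jn i) v‖} :=
    hΩo.measurableSet.inter (((measurableSet_le measurable_const hg).inter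
      (measurableSet_le hg measurable_const)).inter (measurableSet_le measurable_const hS))
  have hm3 : MeasurableSet P3 :=
    (measurableSet_le measurable_const measurable_norm).inter hm3'
  have hcover : B1 A Rp X e a i ⊆ P1 ∪ (P2 ∪ P3) := by
    rintro v ⟨hv1, hv2, hv3⟩
    rcases hv3 with ⟨j, hj, hvj⟩ | ⟨hv3, hv4, hv5⟩
    · left
      refine ⟨?_, mem_iUnion₂.2 ⟨j, hj, by rw [mem_closedBall_iff_norm]; exact hvj⟩⟩
      have h4 := hX0 j hj
      have h5 : ‖X j‖ ≤ ‖v‖ + ‖v - X j‖ := by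
        have : X j = v - (v - X j) := by ring
        nth_rewrite 1 [this]
        exact norm_sub_le _ _
      have h6 : (N : ℝ)⁻¹ = 2 * (2 * (N : ℝ))⁻¹ := by field_simp
      simp only [mem_ofPred_eq]
      linarith
    · right
      have hvpos : ∀ j ∈ Jn i, v ≠ X j := fun j hj =>
        sub_ne_zero.1 (norm_pos_iff.1 (hq0.trans_le (hv3 j hj)))
      have hgpos : 0 < ‖gg a e X (Jn i) v‖ := norm_pos_iff.2 (gg_ne_zero ha hvpos)
      have hlogg : |Real.log ‖gg a e X (Jn i) v‖| ≤ κ * N / 2 := by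
        have h4 : |Real.log ‖gg a e X (Jn i) v‖| ≤ A * Real.log N := by
          rw [abs_le]
          constructor
          · have h5 := Real.log_le_log (by positivity) hv4
            rw [Real.log_inv, Real.log_pow] at h5
            exact h5
          · have h5 := Real.log_le_log hgpos hv5
            rwa [Real.log_pow] at h5
        rw [div_mul_eq_mul_div, div_le_iff₀ hκ] at h2
        linarith
      obtain ⟨h4, h5⟩ := h1 μ e a X (Jn i) v he ha hX hbad (card_Jn i) hReg hv2 hv3 hlogg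
      rcases h5 with ⟨j, hj, h5⟩ | h5
      · left
        exact ⟨h4.le, mem_iUnion₂.2 ⟨j, hj, by rw [mem_closedBall_iff_norm]; exact h5.le⟩⟩
      · right
        exact ⟨h4.le, hvpos, ⟨hv4, hv5⟩, h5⟩
  refine (lintegral_mono_set hcover).trans ((lintegral_union_le _ _ _).trans
    ((add_le_add_right (lintegral_union_le _ _ _) _).trans ?_))
  have i1 := int_le (r := (2 * (N : ℝ))⁻¹) (by positivity) hm1 fun v hv => hv.1
  have i2 := int_le (r := δ / 2) (by positivity) hm2 fun v hv => hv.1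
  have i3 := int_le (r := δ / 2) (by positivity) hm3 fun v hv => hv.1
  have j1 : volume P1 ≤ ENNReal.ofReal (N * (Real.pi * q ^ 2)) :=
    (measure_mono inter_subset_right).trans (vol_union_le _ _ hq0.le)
  have j2 : volume P2 ≤ ENNReal.ofReal (N * (Real.pi * (KK κ * Real.log N / N) ^ 2)) :=
    (measure_mono inter_subset_right).trans (vol_union_le _ _ (by positivity))
  have j3 : volume P3 ≤ ENNReal.ofReal (32 * Real.pi * A * Real.log N / (κ ^ 2 * N)) := by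
    refine (measure_mono inter_subset_right).trans ?_
    have h4 := area_g (Ω := Ω) hΩo hm3' (fun v hv => hv.1) (g := gg a e X (Jn i))
      (S := SS e X (Jn i)) (fun z hz => hasDerivAt_gg hz) (r₁ := ((N : ℝ) ^ A)⁻¹)
      (r₂ := (N : ℝ) ^ A) (s := κ * N / 2) (by positivity)
      (by
        have : (1 : ℝ) ≤ (N : ℝ) ^ A := one_le_pow₀ (by linarith)
        exact (inv_le_one_of_one_le₀ this).trans this) (by positivity)
      (fun v hv => hv.2.1) (fun v hv => hv.2.2) (2 * N) (fun w => by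
        refine (Set.encard_le_encard ?_).trans (hm w)
        rintro z ⟨hz1, hz2⟩
        exact ⟨hz1.1, hz2⟩)
    have h5 : Real.log ((N : ℝ) ^ A / ((N : ℝ) ^ A)⁻¹) = 2 * A * Real.log N := by
      rw [div_inv_eq_mul, Real.log_mul (by positivity) (by positivity), Real.log_pow]
      ring
    rw [h5] at h4
    have h6 : ENNReal.ofReal (2 * Real.pi * (2 * A * Real.log N)) * ((2 * N : ℕ) : ENNReal) =
        ENNReal.ofReal (2 * Real.pi * (2 * A * Real.log N) * (2 * N)) := by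
      rw [← ENNReal.ofReal_natCast, ← ENNReal.ofReal_mul (by positivity)]
      push_cast
      rfl
    rw [h6] at h4
    have h7 : 0 < (κ * N / 2) ^ 2 := by positivity
    have h8 : volume {v | v ∈ Ω ∧ (((N : ℝ) ^ A)⁻¹ ≤ ‖gg a e X (Jn i) v‖ ∧
        ‖gg a e X (Jn i) v‖ ≤ (N : ℝ) ^ A) ∧ κ * N / 2 ≤ ‖SS e X (Jn i) v‖} ≤
        ENNReal.ofReal (2 * Real.pi * (2 * A * Real.log N) * (2 * N)) /
          ENNReal.ofReal ((κ * N / 2) ^ 2) := by
      rw [ENNReal.le_div_iff_mul_le (Or.inl (ENNReal.ofReal_pos.mpr h7).ne')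
        (Or.inl ENNReal.ofReal_ne_top), mul_comm]
      exact h4
    refine h8.trans (le_of_eq ?_)
    rw [← ENNReal.ofReal_div_of_pos h7]
    congr 1
    field_simp
    ring
  have k1 : ∫⁻ v in P1, ENNReal.ofReal ((‖v‖ ^ 2)⁻¹) ≤
      ENNReal.ofReal (4 * Real.pi * Real.log N ^ 2 / N) := by
    refine i1.trans ((mul_le_mul_right j1 _).trans ?_)
    rw [← ENNReal.ofReal_mul (by positivity)]
    refine ENNReal.ofReal_le_ofReal ?_
    rw [hq]
    have : (((2 * (N : ℝ))⁻¹) ^ 2)⁻¹ * (N * (Real.pi * (((N : ℝ) ^ 4)⁻¹) ^ 2)) =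
        4 * Real.pi * (1 / (N : ℝ) ^ 4) / N := by
      field_simp
      ring
    rw [this]
    gcongr
    have h4 : 1 / (N : ℝ) ^ 4 ≤ 1 := by
      rw [div_le_one (by positivity)]
      exact one_le_pow₀ (by linarith)
    have h5 : (1 : ℝ) ≤ Real.log N ^ 2 := one_le_pow₀ h3
    linarith
  have k2 : ∫⁻ v in P2, ENNReal.ofReal ((‖v‖ ^ 2)⁻¹) ≤
      ENNReal.ofReal (4 / δ ^ 2 * (Real.pi * KK κ ^ 2) * Real.log N ^ 2 / N) := by
    refine i2.trans ((mul_le_mul_right j2 _).trans ?_)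
    rw [← ENNReal.ofReal_mul (by positivity)]
    refine ENNReal.ofReal_le_ofReal (le_of_eq ?_)
    field_simp
    ring
  have k3 : ∫⁻ v in P3, ENNReal.ofReal ((‖v‖ ^ 2)⁻¹) ≤
      ENNReal.ofReal (4 / δ ^ 2 * (32 * Real.pi * A / κ ^ 2) * Real.log N ^ 2 / N) := by
    refine i3.trans ((mul_le_mul_right j3 _).trans ?_)
    rw [← ENNReal.ofReal_mul (by positivity)]
    refine ENNReal.ofReal_le_ofReal ?_
    have : ((δ / 2) ^ 2)⁻¹ * (32 * Real.pi * A * Real.log N / (κ ^ 2 * N)) =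
        4 / δ ^ 2 * (32 * Real.pi * A / κ ^ 2) * Real.log N / N := by
      field_simp
      ring
    rw [this]
    gcongr
    nlinarith
  refine (add_le_add k1 (add_le_add k2 k3)).trans ?_
  rw [← ENNReal.ofReal_add (by positivity) (by positivity),
    ← ENNReal.ofReal_add (by positivity) (by positivity)]
  refine ENNReal.ofReal_le_ofReal (le_of_eq ?_)
  ring

end Pool.Agent.N229.RL
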