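import Mathlib

/-!
# An exponential inequality for sums of independent bounded variables
-/

set_option autoImplicit false

open Filter Topology MeasureTheory Set ProbabilityTheory

namespace Pool.Agent.N229.RL

variable {N : ℕ}

theorem mgf_coord (μ : Fin N → Measure ℂ) [∀ i, IsProbabilityMeasure (μ i)] (i : Fin N)
    {Y : ℂ → ℝ} (hY : Measurable Y) (t : ℝ) :
    mgf (fun X : Fin N → ℂ => Y (X i)) (Measure.pi μ) t = ∫ x, Real.exp (t * Y x) ∂μ i := by
  unfold mgf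
  have h := (measurePreserving_eval μ i).map_eq
  rw [← h, integral_map (measurable_pi_apply i).aemeasurable
    (by fun_prop : Measurable fun x : ℂ => Real.exp (t * Y x)).aestronglyMeasurable]

theorem factor_le {μ : Measure ℂ} [IsProbabilityMeasure μ] {Y : ℂ → ℝ} (hY : Measurable Y)
    {M M' s : ℝ} (hM : ∀ x, |Y x| ≤ M) (hM' : M ≤ M') (h0 : 0 < M')
    (hs : ∫ x, (Y x) ^ 2 ∂μ ≤ s) :
    ∫ x, Real.exp (M'⁻¹ * Y x) ∂μ ≤ Real.exp (M'⁻¹ * ∫ x, Y x ∂μ + s / M' ^ 2) := by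
  have hi1 : Integrable Y μ := Integrable.of_bound hY.aestronglyMeasurable M
    (Eventually.of_forall fun x => hM x)
  have hi2 : Integrable (fun x => (Y x) ^ 2) μ :=
    Integrable.of_bound (hY.pow_const 2).aestronglyMeasurable (M ^ 2)
      (Eventually.of_forall fun x => by
        rw [Real.norm_eq_abs, abs_pow]
        exact pow_le_pow_left₀ (abs_nonneg _) (hM x) 2)
  have hle : ∀ x, Real.exp (M'⁻¹ * Y x) ≤ 1 + M'⁻¹ * Y x + (M'⁻¹) ^ 2 * (Y x) ^ 2 := by
    intro x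
    have h1 : |M'⁻¹ * Y x| ≤ 1 := by
      rw [abs_mul, abs_of_pos (inv_pos.2 h0), inv_mul_le_iff₀ h0]
      linarith [hM x]
    have h2 := Real.abs_exp_sub_one_sub_id_le h1
    have h3 := (abs_le.1 h2).2
    nlinarith
  have h1 : ∫ x, Real.exp (M'⁻¹ * Y x) ∂μ ≤
      ∫ x, (1 + M'⁻¹ * Y x + (M'⁻¹) ^ 2 * (Y x) ^ 2) ∂μ := by
    refine integral_mono_of_nonneg (Eventually.of_forall fun x => (Real.exp_pos _).le) ?_
      (Eventually.of_forall hle)
    exact ((integrable_const 1).add (hi1.const_mul _)).add (hi2.const_mul _)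
  have h2 : ∫ x, (1 + M'⁻¹ * Y x + (M'⁻¹) ^ 2 * (Y x) ^ 2) ∂μ =
      1 + M'⁻¹ * ∫ x, Y x ∂μ + (M'⁻¹) ^ 2 * ∫ x, (Y x) ^ 2 ∂μ := by
    have e1 : Integrable (fun x => 1 + M'⁻¹ * Y x) μ := (integrable_const 1).add (hi1.const_mul _)
    rw [integral_add e1 (hi2.const_mul _),
      integral_add (integrable_const 1) (hi1.const_mul _), integral_const_mul, integral_const_mul]
    simp
  rw [h2] at h1
  refine h1.trans ?_
  have h3 := Real.add_one_le_exp (M'⁻¹ * ∫ x, Y x ∂μ + s / M' ^ 2)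
  have h4 : (M'⁻¹) ^ 2 * ∫ x, (Y x) ^ 2 ∂μ ≤ s / M' ^ 2 := by
    rw [div_eq_inv_mul, inv_pow]
    exact mul_le_mul_of_nonneg_left hs (by positivity)
  linarith

theorem chern (μ : Fin N → Measure ℂ) [∀ i, IsProbabilityMeasure (μ i)] {Y : Fin N → ℂ → ℝ}
    (hY : ∀ i, Measurable (Y i)) {M M' s t : ℝ} (hM : ∀ i x, |Y i x| ≤ M) (hM' : M ≤ M')
    (h0 : 0 < M') (hs : ∀ i, ∫ x, (Y i x) ^ 2 ∂μ i ≤ s) :
    Measure.pi μ {X | ∑ i, (∫ x, Y i x ∂μ i) + t ≤ ∑ i, Y i (X i)} ≤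
      ENNReal.ofReal (Real.exp (N * s / M' ^ 2 - t / M')) := by
  have hind : iIndepFun (fun i (X : Fin N → ℂ) => Y i (X i)) (Measure.pi μ) :=
    iIndepFun_pi fun i => (hY i).aemeasurable
  have hmeas : ∀ i, Measurable (fun X : Fin N → ℂ => Y i (X i)) := fun i =>
    (hY i).comp (measurable_pi_apply i)
  have hmgf := hind.mgf_sum (t := M'⁻¹) hmeas Finset.univ
  have hsum : (∑ i : Fin N, fun X : Fin N → ℂ => Y i (X i)) = fun X => ∑ i, Y i (X i) := by
    funext X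
    simp
  rw [hsum] at hmgf
  have hbd : ∀ X : Fin N → ℂ, |∑ i, Y i (X i)| ≤ N * M := by
    intro X
    refine (Finset.abs_sum_le_sum_abs _ _).trans ?_
    calc ∑ i, |Y i (X i)| ≤ ∑ _i : Fin N, M := Finset.sum_le_sum fun i _ => hM i _
      _ = N * M := by simp
  have hint : Integrable (fun X : Fin N → ℂ => Real.exp (M'⁻¹ * ∑ i, Y i (X i)))
      (Measure.pi μ) := by
    refine Integrable.of_bound (C := Real.exp (M'⁻¹ * (N * M))) ?_ (Eventually.of_forall fun X => ?_)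
    · exact (Real.measurable_exp.comp ((Finset.measurable_sum _ fun i _ =>
        hmeas i).const_mul _)).aestronglyMeasurable
    · rw [Real.norm_eq_abs, abs_of_pos (Real.exp_pos _)]
      refine Real.exp_le_exp.2 (mul_le_mul_of_nonneg_left ?_ (inv_pos.2 h0).le)
      exact (le_abs_self _).trans (hbd X)
  have h1 := measure_ge_le_exp_mul_mgf (μ := Measure.pi μ) (X := fun X => ∑ i, Y i (X i))
    (t := M'⁻¹) (∑ i, (∫ x, Y i x ∂μ i) + t) (inv_pos.2 h0).le hint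
  rw [hmgf] at h1
  have h2 : ∏ i : Fin N, mgf (fun X : Fin N → ℂ => Y i (X i)) (Measure.pi μ) M'⁻¹ ≤
      Real.exp (M'⁻¹ * ∑ i, (∫ x, Y i x ∂μ i) + N * s / M' ^ 2) := by
    calc ∏ i : Fin N, mgf (fun X : Fin N → ℂ => Y i (X i)) (Measure.pi μ) M'⁻¹
        ≤ ∏ i : Fin N, Real.exp (M'⁻¹ * ∫ x, Y i x ∂μ i + s / M' ^ 2) := by
          refine Finset.prod_le_prod (fun i _ => mgf_nonneg) fun i _ => ?_
          rw [mgf_coord μ i (hY i)]
          exact factor_le (hY i) (hM i) hM' h0 (hs i)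
      _ = Real.exp (M'⁻¹ * ∑ i, (∫ x, Y i x ∂μ i) + N * s / M' ^ 2) := by
          rw [← Real.exp_sum, Finset.sum_add_distrib, ← Finset.mul_sum]
          simp only [Finset.sum_const, Finset.card_univ, Fintype.card_fin, nsmul_eq_mul]
          congr 1
          ring
  have h3 : (Measure.pi μ).real {X | ∑ i, (∫ x, Y i x ∂μ i) + t ≤ ∑ i, Y i (X i)} ≤
      Real.exp (N * s / M' ^ 2 - t / M') := by
    refine h1.trans ((mul_le_mul_of_nonneg_left h2 (Real.exp_pos _).le).trans (le_of_eq ?_))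
    rw [← Real.exp_add]
    congr 1
    field_simp
    ring
  rw [← ofReal_measureReal]
  exact ENNReal.ofReal_le_ofReal h3

end Pool.Agent.N229.RL
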