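import Pool.Agent.N229.RL.Clos

/-!
# The probability of the bad configurations
-/

set_option autoImplicit false

open Filter Topology MeasureTheory Set

namespace Pool.Agent.N229.RL

variable {N : ℕ}

theorem eval_measure (μ : Fin N → Measure ℂ) [∀ m, IsProbabilityMeasure (μ m)] (j : Fin N)
    {S : Set ℂ} (hS : MeasurableSet S) : Measure.pi μ {X | X j ∈ S} = μ j S := by
  have h := (measurePreserving_eval μ j).measure_preimage hS.nullMeasurableSet
  exact h

theorem prob_base {D R : ℝ} (hD : 0 ≤ D) :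
    ∀ᶠ N : ℕ in atTop, ∀ (μ : Fin N → Measure ℂ), (∀ i, Dens (μ i) D R) →
      Measure.pi μ {X | ¬ Base R X} ≤ ENNReal.ofReal (2 * Real.pi * D / N) := by
  have hpi := Real.pi_pos
  filter_upwards [eventually_ge_atTop 4] with N hN μ hμ
  haveI : ∀ i, IsProbabilityMeasure (μ i) := fun i => (hμ i).prob
  have hN4 : (4 : ℝ) ≤ N := by exact_mod_cast hN
  have hN0 : (0 : ℝ) < N := by linarith
  set Q1 : Set (Fin N → ℂ) := ⋃ j, {X | X j ∈ (Metric.closedBall (0 : ℂ) R)ᶜ} with hQ1
  set Q2 : Set (Fin N → ℂ) := ⋃ j, {X | X j ∈ Metric.ball (0 : ℂ) (N : ℝ)⁻¹} with hQ2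
  set Q3 : Set (Fin N → ℂ) := ⋃ j, ⋃ k, {X | j ≠ k ∧ ‖X j - X k‖ < ((N : ℝ) ^ 2)⁻¹} with hQ3
  have hsub : {X : Fin N → ℂ | ¬ Base R X} ⊆ Q1 ∪ (Q2 ∪ Q3) := by
    intro X hX
    by_contra hcon
    refine hX ⟨fun j => ?_, fun j => ?_, fun j k hjk => ?_⟩
    · by_contra h
      refine hcon (Or.inl (mem_iUnion.2 ⟨j, ?_⟩))
      rw [mem_ofPred_eq, mem_compl_iff, mem_closedBall_zero_iff]
      exact h
    · by_contra h
      refine hcon (Or.inr (Or.inl (mem_iUnion.2 ⟨j, ?_⟩)))
      rw [mem_ofPred_eq, mem_ball_zero_iff]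
      exact not_le.1 h
    · by_contra h
      exact hcon (Or.inr (Or.inr (mem_iUnion₂.2 ⟨j, k, hjk, not_le.1 h⟩)))
  have h1 : Measure.pi μ Q1 = 0 := by
    refine measure_iUnion_null fun j => ?_
    rw [eval_measure μ j Metric.isClosed_closedBall.measurableSet.compl]
    exact (hμ j).supp
  have hvol : ∀ (x : ℂ) (r : ℝ), 0 ≤ r →
      volume (Metric.ball x r) ≤ ENNReal.ofReal (Real.pi * r ^ 2) := fun x r hr =>
    (measure_mono Metric.ball_subset_closedBall).trans (vol_ball_le x hr)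
  have h2 : Measure.pi μ Q2 ≤ ENNReal.ofReal (Real.pi * D / N) := by
    refine (measure_iUnion_le _).trans ?_
    rw [tsum_fintype]
    have h3 : ∀ j ∈ (Finset.univ : Finset (Fin N)),
        Measure.pi μ {X | X j ∈ Metric.ball (0 : ℂ) (N : ℝ)⁻¹} ≤
          ENNReal.ofReal (Real.pi * D / N ^ 2) := by
      intro j _
      rw [eval_measure μ j Metric.isOpen_ball.measurableSet]
      refine ((hμ j).dens' _).trans ((mul_le_mul_right (hvol 0 _ (by positivity)) _).trans ?_)
      rw [← ENNReal.ofReal_mul hD]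
      refine ENNReal.ofReal_le_ofReal (le_of_eq ?_)
      field_simp
    refine (Finset.sum_le_sum h3).trans ?_
    rw [Finset.sum_const, Finset.card_univ, Fintype.card_fin, nsmul_eq_mul,
      ← ENNReal.ofReal_natCast, ← ENNReal.ofReal_mul (by positivity)]
    refine ENNReal.ofReal_le_ofReal (le_of_eq ?_)
    field_simp
  have h3 : Measure.pi μ Q3 ≤ ENNReal.ofReal (Real.pi * D / N) := by
    refine (measure_iUnion_le _).trans ?_
    rw [tsum_fintype]
    have h4 : ∀ j ∈ (Finset.univ : Finset (Fin N)), Measure.pi μ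
        (⋃ k, {X | j ≠ k ∧ ‖X j - X k‖ < ((N : ℝ) ^ 2)⁻¹}) ≤
          ENNReal.ofReal (Real.pi * D / N ^ 3) := by
      intro j _
      refine (measure_iUnion_le _).trans ?_
      rw [tsum_fintype]
      have h5 : ∀ k ∈ (Finset.univ : Finset (Fin N)), Measure.pi μ
          {X | j ≠ k ∧ ‖X j - X k‖ < ((N : ℝ) ^ 2)⁻¹} ≤
            ENNReal.ofReal (Real.pi * D / N ^ 4) := by
        intro k _
        by_cases hjk : j = k
        · have : {X : Fin N → ℂ | j ≠ k ∧ ‖X j - X k‖ < ((N : ℝ) ^ 2)⁻¹} = ∅ := by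
            ext X
            simp [hjk]
          rw [this, measure_empty]
          exact zero_le
        · have hm : MeasurableSet {X : Fin N → ℂ | j ≠ k ∧ ‖X j - X k‖ < ((N : ℝ) ^ 2)⁻¹} := by
            have : {X : Fin N → ℂ | j ≠ k ∧ ‖X j - X k‖ < ((N : ℝ) ^ 2)⁻¹} =
                {X : Fin N → ℂ | ‖X j - X k‖ < ((N : ℝ) ^ 2)⁻¹} := by
              ext X
              simp [hjk]
            rw [this]
            exact measurableSet_lt (by fun_prop) measurable_const
          rw [resample μ hm j]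
          have h6 : ∀ X : Fin N → ℂ, μ j {x | Function.update X j x ∈
              {X : Fin N → ℂ | j ≠ k ∧ ‖X j - X k‖ < ((N : ℝ) ^ 2)⁻¹}} ≤
              ENNReal.ofReal (Real.pi * D / N ^ 4) := by
            intro X
            have h7 : {x | Function.update X j x ∈
                {X : Fin N → ℂ | j ≠ k ∧ ‖X j - X k‖ < ((N : ℝ) ^ 2)⁻¹}} ⊆
                Metric.ball (X k) ((N : ℝ) ^ 2)⁻¹ := by
              rintro x ⟨_, hx⟩
              rw [Function.update_self, Function.update_of_ne (Ne.symm hjk)] at hx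
              rw [mem_ball_iff_norm]
              exact hx
            refine (measure_mono h7).trans (((hμ j).dens' _).trans
              ((mul_le_mul_right (hvol _ _ (by positivity)) _).trans ?_))
            rw [← ENNReal.ofReal_mul hD]
            refine ENNReal.ofReal_le_ofReal (le_of_eq ?_)
            field_simp
          refine (lintegral_mono h6).trans ?_
          rw [lintegral_const, measure_univ, mul_one]
      refine (Finset.sum_le_sum h5).trans ?_
      rw [Finset.sum_const, Finset.card_univ, Fintype.card_fin, nsmul_eq_mul,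
        ← ENNReal.ofReal_natCast, ← ENNReal.ofReal_mul (by positivity)]
      refine ENNReal.ofReal_le_ofReal (le_of_eq ?_)
      field_simp
    refine (Finset.sum_le_sum h4).trans ?_
    rw [Finset.sum_const, Finset.card_univ, Fintype.card_fin, nsmul_eq_mul,
      ← ENNReal.ofReal_natCast, ← ENNReal.ofReal_mul (by positivity)]
    refine ENNReal.ofReal_le_ofReal ?_
    have : (N : ℝ) * (Real.pi * D / N ^ 3) = Real.pi * D / N ^ 2 := by field_simp
    rw [this]
    refine div_le_div_of_nonneg_left (by positivity) hN0 ?_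
    exact le_self_pow₀ (by linarith) (by norm_num)
  refine (measure_mono hsub).trans ((measure_union_le _ _).trans ?_)
  rw [h1, zero_add]
  refine (measure_union_le _ _).trans ((add_le_add h2 h3).trans ?_)
  rw [← ENNReal.ofReal_add (by positivity) (by positivity)]
  refine ENNReal.ofReal_le_ofReal (le_of_eq ?_)
  ring

/-- all bad configurations -/
def BadAll (μ : Fin N → Measure ℂ) (e : Fin N → ℤ) (a : ℂ) (A : ℕ) (R B κ Rp : ℝ) :
    Set (Fin N → ℂ) :=
  {X | ¬ Base R X} ∪ (NetBad μ e a B κ Rp ∪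
    ((⋃ i, E3 A R Rp κ e a i) ∪ ⋃ i, E4 R Rp κ e a i))

/-- from the sections to the event -/
theorem from_section (μ : Fin N → Measure ℂ) [∀ m, IsProbabilityMeasure (μ m)]
    {E Z : Set (Fin N → ℂ)} (hE : IsClosed E) (i : Fin N) {p : ℝ}
    (h : ∀ X, X ∉ Z → (∃ x, Function.update X i x ∈ E) →
      μ i {x | Function.update X i x ∈ E} ≤ ENNReal.ofReal p) :
    Measure.pi μ E ≤ ENNReal.ofReal p + Measure.pi μ Z := by
  classical
  rw [resample μ hE.measurableSet i]
  have h1 : ∀ X, μ i {x | Function.update X i x ∈ E} ≤ ENNReal.ofReal p + Z.indicator 1 X := by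
    intro X
    by_cases hX : X ∈ Z
    · rw [indicator_of_mem hX]
      exact (prob_le_one).trans le_add_self
    · rw [indicator_of_notMem hX, add_zero]
      by_cases h2 : ∃ x, Function.update X i x ∈ E
      · exact h X hX h2
      · have : {x | Function.update X i x ∈ E} = ∅ := by
          ext x
          simp only [mem_ofPred_eq, mem_empty_iff_false, iff_false]
          exact fun h3 => h2 ⟨x, h3⟩
        rw [this, measure_empty]
        exact zero_le
  refine (lintegral_mono h1).trans ?_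
  rw [lintegral_add_left measurable_const, lintegral_const, measure_univ, mul_one]
  exact add_le_add_right (lintegral_indicator_one_le _) _

theorem core_prob {R B κ Rp δ D : ℝ} (A : ℕ) (hκ : 0 < κ) (hR : 0 ≤ R) (hRp : 1 ≤ Rp)
    (hB : 2 * Rp + 2 + R ≤ B) (hδ : 0 < δ) (hD : 0 ≤ D) :
    ∃ C : ℝ, 0 < C ∧ ∀ᶠ N : ℕ in atTop, ∀ (μ : Fin N → Measure ℂ) (e : Fin N → ℤ) (a : ℂ),
      (∀ i, e i = 1 ∨ e i = -1) → a ≠ 0 → (∀ i, Dens (μ i) D R) → Reg μ e a κ Rp δ →
      (∀ X i, BaseI R X i → MultOK X e a i (2 * N)) →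
      Measure.pi μ (BadAll μ e a A R B κ Rp) ≤ ENNReal.ofReal (C * Real.log N ^ 4 / N) := by
  have hpi := Real.pi_pos
  obtain ⟨C, hC, hC'⟩ := sect3 A hκ hR (by linarith : 0 ≤ Rp) hB hδ hD
  refine ⟨C + 2 * Real.pi * D + 4, by positivity, ?_⟩
  filter_upwards [hC', sect4 hκ hR hRp hB hδ hD, prob_base hD (R := R),
    prob_net hD hκ hR (by linarith : 0 ≤ Rp) hB, eventually_ge_atTop 4, ev_log_ge 1] with
    N h3 h4 hb hn hN hl μ e a he ha hμ hReg hm
  haveI : ∀ i, IsProbabilityMeasure (μ i) := fun i => (hμ i).prob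
  have hN4 : (4 : ℝ) ≤ N := by exact_mod_cast hN
  have hN0 : (0 : ℝ) < N := by linarith
  have hb' := hb μ hμ
  have hn' := hn μ e a hμ he
  have k3 : ∀ i, Measure.pi μ (E3 A R Rp κ e a i) ≤
      ENNReal.ofReal (C * Real.log N ^ 4 / N ^ 2) + ENNReal.ofReal ((N : ℝ) ^ 4)⁻¹ := by
    intro i
    refine (from_section μ (closed_E3 A R Rp κ e a i) i (Z := NetBad μ e a B κ Rp)
      (fun X hX hx => ?_)).trans (add_le_add_right hn' _)
    obtain ⟨x, hx⟩ := hx
    have hbi : BaseI R X i := hx.1.baseI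
    exact h3 μ e a X i he ha (hμ i) hbi hX hReg (hm X i hbi)
  have k4 : ∀ i, Measure.pi μ (E4 R Rp κ e a i) ≤
      ENNReal.ofReal (1 / N ^ 3) + ENNReal.ofReal ((N : ℝ) ^ 4)⁻¹ := by
    intro i
    refine (from_section μ (closed_E4 R Rp κ e a i) i (Z := NetBad μ e a B κ Rp)
      (fun X hX hx => ?_)).trans (add_le_add_right hn' _)
    obtain ⟨x, hx⟩ := hx
    have hbi : BaseI R X i := hx.1.baseI
    exact h4 μ e a X i he ha (hμ i) hbi hX hReg (hm X i hbi)
  have l3 : Measure.pi μ (⋃ i, E3 A R Rp κ e a i) ≤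
      ENNReal.ofReal (N * (C * Real.log N ^ 4 / N ^ 2 + ((N : ℝ) ^ 4)⁻¹)) := by
    refine (measure_iUnion_le _).trans ?_
    rw [tsum_fintype]
    refine (Finset.sum_le_sum fun i _ => k3 i).trans ?_
    rw [Finset.sum_const, Finset.card_univ, Fintype.card_fin, nsmul_eq_mul,
      ← ENNReal.ofReal_add (by positivity) (by positivity),
      ← ENNReal.ofReal_natCast, ← ENNReal.ofReal_mul (by positivity)]
  have l4 : Measure.pi μ (⋃ i, E4 R Rp κ e a i) ≤
      ENNReal.ofReal (N * (1 / N ^ 3 + ((N : ℝ) ^ 4)⁻¹)) := by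
    refine (measure_iUnion_le _).trans ?_
    rw [tsum_fintype]
    refine (Finset.sum_le_sum fun i _ => k4 i).trans ?_
    rw [Finset.sum_const, Finset.card_univ, Fintype.card_fin, nsmul_eq_mul,
      ← ENNReal.ofReal_add (by positivity) (by positivity),
      ← ENNReal.ofReal_natCast, ← ENNReal.ofReal_mul (by positivity)]
  unfold BadAll
  refine (measure_union_le _ _).trans ((add_le_add hb' ((measure_union_le _ _).trans
    (add_le_add hn' ((measure_union_le _ _).trans (add_le_add l3 l4))))).trans ?_)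
  rw [← ENNReal.ofReal_add (by positivity) (by positivity),
    ← ENNReal.ofReal_add (by positivity) (by positivity),
    ← ENNReal.ofReal_add (by positivity) (by positivity)]
  refine ENNReal.ofReal_le_ofReal ?_
  have hl4 : (1 : ℝ) ≤ Real.log N ^ 4 := one_le_pow₀ hl
  have e1 : 2 * Real.pi * D / N + (((N : ℝ) ^ 4)⁻¹ +
      (N * (C * Real.log N ^ 4 / N ^ 2 + ((N : ℝ) ^ 4)⁻¹) + N * (1 / N ^ 3 + ((N : ℝ) ^ 4)⁻¹))) =
      (2 * Real.pi * D + C * Real.log N ^ 4 + (1 / (N : ℝ) ^ 3 + 1 / (N : ℝ) ^ 2 +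
        1 / (N : ℝ) + 1 / (N : ℝ) ^ 2)) / N := by
    field_simp
    ring
  rw [e1]
  have hN1 : (1 : ℝ) ≤ N := by linarith
  have f1 : 1 / (N : ℝ) ^ 3 ≤ 1 := by
    rw [div_le_one (by positivity)]; exact one_le_pow₀ hN1
  have f2 : 1 / (N : ℝ) ^ 2 ≤ 1 := by
    rw [div_le_one (by positivity)]; exact one_le_pow₀ hN1
  have f3 : 1 / (N : ℝ) ≤ 1 := by
    rw [div_le_one (by positivity)]; exact hN1
  gcongr
  nlinarith [mul_nonneg hpi.le hD]

end Pool.Agent.N229.RL
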