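import Pool.Agent.N229.RL.Prob

/-!
# Consequences of the laws of large numbers for a single configuration
-/

set_option autoImplicit false

open Filter Topology MeasureTheory Set

namespace Pool.Agent.N229.RL

variable {N : ℕ}

/-- zero is a regular value of the mean potential, and not its value near the origin -/
structure Reg (μ : Fin N → Measure ℂ) (e : Fin N → ℤ) (a : ℂ) (κ Rp δ : ℝ) : Prop where
  reg : ∀ z : ℂ, ‖z‖ ≤ Rp + 1 → κ * N ≤ |MU μ e a z| ∨ κ * N ≤ ‖MG μ e z‖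
  zero : ∀ z : ℂ, ‖z‖ ≤ δ → κ * N ≤ |MU μ e a z|

theorem sum_split (J : Finset (Fin N)) (f : Fin N → ℝ) :
    ∑ j, f j = ∑ j ∈ J, f j + ∑ j ∈ Finset.univ \ J, f j := by
  rw [add_comm, Finset.sum_sdiff (Finset.subset_univ J)]

theorem sum_splitC (J : Finset (Fin N)) (f : Fin N → ℂ) :
    ∑ j, f j = ∑ j ∈ J, f j + ∑ j ∈ Finset.univ \ J, f j := by
  rw [add_comm, Finset.sum_sdiff (Finset.subset_univ J)]

theorem det_log {R B κ Rp : ℝ} (hκ : 0 < κ) (hR : 0 ≤ R) (hRp : 0 ≤ Rp)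
    (hB : 2 * Rp + 2 + R ≤ B) :
    ∀ᶠ N : ℕ in atTop, ∀ (μ : Fin N → Measure ℂ) (e : Fin N → ℤ) (a : ℂ) (X : Fin N → ℂ)
      (J : Finset (Fin N)) (z z' : ℂ), (∀ i, e i = 1 ∨ e i = -1) → a ≠ 0 → (∀ j ∈ J, ‖X j‖ ≤ R) →
      X ∉ NetBad μ e a B κ Rp → (Finset.univ \ J).card ≤ 1 → ‖z‖ ≤ Rp →
      (∀ j ∈ J, ((N : ℝ) ^ 4)⁻¹ ≤ ‖z - X j‖) → z' ∈ net Rp ((N : ℝ) ^ 9)⁻¹ →
      ‖z - z'‖ ≤ ((N : ℝ) ^ 9)⁻¹ →
      |Real.log ‖gg a e X J z‖ - MU μ e a z'| ≤ κ * N / 4 := by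
  filter_upwards [eventually_ge_atTop 4, ev_log (64 / κ) 0, ev_log (80 / κ) 1,
    ev_log_ge (Real.log B), ev_log_ge 1] with
    N hN h1 h2 h3 h4 μ e a X J z z' he ha hX hbad hJ hz hzX hz' hzz'
  rw [pow_zero, mul_one] at h1
  rw [pow_one] at h2
  have hN4 : (4 : ℝ) ≤ N := by exact_mod_cast hN
  have hN0 : (0 : ℝ) < N := by linarith
  have hB1 : 1 ≤ B := by linarith
  have hT : 0 < T1 N := by unfold T1; positivity
  have hTB : T1 N ≤ B := by
    refine le_trans ?_ hB1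
    unfold T1
    refine inv_le_one_of_one_le₀ ?_
    have : (1 : ℝ) ≤ (N : ℝ) ^ 4 := one_le_pow₀ (by linarith)
    linarith
  have hL1 : -(5 * Real.log N) ≤ Real.log (T1 N) := by
    unfold T1
    rw [Real.log_inv, neg_le_neg_iff, Real.log_mul (by norm_num) (by positivity), Real.log_pow]
    have : Real.log 2 ≤ Real.log N := Real.log_le_log (by norm_num) (by linarith)
    push_cast
    linarith
  have hL2 : Real.log B ≤ 5 * Real.log N := by linarith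
  have hh9 : ((N : ℝ) ^ 9)⁻¹ ≤ 1 := inv_le_one_of_one_le₀ (one_le_pow₀ (by linarith))
  have hz'R : ‖z'‖ ≤ Rp + 1 := by
    have : z' = z - (z - z') := by ring
    rw [this]
    exact (norm_sub_le _ _).trans (by linarith)
  have hdist : ∀ j ∈ J, T1 N ≤ ‖z' - X j‖ := by
    intro j hj
    have h5 : ‖z - X j‖ ≤ ‖z' - X j‖ + ‖z - z'‖ := by
      have : z - X j = (z' - X j) + (z - z') := by ring
      rw [this]
      exact norm_add_le _ _
    have h6 := hzX j hj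
    have h7 : ((N : ℝ) ^ 9)⁻¹ ≤ T1 N := by
      unfold T1
      refine inv_anti₀ (by positivity) ?_
      calc 2 * (N : ℝ) ^ 4 ≤ N ^ 5 * (N : ℝ) ^ 4 := by
            gcongr
            calc (2 : ℝ) ≤ N := by linarith
              _ ≤ N ^ 5 := le_self_pow₀ (by linarith) (by norm_num)
        _ = (N : ℝ) ^ 9 := by ring
    have h8 : ((N : ℝ) ^ 4)⁻¹ = 2 * T1 N := by
      unfold T1
      field_simp
    linarith
  have hbdB : ∀ j ∈ J, ‖z' - X j‖ ≤ B := fun j hj =>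
    (norm_sub_le _ _).trans (by linarith [hX j hj])
  have hnb : |∑ i, (e i : ℝ) * lt (T1 N) B (z' - X i) - (MU μ e a z' - Real.log ‖a‖)| <
      κ * N / 8 := by
    by_contra hcon
    rw [not_lt] at hcon
    exact hbad ⟨z', hz', Or.inl hcon⟩
  have hrest : |∑ j ∈ Finset.univ \ J, (e j : ℝ) * lt (T1 N) B (z' - X j)| ≤ 5 * Real.log N := by
    refine (Finset.abs_sum_le_sum_abs _ _).trans ?_
    have h5 : ∀ j ∈ Finset.univ \ J, |(e j : ℝ) * lt (T1 N) B (z' - X j)| ≤ 5 * Real.log N := by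
      intro j _
      rw [abs_mul, sign_abs (he j), one_mul]
      exact abs_lt_le hT hTB hL1 hL2 _
    refine (Finset.sum_le_sum h5).trans ?_
    rw [Finset.sum_const, nsmul_eq_mul]
    have h6 : ((Finset.univ \ J).card : ℝ) ≤ 1 := by exact_mod_cast hJ
    have h7 : 0 ≤ 5 * Real.log N := by linarith
    nlinarith
  have hpos : ∀ j ∈ J, 0 < ‖z - X j‖ := fun j hj =>
    lt_of_lt_of_le (by positivity) (hzX j hj)
  have hne : ∀ j ∈ J, z ≠ X j := fun j hj => sub_ne_zero.1 (norm_pos_iff.1 (hpos j hj))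
  rw [log_norm_gg ha hne]
  have hcmp : |∑ j ∈ J, (e j : ℝ) * Real.log ‖z - X j‖ -
      ∑ j ∈ J, (e j : ℝ) * lt (T1 N) B (z' - X j)| ≤ 1 := by
    rw [← Finset.sum_sub_distrib]
    refine (Finset.abs_sum_le_sum_abs _ _).trans ?_
    have h5 : ∀ j ∈ J, |(e j : ℝ) * Real.log ‖z - X j‖ - (e j : ℝ) * lt (T1 N) B (z' - X j)| ≤
        3 * ((N : ℝ) ^ 5)⁻¹ := by
      intro j hj
      rw [← mul_sub, abs_mul, sign_abs (he j), one_mul, lt_eq (hdist j hj) (hbdB j hj)]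
      refine (abs_log_sub_le (hpos j hj) (hT.trans_le (hdist j hj))).trans ?_
      have h6 : |‖z - X j‖ - ‖z' - X j‖| ≤ ((N : ℝ) ^ 9)⁻¹ := by
        refine (abs_norm_sub_norm_le _ _).trans ?_
        have : z - X j - (z' - X j) = z - z' := by ring
        rw [this]
        exact hzz'
      have h7 : ‖z - X j‖⁻¹ ≤ (N : ℝ) ^ 4 := by
        rw [inv_le_comm₀ (hpos j hj) (by positivity)]
        exact hzX j hj
      have h8 : ‖z' - X j‖⁻¹ ≤ 2 * (N : ℝ) ^ 4 := by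
        rw [inv_le_comm₀ (hT.trans_le (hdist j hj)) (by positivity)]
        exact hdist j hj
      calc |‖z - X j‖ - ‖z' - X j‖| * (‖z - X j‖⁻¹ + ‖z' - X j‖⁻¹) ≤
            ((N : ℝ) ^ 9)⁻¹ * ((N : ℝ) ^ 4 + 2 * (N : ℝ) ^ 4) := by
            gcongr
        _ = 3 * ((N : ℝ) ^ 5)⁻¹ := by field_simp; ring
    refine (Finset.sum_le_sum h5).trans ?_
    rw [Finset.sum_const, nsmul_eq_mul]
    have h6 : (J.card : ℝ) ≤ N := by
      have := Finset.card_le_univ J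
      rw [Fintype.card_fin] at this
      exact_mod_cast this
    calc (J.card : ℝ) * (3 * ((N : ℝ) ^ 5)⁻¹) ≤ N * (3 * ((N : ℝ) ^ 5)⁻¹) := by gcongr
      _ = 3 / (N : ℝ) ^ 4 := by field_simp
      _ ≤ 1 := by
          rw [div_le_one (by positivity)]
          calc (3 : ℝ) ≤ N := by linarith
            _ ≤ (N : ℝ) ^ 4 := le_self_pow₀ (by linarith) (by norm_num)
  rw [sum_split J] at hnb
  rw [div_le_iff₀ hκ] at h1
  rw [div_mul_eq_mul_div, div_le_iff₀ hκ] at h2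
  rw [abs_le] at hcmp hrest ⊢
  rw [abs_lt] at hnb
  constructor <;> linarith [hnb.1, hnb.2, hcmp.1, hcmp.2, hrest.1, hrest.2]

theorem det_cauchy {R B κ Rp : ℝ} (hκ : 0 < κ) (hR : 0 ≤ R) (hRp : 0 ≤ Rp)
    (hB : 2 * Rp + 2 + R ≤ B) :
    ∀ᶠ N : ℕ in atTop, ∀ (μ : Fin N → Measure ℂ) (e : Fin N → ℤ) (a : ℂ) (X : Fin N → ℂ)
      (J : Finset (Fin N)) (z z' : ℂ), (∀ i, e i = 1 ∨ e i = -1) →
      X ∉ NetBad μ e a B κ Rp → (Finset.univ \ J).card ≤ 1 →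
      (∀ j ∈ J, KK κ * Real.log N / N ≤ ‖z - X j‖) → z' ∈ net Rp ((N : ℝ) ^ 9)⁻¹ →
      ‖z - z'‖ ≤ ((N : ℝ) ^ 9)⁻¹ →
      ‖SS e X J z - MG μ e z'‖ ≤ κ * N / 4 := by
  filter_upwards [eventually_ge_atTop 4, ev_log (32 / κ) 0, ev_log_ge (KK κ)⁻¹,
    ev_log_ge (32 / κ / KK κ), ev_log_ge 1] with
    N hN h1 h2 h3 h4 μ e a X J z z' he hbad hJ hzX hz' hzz'
  rw [pow_zero, mul_one] at h1
  have hK0 : 0 < KK κ := by unfold KK; positivity
  have hN4 : (4 : ℝ) ≤ N := by exact_mod_cast hN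
  have hN0 : (0 : ℝ) < N := by linarith
  have hlog : 0 < Real.log N := by linarith
  have hK1 : 1 ≤ KK κ * Real.log N := by
    rw [inv_le_iff_one_le_mul₀ hK0] at h2
    linarith
  have hT : 0 < T2 (KK κ) N := by unfold T2; positivity
  have hTe : KK κ * Real.log N / N = 2 * T2 (KK κ) N := by
    unfold T2
    field_simp
  have hTN : ((N : ℝ) * 2)⁻¹ ≤ T2 (KK κ) N := by
    unfold T2
    rw [inv_eq_one_div, mul_comm (N : ℝ) 2]
    gcongr
  have h7 : ((N : ℝ) ^ 9)⁻¹ ≤ T2 (KK κ) N := by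
    refine le_trans ?_ hTN
    refine inv_anti₀ (by positivity) ?_
    calc (N : ℝ) * 2 ≤ N * N ^ 8 := by
          gcongr
          calc (2 : ℝ) ≤ N := by linarith
            _ ≤ N ^ 8 := le_self_pow₀ (by linarith) (by norm_num)
      _ = (N : ℝ) ^ 9 := by ring
  have hdist : ∀ j ∈ J, T2 (KK κ) N ≤ ‖z' - X j‖ := by
    intro j hj
    have h5 : ‖z - X j‖ ≤ ‖z' - X j‖ + ‖z - z'‖ := by
      have : z - X j = (z' - X j) + (z - z') := by ring
      rw [this]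
      exact norm_add_le _ _
    have h6 := hzX j hj
    linarith
  have hnb : ‖∑ i, (e i : ℂ) * ht (T2 (KK κ) N) (z' - X i) - MG μ e z'‖ < κ * N / 8 := by
    by_contra hcon
    rw [not_lt] at hcon
    exact hbad ⟨z', hz', Or.inr hcon⟩
  have hsign : ∀ j, ‖((e j : ℤ) : ℂ)‖ = 1 := fun j => by
    rcases he j with h | h <;> simp [h]
  have hrest : ‖∑ j ∈ Finset.univ \ J, (e j : ℂ) * ht (T2 (KK κ) N) (z' - X j)‖ ≤
      κ * N / 16 := by
    refine (norm_sum_le _ _).trans ?_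
    have h5 : ∀ j ∈ Finset.univ \ J, ‖(e j : ℂ) * ht (T2 (KK κ) N) (z' - X j)‖ ≤
        (T2 (KK κ) N)⁻¹ := by
      intro j _
      rw [norm_mul, hsign, one_mul]
      exact norm_ht_le hT _
    refine (Finset.sum_le_sum h5).trans ?_
    rw [Finset.sum_const, nsmul_eq_mul]
    have h6 : ((Finset.univ \ J).card : ℝ) ≤ 1 := by exact_mod_cast hJ
    have h8 : (T2 (KK κ) N)⁻¹ ≤ κ * N / 16 := by
      unfold T2
      rw [inv_div, div_le_iff₀ (by positivity)]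
      rw [div_div, div_le_iff₀ (by positivity)] at h3
      nlinarith
    have h9 : 0 < (T2 (KK κ) N)⁻¹ := by positivity
    nlinarith
  have hcmp : ‖SS e X J z - ∑ j ∈ J, (e j : ℂ) * ht (T2 (KK κ) N) (z' - X j)‖ ≤ 1 := by
    unfold SS
    rw [← Finset.sum_sub_distrib]
    refine (norm_sum_le _ _).trans ?_
    have h5 : ∀ j ∈ J, ‖(e j : ℂ) / (z - X j) - (e j : ℂ) * ht (T2 (KK κ) N) (z' - X j)‖ ≤
        2 * ((N : ℝ) ^ 7)⁻¹ := by
      intro j hj
      rw [ht_eq (hdist j hj), div_eq_mul_inv, ← mul_sub, norm_mul, hsign, one_mul]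
      have hp1 : 0 < ‖z - X j‖ := lt_of_lt_of_le (by rw [hTe]; positivity) (hzX j hj)
      have hp2 : 0 < ‖z' - X j‖ := hT.trans_le (hdist j hj)
      have h3' : z - X j ≠ 0 := norm_pos_iff.1 hp1
      have h4' : z' - X j ≠ 0 := norm_pos_iff.1 hp2
      have h5' : (z - X j)⁻¹ - (z' - X j)⁻¹ = -(z - z') * ((z - X j)⁻¹ * (z' - X j)⁻¹) := by
        field_simp
        ring
      rw [h5', norm_mul, norm_neg, norm_mul, norm_inv, norm_inv]
      have h6 : ‖z - X j‖⁻¹ ≤ N := by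
        rw [inv_le_comm₀ hp1 hN0]
        refine le_trans ?_ (hzX j hj)
        rw [inv_eq_one_div]
        gcongr
      have h7' : ‖z' - X j‖⁻¹ ≤ N * 2 := by
        rw [inv_le_comm₀ hp2 (by positivity)]
        exact hTN.trans (hdist j hj)
      calc ‖z - z'‖ * (‖z - X j‖⁻¹ * ‖z' - X j‖⁻¹) ≤ ((N : ℝ) ^ 9)⁻¹ * (N * (N * 2)) := by
            gcongr
        _ = 2 * ((N : ℝ) ^ 7)⁻¹ := by field_simp
    refine (Finset.sum_le_sum h5).trans ?_
    rw [Finset.sum_const, nsmul_eq_mul]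
    have h6 : (J.card : ℝ) ≤ N := by
      have := Finset.card_le_univ J
      rw [Fintype.card_fin] at this
      exact_mod_cast this
    calc (J.card : ℝ) * (2 * ((N : ℝ) ^ 7)⁻¹) ≤ N * (2 * ((N : ℝ) ^ 7)⁻¹) := by gcongr
      _ = 2 / (N : ℝ) ^ 6 := by field_simp
      _ ≤ 1 := by
          rw [div_le_one (by positivity)]
          calc (2 : ℝ) ≤ N := by linarith
            _ ≤ (N : ℝ) ^ 6 := le_self_pow₀ (by linarith) (by norm_num)
  rw [sum_splitC J] at hnb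
  have hfin : SS e X J z - MG μ e z' =
      (SS e X J z - ∑ j ∈ J, (e j : ℂ) * ht (T2 (KK κ) N) (z' - X j)) +
      (∑ j ∈ J, (e j : ℂ) * ht (T2 (KK κ) N) (z' - X j) +
        ∑ j ∈ Finset.univ \ J, (e j : ℂ) * ht (T2 (KK κ) N) (z' - X j) - MG μ e z') -
      ∑ j ∈ Finset.univ \ J, (e j : ℂ) * ht (T2 (KK κ) N) (z' - X j) := by ring
  rw [hfin]
  refine (norm_sub_le _ _).trans ?_
  have h10 := norm_add_le (SS e X J z - ∑ j ∈ J, (e j : ℂ) * ht (T2 (KK κ) N) (z' - X j))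
    (∑ j ∈ J, (e j : ℂ) * ht (T2 (KK κ) N) (z' - X j) +
        ∑ j ∈ Finset.univ \ J, (e j : ℂ) * ht (T2 (KK κ) N) (z' - X j) - MG μ e z')
  rw [div_le_iff₀ hκ] at h1
  linarith

end Pool.Agent.N229.RL
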