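import Pool.Agent.Y333.TY.MultA

/-!
# Integrals of `‖z - w‖⁻¹`, `‖z - w‖⁻²` and `log ‖z - w‖` against measures of bounded density
-/

set_option autoImplicit false

open Filter Topology MeasureTheory Set

namespace Pool.Agent.N229.RL

open Pool.Agent.Y333.TY.MultX

/-- `∫_{‖w‖ < τ} ‖w‖⁻¹ = 2 π τ` -/
theorem disc_int {τ : ℝ} (hτ : 0 ≤ τ) :
    ∫⁻ w : ℂ, (Metric.ball (0 : ℂ) τ).indicator (fun w => ENNReal.ofReal (‖w‖⁻¹)) w ≤
      ENNReal.ofReal (2 * Real.pi * τ) := by
  have hpi := Real.pi_pos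
  rw [← Complex.lintegral_comp_polarCoord_symm]
  set S : Set (ℝ × ℝ) := Ioc 0 τ ×ˢ Ioo (-Real.pi) Real.pi with hS
  have hSm : MeasurableSet S := measurableSet_Ioc.prod measurableSet_Ioo
  have hTm : MeasurableSet polarCoord.target := by
    rw [polarCoord_target]
    exact measurableSet_Ioi.prod measurableSet_Ioo
  have h1 : ∫⁻ q in polarCoord.target, ENNReal.ofReal q.1 •
      (Metric.ball (0 : ℂ) τ).indicator (fun w => ENNReal.ofReal (‖w‖⁻¹))
        (Complex.polarCoord.symm q) ≤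
      ∫⁻ q in polarCoord.target, S.indicator (fun _ => 1) q := by
    refine setLIntegral_mono' hTm fun q hq => ?_
    have hq' := hq
    rw [polarCoord_target] at hq'
    have h0 : 0 < q.1 := hq'.1
    have hn : ‖Complex.polarCoord.symm q‖ = q.1 := by
      rw [Complex.norm_polarCoord_symm, abs_of_pos h0]
    by_cases hm : Complex.polarCoord.symm q ∈ Metric.ball (0 : ℂ) τ
    · have hqS : q ∈ S := by
        rw [mem_ball_zero_iff, hn] at hm
        exact ⟨⟨h0, hm.le⟩, hq'.2⟩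
      rw [indicator_of_mem hm, indicator_of_mem hqS, hn, smul_eq_mul, ← ENNReal.ofReal_mul h0.le,
        mul_inv_cancel₀ h0.ne', ENNReal.ofReal_one]
    · rw [indicator_of_notMem hm, smul_zero]
      exact zero_le
  refine h1.trans ?_
  refine (setLIntegral_le_lintegral _ _).trans ?_
  rw [lintegral_indicator hSm, setLIntegral_one, hS, Measure.volume_eq_prod, Measure.prod_prod,
    Real.volume_Ioc, Real.volume_Ioo, ← ENNReal.ofReal_mul (by linarith)]
  refine ENNReal.ofReal_le_ofReal (le_of_eq ?_)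
  ring

/-- A measure of density at most `D` (a finite measure). -/
structure Dens (μ : Measure ℂ) (D R : ℝ) : Prop where
  prob : IsProbabilityMeasure μ
  D0 : 0 ≤ D
  R0 : 0 ≤ R
  dens : ∀ B : Set ℂ, MeasurableSet B → μ B ≤ ENNReal.ofReal D * volume B
  supp : μ (Metric.closedBall (0 : ℂ) R)ᶜ = 0

variable {μ : Measure ℂ} {D R : ℝ}

theorem Dens.le (h : Dens μ D R) : μ ≤ ENNReal.ofReal D • (volume : Measure ℂ) :=
  Measure.le_iff.2 fun B hB => by
    simpa using h.dens B hB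

theorem Dens.lint (h : Dens μ D R) (f : ℂ → ENNReal) :
    ∫⁻ w, f w ∂μ ≤ ENNReal.ofReal D * ∫⁻ w, f w := by
  refine (lintegral_mono' h.le le_rfl).trans ?_
  rw [lintegral_smul_measure, smul_eq_mul]

theorem Dens.ae (h : Dens μ D R) : ∀ᵐ w ∂μ, ‖w‖ ≤ R := by
  have h1 : ∀ᵐ w ∂μ, w ∈ Metric.closedBall (0 : ℂ) R := by
    rw [ae_iff]
    exact h.supp
  filter_upwards [h1] with w hw
  exact mem_closedBall_zero_iff.1 hw

theorem Dens.ae_ne (h : Dens μ D R) (z : ℂ) : ∀ᵐ w ∂μ, 0 < ‖z - w‖ := by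
  have h1 : μ {z} = 0 := by
    have := h.dens {z} (measurableSet_singleton z)
    simpa using this
  have h2 : ∀ᵐ w ∂μ, w ∉ ({z} : Set ℂ) := by
    rw [ae_iff]
    simpa using h1
  filter_upwards [h2] with w hw
  rw [norm_pos_iff, sub_ne_zero]
  exact fun h3 => hw h3.symm

theorem lint_translate (z : ℂ) (f : ℂ → ENNReal) : ∫⁻ w : ℂ, f (z - w) = ∫⁻ w, f w :=
  lintegral_sub_left_eq_self f z

theorem Dens.near (h : Dens μ D R) (z : ℂ) {τ : ℝ} (hτ : 0 ≤ τ) :
    ∫⁻ w, (Metric.ball (0 : ℂ) τ).indicator (fun w => ENNReal.ofReal (‖w‖⁻¹)) (z - w) ∂μ ≤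
      ENNReal.ofReal (2 * Real.pi * D * τ) := by
  refine (h.lint _).trans ?_
  rw [lint_translate z ((Metric.ball (0 : ℂ) τ).indicator (fun w => ENNReal.ofReal (‖w‖⁻¹)))]
  refine (mul_le_mul_right (disc_int hτ) _).trans (le_of_eq ?_)
  rw [← ENNReal.ofReal_mul h.D0]
  congr 1
  ring

theorem Dens.far (h : Dens μ D R) (z : ℂ) {τ B : ℝ} (hτ : 0 < τ) (hB : τ ≤ B) :
    ∫⁻ w, (Rg τ B).indicator (fun w => ENNReal.ofReal ((‖w‖ ^ 2)⁻¹)) (z - w) ∂μ ≤
      ENNReal.ofReal (2 * Real.pi * D * Real.log (B / τ)) := by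
  refine (h.lint _).trans ?_
  rw [lint_translate z ((Rg τ B).indicator (fun w => ENNReal.ofReal ((‖w‖ ^ 2)⁻¹))),
    ring_int hτ hB, ← ENNReal.ofReal_mul h.D0]
  refine le_of_eq ?_
  congr 1
  ring

theorem Dens.inv_lint (h : Dens μ D R) (z : ℂ) :
    ∫⁻ w, ENNReal.ofReal (‖z - w‖⁻¹) ∂μ ≤ ENNReal.ofReal (2 * Real.pi * D + 1) := by
  haveI := h.prob
  have h1 : ∀ w, ENNReal.ofReal (‖z - w‖⁻¹) ≤
      (Metric.ball (0 : ℂ) 1).indicator (fun w => ENNReal.ofReal (‖w‖⁻¹)) (z - w) + 1 := by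
    intro w
    by_cases hw : z - w ∈ Metric.ball (0 : ℂ) 1
    · rw [indicator_of_mem hw]
      exact le_self_add
    · rw [indicator_of_notMem hw, zero_add]
      rw [mem_ball_zero_iff, not_lt] at hw
      rw [← ENNReal.ofReal_one]
      exact ENNReal.ofReal_le_ofReal (inv_le_one_of_one_le₀ hw)
  refine (lintegral_mono h1).trans ?_
  have hm : Measurable fun w => (Metric.ball (0 : ℂ) 1).indicator
      (fun w => ENNReal.ofReal (‖w‖⁻¹)) (z - w) := by
    have : Measurable ((Metric.ball (0 : ℂ) 1).indicator (fun w => ENNReal.ofReal (‖w‖⁻¹))) :=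
      (by fun_prop : Measurable fun w : ℂ => ENNReal.ofReal (‖w‖⁻¹)).indicator
        Metric.isOpen_ball.measurableSet
    exact this.comp (by fun_prop)
  rw [lintegral_add_left hm, lintegral_one, measure_univ]
  refine (add_le_add_left (h.near z zero_le_one) 1).trans (le_of_eq ?_)
  rw [← ENNReal.ofReal_one, ← ENNReal.ofReal_add (by have := h.D0; positivity) zero_le_one]
  congr 1
  ring

theorem Dens.integrable_inv (h : Dens μ D R) (z : ℂ) : Integrable (fun w => ‖z - w‖⁻¹) μ := by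
  refine ⟨(by fun_prop : Measurable fun w : ℂ => ‖z - w‖⁻¹).aestronglyMeasurable, ?_⟩
  rw [hasFiniteIntegral_iff_ofReal (Eventually.of_forall fun w => by positivity)]
  exact (h.inv_lint z).trans_lt ENNReal.ofReal_lt_top

theorem Dens.integral_inv (h : Dens μ D R) (z : ℂ) :
    ∫ w, ‖z - w‖⁻¹ ∂μ ≤ 2 * Real.pi * D + 1 := by
  rw [integral_eq_lintegral_of_nonneg_ae (Eventually.of_forall fun w => by positivity)
    (by fun_prop : Measurable fun w : ℂ => ‖z - w‖⁻¹).aestronglyMeasurable]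
  exact ENNReal.toReal_le_of_le_ofReal (by have := h.D0; positivity) (h.inv_lint z)

/-- the potential -/
noncomputable def UU (μ : Measure ℂ) (z : ℂ) : ℝ := ∫ w, Real.log ‖z - w‖ ∂μ

/-- the Cauchy transform -/
noncomputable def GG (μ : Measure ℂ) (z : ℂ) : ℂ := ∫ w, (z - w)⁻¹ ∂μ

theorem abs_log_le {x : ℝ} (hx : 0 ≤ x) : |Real.log x| ≤ x⁻¹ + x := by
  rcases hx.eq_or_lt with rfl | hx
  · simp
  have h1 := Real.log_le_self hx.le
  have h2 := Real.log_le_self (inv_nonneg.2 hx.le)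
  rw [Real.log_inv] at h2
  rw [abs_le]
  constructor
  · linarith
  · have : 0 < x⁻¹ := inv_pos.2 hx
    linarith

theorem Dens.integrable_norm (h : Dens μ D R) (z : ℂ) : Integrable (fun w => ‖z - w‖) μ := by
  haveI := h.prob
  refine Integrable.of_bound (by fun_prop) (‖z‖ + R) ?_
  filter_upwards [h.ae] with w hw
  rw [norm_norm]
  exact (norm_sub_le _ _).trans (by linarith)

theorem Dens.integrable_log (h : Dens μ D R) (z : ℂ) :
    Integrable (fun w => Real.log ‖z - w‖) μ := by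
  refine ((h.integrable_inv z).add (h.integrable_norm z)).mono'
    (by fun_prop : Measurable fun w : ℂ => Real.log ‖z - w‖).aestronglyMeasurable
    (Eventually.of_forall fun w => ?_)
  rw [Real.norm_eq_abs]
  exact abs_log_le (norm_nonneg _)

theorem Dens.integrable_cauchy (h : Dens μ D R) (z : ℂ) :
    Integrable (fun w => (z - w)⁻¹) μ := by
  refine (h.integrable_inv z).mono' ?_ (Eventually.of_forall fun w => ?_)
  · exact (by fun_prop : Measurable fun w : ℂ => (z - w)⁻¹).aestronglyMeasurable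
  · rw [norm_inv]

/-- truncated logarithm -/
noncomputable def lt (τ B : ℝ) (w : ℂ) : ℝ := Real.log (max τ (min ‖w‖ B))

/-- truncated Cauchy kernel -/
noncomputable def ht (τ : ℝ) (w : ℂ) : ℂ := if τ ≤ ‖w‖ then w⁻¹ else 0

theorem measurable_lt (τ B : ℝ) : Measurable (lt τ B) := by
  unfold lt
  fun_prop

theorem measurable_ht (τ : ℝ) : Measurable (ht τ) := by
  unfold ht
  exact Measurable.ite (measurableSet_le measurable_const measurable_norm) (by fun_prop)
    measurable_const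

theorem lt_eq {τ B : ℝ} {w : ℂ} (h1 : τ ≤ ‖w‖) (h2 : ‖w‖ ≤ B) : lt τ B w = Real.log ‖w‖ := by
  unfold lt
  rw [min_eq_left h2, max_eq_right h1]

theorem ht_eq {τ : ℝ} {w : ℂ} (h1 : τ ≤ ‖w‖) : ht τ w = w⁻¹ := by
  unfold ht
  rw [if_pos h1]

theorem abs_lt_le {τ B L : ℝ} (hτ : 0 < τ) (hB : τ ≤ B) (h1 : -L ≤ Real.log τ)
    (h2 : Real.log B ≤ L) (w : ℂ) : |lt τ B w| ≤ L := by
  unfold lt
  have h3 : τ ≤ max τ (min ‖w‖ B) := le_max_left _ _
  have h4 : max τ (min ‖w‖ B) ≤ B := max_le hB (min_le_right _ _)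
  rw [abs_le]
  exact ⟨h1.trans (Real.log_le_log hτ h3), (Real.log_le_log (hτ.trans_le h3) h4).trans h2⟩

theorem norm_ht_le {τ : ℝ} (hτ : 0 < τ) (w : ℂ) : ‖ht τ w‖ ≤ τ⁻¹ := by
  unfold ht
  split_ifs with h
  · rw [norm_inv]
    exact inv_anti₀ hτ h
  · rw [norm_zero]
    positivity

theorem Dens.bias_log (h : Dens μ D R) (z : ℂ) {τ B : ℝ} (hτ : 0 < τ) (hB : τ ≤ B)
    (hz : ‖z‖ + R ≤ B) : |(∫ w, lt τ B (z - w) ∂μ) - UU μ z| ≤ 2 * Real.pi * D * τ ^ 2 := by
  haveI := h.prob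
  obtain ⟨L, hL1, hL2⟩ : ∃ L : ℝ, -L ≤ Real.log τ ∧ Real.log B ≤ L :=
    ⟨max (-Real.log τ) (Real.log B), by
      have := le_max_left (-Real.log τ) (Real.log B); linarith, le_max_right _ _⟩
  have hi : Integrable (fun w => lt τ B (z - w)) μ :=
    Integrable.of_bound ((measurable_lt τ B).comp (by fun_prop)).aestronglyMeasurable L
      (Eventually.of_forall fun w => by
        rw [Real.norm_eq_abs]
        exact abs_lt_le hτ hB hL1 hL2 _)
  unfold UU
  rw [← integral_sub hi (h.integrable_log z), ← Real.norm_eq_abs]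
  refine (norm_integral_le_lintegral_norm _).trans ?_
  refine ENNReal.toReal_le_of_le_ofReal (by have := h.D0; positivity) ?_
  have h1 : ∫⁻ w, ENNReal.ofReal ‖lt τ B (z - w) - Real.log ‖z - w‖‖ ∂μ ≤
      ∫⁻ w, ENNReal.ofReal τ *
        (Metric.ball (0 : ℂ) τ).indicator (fun w => ENNReal.ofReal (‖w‖⁻¹)) (z - w) ∂μ := by
    refine lintegral_mono_ae ?_
    filter_upwards [h.ae, h.ae_ne z] with w hw h0
    have hwB : ‖z - w‖ ≤ B := (norm_sub_le _ _).trans (by linarith)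
    by_cases hm : z - w ∈ Metric.ball (0 : ℂ) τ
    · rw [indicator_of_mem hm, ← ENNReal.ofReal_mul hτ.le]
      refine ENNReal.ofReal_le_ofReal ?_
      rw [mem_ball_zero_iff] at hm
      have e1 : lt τ B (z - w) = Real.log τ := by
        unfold lt
        rw [min_eq_left hwB, max_eq_left hm.le]
      rw [e1, Real.norm_eq_abs]
      rw [← Real.log_div hτ.ne' h0.ne', abs_of_nonneg
        (Real.log_nonneg (by rw [le_div_iff₀ h0]; linarith))]
      refine (Real.log_le_self (by positivity)).trans (le_of_eq ?_)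
      rw [div_eq_mul_inv]
    · rw [mem_ball_zero_iff, not_lt] at hm
      rw [lt_eq hm hwB, sub_self, norm_zero, ENNReal.ofReal_zero]
      exact zero_le
  refine h1.trans ?_
  rw [lintegral_const_mul' _ _ ENNReal.ofReal_ne_top]
  refine (mul_le_mul_right (h.near z hτ.le) _).trans (le_of_eq ?_)
  rw [← ENNReal.ofReal_mul hτ.le]
  congr 1
  ring

theorem Dens.bias_cauchy (h : Dens μ D R) (z : ℂ) {τ : ℝ} (hτ : 0 < τ) :
    ‖(∫ w, ht τ (z - w) ∂μ) - GG μ z‖ ≤ 2 * Real.pi * D * τ := by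
  haveI := h.prob
  have hi : Integrable (fun w => ht τ (z - w)) μ :=
    Integrable.of_bound ((measurable_ht τ).comp (by fun_prop)).aestronglyMeasurable τ⁻¹
      (Eventually.of_forall fun w => norm_ht_le hτ _)
  unfold GG
  rw [← integral_sub hi (h.integrable_cauchy z)]
  refine (norm_integral_le_lintegral_norm _).trans ?_
  refine ENNReal.toReal_le_of_le_ofReal (by have := h.D0; positivity) ?_
  refine le_trans (lintegral_mono fun w => ?_) (h.near z hτ.le)
  by_cases hm : z - w ∈ Metric.ball (0 : ℂ) τ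
  · rw [indicator_of_mem hm]
    refine ENNReal.ofReal_le_ofReal ?_
    rw [mem_ball_zero_iff] at hm
    unfold ht
    rw [if_neg (not_le.2 hm), zero_sub, norm_neg, norm_inv]
  · rw [mem_ball_zero_iff, not_lt] at hm
    rw [ht_eq hm, sub_self, norm_zero, ENNReal.ofReal_zero]
    exact zero_le

theorem Dens.second (h : Dens μ D R) (z : ℂ) {τ B : ℝ} (hτ : 0 < τ) (hB : τ ≤ B)
    (hz : ‖z‖ + R ≤ B) :
    ∫ w, ‖ht τ (z - w)‖ ^ 2 ∂μ ≤ 2 * Real.pi * D * Real.log (B / τ) := by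
  have hlog : 0 ≤ Real.log (B / τ) := Real.log_nonneg (by rw [le_div_iff₀ hτ]; linarith)
  have hmm : Measurable fun w => ‖ht τ (z - w)‖ ^ 2 :=
    ((measurable_ht τ).comp (by fun_prop : Measurable fun w : ℂ => z - w)).norm.pow_const 2
  rw [integral_eq_lintegral_of_nonneg_ae (Eventually.of_forall fun w => by positivity)
    hmm.aestronglyMeasurable]
  refine ENNReal.toReal_le_of_le_ofReal (by have := h.D0; positivity) ?_
  refine le_trans (lintegral_mono_ae ?_) (h.far z hτ hB)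
  filter_upwards [h.ae] with w hw
  have hwB : ‖z - w‖ ≤ B := (norm_sub_le _ _).trans (by linarith)
  by_cases hm : τ ≤ ‖z - w‖
  · rw [indicator_of_mem (show z - w ∈ Rg τ B from ⟨hm, hwB⟩), ht_eq hm, norm_inv, inv_pow]
  · unfold ht
    rw [if_neg hm]
    simp

theorem abs_log_sub_le {x y : ℝ} (hx : 0 < x) (hy : 0 < y) :
    |Real.log x - Real.log y| ≤ |x - y| * (x⁻¹ + y⁻¹) := by
  have key : ∀ u v : ℝ, 0 < u → 0 < v → Real.log u - Real.log v ≤ |u - v| * (u⁻¹ + v⁻¹) := by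
    intro u v hu hv
    rw [← Real.log_div hu.ne' hv.ne']
    have h1 := Real.log_le_sub_one_of_pos (div_pos hu hv)
    refine h1.trans ?_
    have h2 : u / v - 1 = (u - v) * v⁻¹ := by field_simp
    rw [h2]
    have h3 : (u - v) * v⁻¹ ≤ |u - v| * v⁻¹ :=
      mul_le_mul_of_nonneg_right (le_abs_self _) (inv_pos.2 hv).le
    have h4 : 0 ≤ |u - v| * u⁻¹ := mul_nonneg (abs_nonneg _) (inv_pos.2 hu).le
    nlinarith
  rw [abs_le]
  constructor
  · have := key y x hy hx
    rw [abs_sub_comm, add_comm] at this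
    linarith
  · exact key x y hx hy

theorem Dens.lip (h : Dens μ D R) (z z' : ℂ) :
    |UU μ z - UU μ z'| ≤ ‖z - z'‖ * (2 * (2 * Real.pi * D + 1)) := by
  unfold UU
  rw [← integral_sub (h.integrable_log z) (h.integrable_log z')]
  have h1 : ∫ w, ‖z - z'‖ * (‖z - w‖⁻¹ + ‖z' - w‖⁻¹) ∂μ ≤
      ‖z - z'‖ * (2 * (2 * Real.pi * D + 1)) := by
    rw [integral_const_mul, integral_add (h.integrable_inv z) (h.integrable_inv z')]
    refine mul_le_mul_of_nonneg_left ?_ (norm_nonneg _)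
    have := h.integral_inv z
    have := h.integral_inv z'
    linarith
  refine le_trans ?_ h1
  rw [← Real.norm_eq_abs]
  refine norm_integral_le_of_norm_le
    (((h.integrable_inv z).add (h.integrable_inv z')).const_mul _) ?_
  filter_upwards [h.ae_ne z, h.ae_ne z'] with w hw hw'
  rw [Real.norm_eq_abs]
  refine (abs_log_sub_le hw hw').trans ?_
  refine mul_le_mul_of_nonneg_right ?_ (by positivity)
  have h2 : z - z' = (z - w) - (z' - w) := by ring
  rw [h2]
  exact abs_norm_sub_norm_le _ _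

theorem Dens.gmod (h : Dens μ D R) (z z' : ℂ) {τ : ℝ} (hτ : 0 < τ) (hz : ‖z - z'‖ ≤ τ / 2) :
    ‖GG μ z - GG μ z'‖ ≤ 5 * Real.pi * D * τ + 2 * ‖z - z'‖ / τ ^ 2 := by
  haveI := h.prob
  have hD := h.D0
  have hpi := Real.pi_pos
  unfold GG
  rw [← integral_sub (h.integrable_cauchy z) (h.integrable_cauchy z')]
  refine (norm_integral_le_lintegral_norm _).trans ?_
  refine ENNReal.toReal_le_of_le_ofReal (by positivity) ?_
  have hm1 : ∀ (y : ℂ) (t : ℝ), Measurable fun w => (Metric.ball (0 : ℂ) t).indicator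
      (fun w => ENNReal.ofReal (‖w‖⁻¹)) (y - w) := by
    intro y t
    have : Measurable ((Metric.ball (0 : ℂ) t).indicator (fun w => ENNReal.ofReal (‖w‖⁻¹))) :=
      (by fun_prop : Measurable fun w : ℂ => ENNReal.ofReal (‖w‖⁻¹)).indicator
        Metric.isOpen_ball.measurableSet
    exact this.comp (by fun_prop)
  have h1 : ∀ w, ENNReal.ofReal ‖(z - w)⁻¹ - (z' - w)⁻¹‖ ≤
      ((Metric.ball (0 : ℂ) τ).indicator (fun w => ENNReal.ofReal (‖w‖⁻¹)) (z - w) +
      (Metric.ball (0 : ℂ) (3 / 2 * τ)).indicator (fun w => ENNReal.ofReal (‖w‖⁻¹)) (z' - w)) +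
      ENNReal.ofReal (2 * ‖z - z'‖ / τ ^ 2) := by
    intro w
    by_cases hw : ‖z - w‖ < τ
    · refine le_trans ?_ le_self_add
      have h2 : ‖z' - w‖ < 3 / 2 * τ := by
        have : z' - w = (z - w) - (z - z') := by ring
        rw [this]
        exact (norm_sub_le _ _).trans_lt (by linarith)
      rw [indicator_of_mem (mem_ball_zero_iff.2 hw), indicator_of_mem (mem_ball_zero_iff.2 h2),
        ← ENNReal.ofReal_add (by positivity) (by positivity)]
      refine ENNReal.ofReal_le_ofReal ?_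
      rw [← norm_inv, ← norm_inv]
      exact norm_sub_le _ _
    · rw [not_lt] at hw
      refine le_trans (ENNReal.ofReal_le_ofReal ?_) le_add_self
      have h2 : τ / 2 ≤ ‖z' - w‖ := by
        have : z - w = (z' - w) + (z - z') := by ring
        rw [this] at hw
        have := norm_add_le (z' - w) (z - z')
        linarith
      have h3 : z - w ≠ 0 := norm_pos_iff.1 (hτ.trans_le hw)
      have h4 : z' - w ≠ 0 := norm_pos_iff.1 (lt_of_lt_of_le (by positivity) h2)
      have h5 : (z - w)⁻¹ - (z' - w)⁻¹ = -(z - z') * ((z - w)⁻¹ * (z' - w)⁻¹) := by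
        field_simp
        ring
      rw [h5, norm_mul, norm_neg, norm_mul, norm_inv, norm_inv]
      have h6 : ‖z - w‖⁻¹ ≤ τ⁻¹ := inv_anti₀ hτ hw
      have h7 : ‖z' - w‖⁻¹ ≤ (τ / 2)⁻¹ := inv_anti₀ (by positivity) h2
      calc ‖z - z'‖ * (‖z - w‖⁻¹ * ‖z' - w‖⁻¹) ≤ ‖z - z'‖ * (τ⁻¹ * (τ / 2)⁻¹) := by
            gcongr
        _ = 2 * ‖z - z'‖ / τ ^ 2 := by field_simp
  refine (lintegral_mono h1).trans ?_
  have hm2 : Measurable fun w => (Metric.ball (0 : ℂ) τ).indicator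
      (fun w => ENNReal.ofReal (‖w‖⁻¹)) (z - w) + (Metric.ball (0 : ℂ) (3 / 2 * τ)).indicator
      (fun w => ENNReal.ofReal (‖w‖⁻¹)) (z' - w) := (hm1 z τ).add (hm1 z' (3 / 2 * τ))
  rw [lintegral_add_left hm2, lintegral_add_left (hm1 z τ),
    lintegral_const, measure_univ, mul_one]
  refine (add_le_add_left (add_le_add (h.near z hτ.le) (h.near z' (by positivity))) _).trans ?_
  rw [← ENNReal.ofReal_add (by positivity) (by positivity),
    ← ENNReal.ofReal_add (by positivity) (by positivity)]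
  refine ENNReal.ofReal_le_ofReal (le_of_eq ?_)
  ring

theorem Dens.continuous_UU (h : Dens μ D R) : Continuous (UU μ) := by
  have hD := h.D0
  have hpi := Real.pi_pos
  rw [Metric.continuous_iff]
  intro z ε hε
  refine ⟨ε / (2 * (2 * Real.pi * D + 1)), by positivity, fun z' hz' => ?_⟩
  rw [dist_eq_norm] at hz' ⊢
  rw [Real.norm_eq_abs]
  refine (h.lip z' z).trans_lt ?_
  rwa [lt_div_iff₀ (by positivity)] at hz'

theorem Dens.continuous_GG (h : Dens μ D R) : Continuous (GG μ) := by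
  have hD := h.D0
  have hpi := Real.pi_pos
  rw [Metric.continuous_iff]
  intro z ε hε
  obtain ⟨τ, hτ, hτ1⟩ : ∃ τ : ℝ, 0 < τ ∧ 5 * Real.pi * D * τ < ε / 2 := by
    refine ⟨ε / (4 * (5 * Real.pi * D + 1)), by positivity, ?_⟩
    rw [mul_div_assoc', div_lt_div_iff₀ (by positivity) (by positivity)]
    nlinarith [mul_nonneg hpi.le hD, mul_pos hε hpi, mul_nonneg (mul_nonneg hpi.le hD) hε.le]
  refine ⟨min (τ / 2) (τ ^ 2 * ε / 8), by positivity, fun z' hz' => ?_⟩
  rw [dist_eq_norm] at hz' ⊢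
  have h1 : ‖z' - z‖ ≤ τ / 2 := (hz'.trans_le (min_le_left _ _)).le
  have h2 : ‖z' - z‖ ≤ τ ^ 2 * ε / 8 := (hz'.trans_le (min_le_right _ _)).le
  have h3 := h.gmod z' z hτ h1
  have h4 : 2 * ‖z' - z‖ / τ ^ 2 ≤ ε / 4 := by
    rw [div_le_iff₀ (by positivity)]
    nlinarith
  linarith

end Pool.Agent.N229.RL
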