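import Pool.Agent.N229.RL.Def
import Pool.Agent.N229.RL.Chern
import Pool.Agent.N229.RL.Kern

/-!
# Uniform laws of large numbers on a net
-/

set_option autoImplicit false

open Filter Topology MeasureTheory Set

namespace Pool.Agent.N229.RL

variable {N : ℕ}

/-- two sided version of `chern` around an approximate mean -/
theorem chern2 (μ : Fin N → Measure ℂ) [∀ i, IsProbabilityMeasure (μ i)] {Y : Fin N → ℂ → ℝ}
    (hY : ∀ i, Measurable (Y i)) {M M' s t b u c : ℝ} (hM : ∀ i x, |Y i x| ≤ M) (hM' : M ≤ M')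
    (h0 : 0 < M') (hs : ∀ i, ∫ x, (Y i x) ^ 2 ∂μ i ≤ s)
    (hc : |∑ i, (∫ x, Y i x ∂μ i) - c| ≤ b) (hu : b + t ≤ u) :
    Measure.pi μ {X | u ≤ |∑ i, Y i (X i) - c|} ≤
      2 * ENNReal.ofReal (Real.exp (N * s / M' ^ 2 - t / M')) := by
  have h1 := chern μ (t := t) hY hM hM' h0 hs
  have h2 := chern μ (Y := fun i x => -Y i x) (t := t) (M := M) (M' := M') (s := s)
    (fun i => (hY i).neg) (fun i x => by rw [abs_neg]; exact hM i x) hM' h0
    (fun i => by simpa using hs i)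
  have hsub : {X : Fin N → ℂ | u ≤ |∑ i, Y i (X i) - c|} ⊆
      {X | ∑ i, (∫ x, Y i x ∂μ i) + t ≤ ∑ i, Y i (X i)} ∪
      {X | ∑ i, (∫ x, -Y i x ∂μ i) + t ≤ ∑ i, -Y i (X i)} := by
    intro X hX
    simp only [mem_ofPred_eq] at hX
    rw [abs_le] at hc
    rcases le_abs'.1 hX with h3 | h3
    · right
      simp only [mem_ofPred_eq, integral_neg, Finset.sum_neg_distrib]
      linarith [hc.1, hc.2]
    · left
      simp only [mem_ofPred_eq]
      linarith [hc.1, hc.2]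
  refine (measure_mono hsub).trans ((measure_union_le _ _).trans ?_)
  rw [two_mul]
  exact add_le_add h1 h2

/-- a square net -/
noncomputable def net (Rp h : ℝ) : Finset ℂ :=
  ((Finset.Icc (-⌈Rp / h⌉) ⌈Rp / h⌉) ×ˢ (Finset.Icc (-⌈Rp / h⌉) ⌈Rp / h⌉)).image
    fun p : ℤ × ℤ => (⟨h * p.1, h * p.2⟩ : ℂ)

theorem net_near {Rp h : ℝ} (hh : 0 < h) {z : ℂ} (hz : ‖z‖ ≤ Rp) :
    ∃ z' ∈ net Rp h, ‖z - z'‖ ≤ h := by
  have key : ∀ x : ℝ, |x| ≤ Rp → round (x / h) ∈ Finset.Icc (-⌈Rp / h⌉) ⌈Rp / h⌉ ∧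
      |x - h * round (x / h)| ≤ h / 2 := by
    intro x hx
    have h1 := abs_sub_round (x / h)
    constructor
    · have h2 : |x / h| ≤ Rp / h := by
        rw [abs_div, abs_of_pos hh]
        gcongr
      have h3 : Rp / h ≤ ⌈Rp / h⌉ := Int.le_ceil _
      rw [abs_le] at h1 h2
      rw [Finset.mem_Icc]
      constructor
      · have : (-(⌈Rp / h⌉ : ℝ)) - 1 < (round (x / h) : ℝ) := by linarith [h1.1, h1.2, h2.1]
        have : (-⌈Rp / h⌉ : ℤ) - 1 < round (x / h) := by exact_mod_cast this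
        omega
      · have : (round (x / h) : ℝ) < (⌈Rp / h⌉ : ℝ) + 1 := by linarith [h1.1, h1.2, h2.2]
        have : round (x / h) < ⌈Rp / h⌉ + 1 := by exact_mod_cast this
        omega
    · have h2 : x - h * round (x / h) = h * (x / h - round (x / h)) := by field_simp
      rw [h2, abs_mul, abs_of_pos hh]
      nlinarith
  obtain ⟨h1, h2⟩ := key z.re ((Complex.abs_re_le_norm z).trans hz)
  obtain ⟨h3, h4⟩ := key z.im ((Complex.abs_im_le_norm z).trans hz)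
  refine ⟨⟨h * round (z.re / h), h * round (z.im / h)⟩, ?_, ?_⟩
  · rw [net, Finset.mem_image]
    exact ⟨(round (z.re / h), round (z.im / h)), Finset.mem_product.2 ⟨h1, h3⟩, rfl⟩
  · refine (Complex.norm_le_abs_re_add_abs_im _).trans ?_
    simp only [Complex.sub_re, Complex.sub_im]
    linarith

theorem net_card {Rp h : ℝ} (hh : 0 < h) (hR : 0 ≤ Rp) :
    ((net Rp h).card : ℝ) ≤ (2 * (Rp / h) + 3) ^ 2 := by
  have h1 : (net Rp h).card ≤ (2 * ⌈Rp / h⌉ + 1).toNat * (2 * ⌈Rp / h⌉ + 1).toNat := by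
    refine Finset.card_image_le.trans ?_
    rw [Finset.card_product, Int.card_Icc]
    have : ⌈Rp / h⌉ + 1 - -⌈Rp / h⌉ = 2 * ⌈Rp / h⌉ + 1 := by ring
    rw [this]
  have h0 : 0 ≤ ⌈Rp / h⌉ := Int.ceil_nonneg (by positivity)
  have h2 : (((2 * ⌈Rp / h⌉ + 1).toNat : ℕ) : ℝ) = 2 * (⌈Rp / h⌉ : ℝ) + 1 := by
    have : (((2 * ⌈Rp / h⌉ + 1).toNat : ℕ) : ℤ) = 2 * ⌈Rp / h⌉ + 1 :=
      Int.toNat_of_nonneg (by linarith)
    exact_mod_cast this
  have h3 : (⌈Rp / h⌉ : ℝ) ≤ Rp / h + 1 := (Int.ceil_lt_add_one _).le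
  have h4 : (0 : ℝ) ≤ ⌈Rp / h⌉ := by exact_mod_cast h0
  calc ((net Rp h).card : ℝ) ≤ (2 * (⌈Rp / h⌉ : ℝ) + 1) * (2 * (⌈Rp / h⌉ : ℝ) + 1) := by
        rw [← h2]
        exact_mod_cast h1
    _ ≤ (2 * (Rp / h) + 3) ^ 2 := by nlinarith

/-- the mean of `log ‖gg‖` -/
noncomputable def MU (μ : Fin N → Measure ℂ) (e : Fin N → ℤ) (a z : ℂ) : ℝ :=
  Real.log ‖a‖ + ∑ i, (e i : ℝ) * UU (μ i) z

/-- the mean of `SS` -/
noncomputable def MG (μ : Fin N → Measure ℂ) (e : Fin N → ℤ) (z : ℂ) : ℂ :=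
  ∑ i, (e i : ℂ) * GG (μ i) z

theorem ev_log (C : ℝ) (n : ℕ) : ∀ᶠ N : ℕ in atTop, C * Real.log N ^ n ≤ N := by
  have h := (Real.isLittleO_pow_log_id_atTop (n := n)).comp_tendsto tendsto_natCast_atTop_atTop
  have h1 := h.def (c := (|C| + 1)⁻¹) (by positivity)
  filter_upwards [h1] with N hN
  simp only [Function.comp_apply, id, Real.norm_eq_abs, Nat.abs_cast] at hN
  have h2 : |Real.log (N : ℝ) ^ n| * (|C| + 1) ≤ N := by
    rwa [inv_mul_eq_div, le_div_iff₀ (by positivity)] at hN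
  have h3 : C * Real.log N ^ n ≤ |C| * |Real.log (N : ℝ) ^ n| := by
    rw [← abs_mul]
    exact le_abs_self _
  nlinarith [abs_nonneg (Real.log (N : ℝ) ^ n)]

theorem ev_log_ge (C : ℝ) : ∀ᶠ N : ℕ in atTop, C ≤ Real.log N :=
  (Real.tendsto_log_atTop.comp tendsto_natCast_atTop_atTop).eventually_ge_atTop C

end Pool.Agent.N229.RL
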