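import Pool.Agent.N229.RL.Net

/-!
# The configurations which are bad on the net are rare
-/

set_option autoImplicit false

open Filter Topology MeasureTheory Set

namespace Pool.Agent.N229.RL

/-- level of truncation of the logarithm -/
noncomputable def T1 (N : ℕ) : ℝ := (2 * (N : ℝ) ^ 4)⁻¹

/-- level of truncation of the Cauchy kernel -/
noncomputable def T2 (K₀ : ℝ) (N : ℕ) : ℝ := K₀ * Real.log N / (2 * N)

theorem exp_log_pow {N : ℕ} (hN : 1 ≤ N) (k : ℕ) {x : ℝ} (hx : x ≤ -(k * Real.log N)) :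
    Real.exp x ≤ ((N : ℝ) ^ k)⁻¹ := by
  have hN0 : (0 : ℝ) < N := by exact_mod_cast hN
  refine (Real.exp_le_exp.2 hx).trans (le_of_eq ?_)
  rw [Real.exp_neg, ← Real.log_pow, Real.exp_log (by positivity)]

theorem sign_abs {σ : ℤ} (hσ : σ = 1 ∨ σ = -1) : |(σ : ℝ)| = 1 := by
  rcases hσ with rfl | rfl <;> simp

theorem prob_log {D R B κ : ℝ} (hD : 0 ≤ D) (hκ : 0 < κ) (hB : 1 ≤ B) :
    ∀ᶠ N : ℕ in atTop, ∀ (μ : Fin N → Measure ℂ) (e : Fin N → ℤ) (a z : ℂ),
      (∀ i, Dens (μ i) D R) → (∀ i, e i = 1 ∨ e i = -1) → ‖z‖ + R ≤ B →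
      Measure.pi μ {X | κ * N / 8 ≤ |∑ i, (e i : ℝ) * lt (T1 N) B (z - X i) -
        (MU μ e a z - Real.log ‖a‖)|} ≤ 2 * ENNReal.ofReal ((N : ℝ) ^ 25)⁻¹ := by
  have hpi := Real.pi_pos
  filter_upwards [ev_log (640000 / κ ^ 2) 3, ev_log_ge (Real.log B), ev_log_ge 1,
    eventually_ge_atTop 2, ev_log (16 / κ) 0, ev_log (2 * Real.pi * D) 0,
    ev_log_ge (κ / 160)] with N h1 h2 h3 hN h4 h5 h6 μ e a z hμ he hz
  rw [pow_zero, mul_one] at h4 h5
  haveI : ∀ i, IsProbabilityMeasure (μ i) := fun i => (hμ i).prob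
  have hN2 : (2 : ℝ) ≤ N := by exact_mod_cast hN
  have hN0 : (0 : ℝ) < N := by linarith
  have hlog0 : 0 < Real.log N := by linarith
  have hT : 0 < T1 N := by unfold T1; positivity
  have hTB : T1 N ≤ B := by
    refine le_trans ?_ hB
    unfold T1
    refine inv_le_one_of_one_le₀ ?_
    have : (1 : ℝ) ≤ (N : ℝ) ^ 4 := one_le_pow₀ (by linarith)
    linarith
  have hL1 : -(5 * Real.log N) ≤ Real.log (T1 N) := by
    unfold T1
    rw [Real.log_inv, neg_le_neg_iff, Real.log_mul (by norm_num) (by positivity), Real.log_pow]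
    have : Real.log 2 ≤ Real.log N := Real.log_le_log (by norm_num) hN2
    push_cast
    linarith
  have hL2 : Real.log B ≤ 5 * Real.log N := by linarith
  have hbd : ∀ i x, |(e i : ℝ) * lt (T1 N) B (z - x)| ≤ 5 * Real.log N := by
    intro i x
    rw [abs_mul, sign_abs (he i), one_mul]
    exact abs_lt_le hT hTB hL1 hL2 _
  have hmeas : ∀ i, Measurable fun x : ℂ => (e i : ℝ) * lt (T1 N) B (z - x) := fun i =>
    ((measurable_lt _ _).comp (by fun_prop)).const_mul _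
  have hC1 : 0 < 800 / κ := by positivity
  have hMM : 5 * Real.log N ≤ 800 / κ * Real.log N ^ 2 := by
    have h7 : 5 ≤ 800 / κ * Real.log N := by
      rw [div_mul_eq_mul_div, le_div_iff₀ hκ]
      rw [div_le_iff₀ (by norm_num)] at h6
      linarith
    nlinarith
  have hmain := chern2 μ (Y := fun i x => (e i : ℝ) * lt (T1 N) B (z - x)) hmeas
    (M := 5 * Real.log N) (M' := 800 / κ * Real.log N ^ 2)
    (s := (5 * Real.log N) ^ 2) (t := κ * N / 16) (b := 1) (u := κ * N / 8)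
    (c := MU μ e a z - Real.log ‖a‖) hbd hMM (by positivity)
    (fun i => by
      have : ∫ x, ((e i : ℝ) * lt (T1 N) B (z - x)) ^ 2 ∂μ i ≤ ∫ _x, (5 * Real.log N) ^ 2 ∂μ i := by
        refine integral_mono_of_nonneg (Eventually.of_forall fun x => by positivity)
          (integrable_const _) (Eventually.of_forall fun x => ?_)
        exact sq_le_sq' (by have := (abs_le.1 (hbd i x)).1; linarith) (abs_le.1 (hbd i x)).2
      simpa using this)
    (by
      unfold MU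
      rw [add_sub_cancel_left, ← Finset.sum_sub_distrib]
      refine (Finset.abs_sum_le_sum_abs _ _).trans ?_
      have : ∀ i, |(∫ x, (e i : ℝ) * lt (T1 N) B (z - x) ∂μ i) - (e i : ℝ) * UU (μ i) z| ≤
          2 * Real.pi * D * T1 N ^ 2 := by
        intro i
        rw [integral_const_mul, ← mul_sub, abs_mul, sign_abs (he i), one_mul]
        exact (hμ i).bias_log z hT hTB hz
      refine (Finset.sum_le_sum fun i _ => this i).trans ?_
      simp only [Finset.sum_const, Finset.card_univ, Fintype.card_fin, nsmul_eq_mul]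
      have h6 : (N : ℝ) * (2 * Real.pi * D * T1 N ^ 2) ≤ N * (N * T1 N ^ 2) := by
        gcongr
      refine h6.trans ?_
      unfold T1
      have h7 : (N : ℝ) * (N * ((2 * (N : ℝ) ^ 4)⁻¹) ^ 2) = (4 * (N : ℝ) ^ 6)⁻¹ := by
        field_simp
        ring
      rw [h7]
      refine inv_le_one_of_one_le₀ ?_
      have : (1 : ℝ) ≤ (N : ℝ) ^ 6 := one_le_pow₀ (by linarith)
      linarith)
    (by
      rw [div_le_iff₀ hκ] at h4
      linarith)
  refine hmain.trans (mul_le_mul_right (ENNReal.ofReal_le_ofReal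
    (exp_log_pow (by omega) 25 ?_)) 2)
  have e1 : (N : ℝ) * (5 * Real.log N) ^ 2 / (800 / κ * Real.log N ^ 2) ^ 2 -
      κ * N / 16 / (800 / κ * Real.log N ^ 2) = -(κ ^ 2 * N / (25600 * Real.log N ^ 2)) := by
    field_simp
    ring
  rw [e1, neg_le_neg_iff]
  rw [div_mul_eq_mul_div, div_le_iff₀ (by positivity)] at h1
  rw [le_div_iff₀ (by positivity)]
  push_cast
  nlinarith

/-- one real part of the Cauchy sum -/
theorem prob_cauchy_part {D R B κ : ℝ} (hD : 0 ≤ D) (hκ : 0 < κ) (hB : 1 ≤ B) :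
    ∀ᶠ N : ℕ in atTop, ∀ (μ : Fin N → Measure ℂ) (e : Fin N → ℤ) (z : ℂ) (p : ℂ →L[ℝ] ℝ),
      (∀ i, Dens (μ i) D R) → (∀ i, e i = 1 ∨ e i = -1) → ‖z‖ + R ≤ B → (∀ w, |p w| ≤ ‖w‖) →
      Measure.pi μ {X | κ * N / 16 ≤ |∑ i, p ((e i : ℂ) * ht (T2 (128 * 26 / κ) N) (z - X i)) -
        p (MG μ e z)|} ≤ 2 * ENNReal.ofReal ((N : ℝ) ^ 25)⁻¹ := by
  have hpi := Real.pi_pos
  set K₀ : ℝ := 128 * 26 / κ with hK₀
  have hK₀0 : 0 < K₀ := by positivity
  filter_upwards [ev_log (Real.pi * D * K₀ ^ 2) 3, ev_log_ge 1, ev_log_ge (K₀⁻¹),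
    eventually_ge_atTop 2, ev_log (2 * B) 0, ev_log (64 * (Real.pi * D * K₀) / κ) 1,
    ev_log (K₀ / 2 / B) 1] with N h1 h3 h4 hN h5 h6 h7 μ e z p hμ he hz hp
  rw [pow_zero, mul_one] at h5
  rw [pow_one] at h6 h7
  haveI : ∀ i, IsProbabilityMeasure (μ i) := fun i => (hμ i).prob
  have hN2 : (2 : ℝ) ≤ N := by exact_mod_cast hN
  have hN0 : (0 : ℝ) < N := by linarith
  have hlog0 : 0 < Real.log N := by linarith
  have hT : 0 < T2 K₀ N := by unfold T2; positivity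
  have hTB : T2 K₀ N ≤ B := by
    unfold T2
    rw [div_mul_eq_mul_div, div_le_iff₀ (by linarith)] at h7
    rw [div_le_iff₀ (by positivity)]
    nlinarith
  have hKlog : 1 ≤ K₀ * Real.log N := by
    rw [inv_le_iff_one_le_mul₀ hK₀0] at h4
    linarith
  have hlogBT : Real.log (B / T2 K₀ N) ≤ 2 * Real.log N := by
    have h8 : B / T2 K₀ N ≤ (N : ℝ) ^ 2 := by
      unfold T2
      rw [div_div_eq_mul_div, div_le_iff₀ (by positivity)]
      have : B * (2 * N) ≤ N * N := by nlinarith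
      have : (N : ℝ) ^ 2 * 1 ≤ (N : ℝ) ^ 2 * (K₀ * Real.log N) := by gcongr
      nlinarith
    have h9 := Real.log_le_log (by positivity) h8
    rw [Real.log_pow] at h9
    exact_mod_cast h9
  have hnorm : ∀ i w, ‖(e i : ℂ) * ht (T2 K₀ N) w‖ ≤ (T2 K₀ N)⁻¹ := by
    intro i w
    rw [norm_mul]
    have : ‖((e i : ℤ) : ℂ)‖ = 1 := by rcases he i with h | h <;> simp [h]
    rw [this, one_mul]
    exact norm_ht_le hT w
  have hint : ∀ i, Integrable (fun x => (e i : ℂ) * ht (T2 K₀ N) (z - x)) (μ i) := fun i =>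
    Integrable.of_bound (((measurable_ht _).comp (by fun_prop)).const_mul _).aestronglyMeasurable
      (T2 K₀ N)⁻¹ (Eventually.of_forall fun x => hnorm i _)
  have hmeas : ∀ i, Measurable fun x : ℂ => p ((e i : ℂ) * ht (T2 K₀ N) (z - x)) := fun i =>
    p.continuous.measurable.comp
      (((measurable_ht _).comp (by fun_prop : Measurable fun x : ℂ => z - x)).const_mul _)
  have hbias : Real.pi * D * (K₀ * Real.log N) ≤ κ * N / 64 := by
    rw [div_mul_eq_mul_div, div_le_iff₀ hκ] at h6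
    linarith
  have hmain := chern2 μ (Y := fun i x => p ((e i : ℂ) * ht (T2 K₀ N) (z - x))) hmeas
    (M := (T2 K₀ N)⁻¹) (M' := (T2 K₀ N)⁻¹)
    (s := 4 * Real.pi * D * Real.log N) (t := κ * N / 64) (b := κ * N / 64) (u := κ * N / 16)
    (c := p (MG μ e z)) (fun i x => (hp _).trans (hnorm i _)) le_rfl (by positivity)
    (fun i => by
      have hs := (hμ i).second z hT hTB hz
      refine le_trans ?_ (hs.trans ?_)
      · refine integral_mono_of_nonneg (Eventually.of_forall fun x => by positivity) ?_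
          (Eventually.of_forall fun x => ?_)
        · have hmm : Measurable fun w => ‖ht (T2 K₀ N) (z - w)‖ ^ 2 :=
            ((measurable_ht _).comp (by fun_prop : Measurable fun w : ℂ => z - w)).norm.pow_const 2
          refine Integrable.of_bound hmm.aestronglyMeasurable ((T2 K₀ N)⁻¹ ^ 2)
            (Eventually.of_forall fun x => ?_)
          rw [Real.norm_eq_abs, abs_of_nonneg (by positivity)]
          exact pow_le_pow_left₀ (norm_nonneg _) (norm_ht_le hT _) 2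
        · have h8 := hp ((e i : ℂ) * ht (T2 K₀ N) (z - x))
          have : ‖((e i : ℤ) : ℂ)‖ = 1 := by rcases he i with h | h <;> simp [h]
          rw [norm_mul, this, one_mul] at h8
          exact sq_le_sq' (by have := (abs_le.1 h8).1; linarith) (abs_le.1 h8).2
      · have : 2 * Real.pi * D * Real.log (B / T2 K₀ N) ≤ 2 * Real.pi * D * (2 * Real.log N) := by
          gcongr
        linarith)
    (by
      have h8 : ∀ i, ∫ x, p ((e i : ℂ) * ht (T2 K₀ N) (z - x)) ∂μ i =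
          p (∫ x, (e i : ℂ) * ht (T2 K₀ N) (z - x) ∂μ i) := fun i =>
        p.integral_comp_comm (hint i)
      simp_rw [h8]
      rw [← map_sum, ← map_sub]
      refine (hp _).trans (le_trans ?_ hbias)
      unfold MG
      rw [← Finset.sum_sub_distrib]
      refine (norm_sum_le _ _).trans ?_
      have : ∀ i, ‖(∫ x, (e i : ℂ) * ht (T2 K₀ N) (z - x) ∂μ i) - (e i : ℂ) * GG (μ i) z‖ ≤
          2 * Real.pi * D * T2 K₀ N := by
        intro i
        have h9 : ‖((e i : ℤ) : ℂ)‖ = 1 := by rcases he i with h | h <;> simp [h]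
        rw [integral_const_mul, ← mul_sub, norm_mul, h9, one_mul]
        exact (hμ i).bias_cauchy z hT
      refine (Finset.sum_le_sum fun i _ => this i).trans (le_of_eq ?_)
      simp only [Finset.sum_const, Finset.card_univ, Fintype.card_fin, nsmul_eq_mul]
      unfold T2
      field_simp)
    (by
      have : 0 ≤ κ * N := by positivity
      linarith)
  refine hmain.trans (mul_le_mul_right (ENNReal.ofReal_le_ofReal
    (exp_log_pow (by omega) 25 ?_)) 2)
  have e1 : (N : ℝ) * (4 * Real.pi * D * Real.log N) / ((T2 K₀ N)⁻¹) ^ 2 -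
      κ * N / 64 / (T2 K₀ N)⁻¹ =
      Real.pi * D * K₀ ^ 2 * Real.log N ^ 3 / N - κ * K₀ * Real.log N / 128 := by
    unfold T2
    field_simp
    ring
  rw [e1]
  have e2 : κ * K₀ * Real.log N / 128 = 26 * Real.log N := by
    rw [hK₀]
    field_simp
  rw [e2]
  have e3 : Real.pi * D * K₀ ^ 2 * Real.log N ^ 3 / N ≤ 1 := by
    rw [div_le_one hN0]
    exact h1
  push_cast
  linarith

/-- the constant in the level of truncation -/
noncomputable def KK (κ : ℝ) : ℝ := 128 * 26 / κ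

/-- some sum is far from its mean at some point of the net -/
def NetBad {N : ℕ} (μ : Fin N → Measure ℂ) (e : Fin N → ℤ) (a : ℂ) (B κ Rp : ℝ) :
    Set (Fin N → ℂ) :=
  {X | ∃ z ∈ net Rp ((N : ℝ) ^ 9)⁻¹,
    κ * N / 8 ≤ |∑ i, (e i : ℝ) * lt (T1 N) B (z - X i) - (MU μ e a z - Real.log ‖a‖)| ∨
    κ * N / 8 ≤ ‖∑ i, (e i : ℂ) * ht (T2 (KK κ) N) (z - X i) - MG μ e z‖}

theorem net_norm {Rp h : ℝ} (hh : 0 < h) (hR : 0 ≤ Rp) {z : ℂ} (hz : z ∈ net Rp h) :
    ‖z‖ ≤ 2 * (Rp + h) := by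
  rw [net, Finset.mem_image] at hz
  obtain ⟨⟨p, q⟩, hpq, rfl⟩ := hz
  rw [Finset.mem_product, Finset.mem_Icc, Finset.mem_Icc] at hpq
  have h3 : (⌈Rp / h⌉ : ℝ) ≤ Rp / h + 1 := (Int.ceil_lt_add_one _).le
  have key : ∀ k : ℤ, -⌈Rp / h⌉ ≤ k → k ≤ ⌈Rp / h⌉ → |h * (k : ℝ)| ≤ Rp + h := by
    intro k h1 h2
    have h4 : (-(⌈Rp / h⌉ : ℝ)) ≤ k := by exact_mod_cast h1
    have h5 : (k : ℝ) ≤ ⌈Rp / h⌉ := by exact_mod_cast h2
    rw [abs_mul, abs_of_pos hh]
    have h6 : |(k : ℝ)| ≤ Rp / h + 1 := by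
      rw [abs_le]
      constructor <;> linarith
    calc h * |(k : ℝ)| ≤ h * (Rp / h + 1) := by gcongr
      _ = Rp + h := by field_simp
  refine (Complex.norm_le_abs_re_add_abs_im _).trans ?_
  have h7 := key p hpq.1.1 hpq.1.2
  have h8 := key q hpq.2.1 hpq.2.2
  simp only
  linarith

theorem prob_net {D R B κ Rp : ℝ} (hD : 0 ≤ D) (hκ : 0 < κ) (hR : 0 ≤ R) (hRp : 0 ≤ Rp)
    (hB : 2 * Rp + 2 + R ≤ B) :
    ∀ᶠ N : ℕ in atTop, ∀ (μ : Fin N → Measure ℂ) (e : Fin N → ℤ) (a : ℂ),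
      (∀ i, Dens (μ i) D R) → (∀ i, e i = 1 ∨ e i = -1) →
      Measure.pi μ (NetBad μ e a B κ Rp) ≤ ENNReal.ofReal ((N : ℝ) ^ 4)⁻¹ := by
  filter_upwards [prob_log hD hκ (B := B) (R := R) (by linarith),
    prob_cauchy_part hD hκ (B := B) (R := R) (by linarith),
    eventually_ge_atTop 6, ev_log (2 * Rp + 3) 0] with N h1 h2 hN h3 μ e a hμ he
  rw [pow_zero, mul_one] at h3
  have hN6 : (6 : ℝ) ≤ N := by exact_mod_cast hN
  have hN0 : (0 : ℝ) < N := by linarith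
  have hh : 0 < ((N : ℝ) ^ 9)⁻¹ := by positivity
  have hh1 : ((N : ℝ) ^ 9)⁻¹ ≤ 1 := inv_le_one_of_one_le₀ (one_le_pow₀ (by linarith))
  set q : ENNReal := ENNReal.ofReal ((N : ℝ) ^ 25)⁻¹ with hq
  have hpt : ∀ z ∈ net Rp ((N : ℝ) ^ 9)⁻¹, Measure.pi μ {X : Fin N → ℂ |
      κ * N / 8 ≤ |∑ i, (e i : ℝ) * lt (T1 N) B (z - X i) - (MU μ e a z - Real.log ‖a‖)| ∨
      κ * N / 8 ≤ ‖∑ i, (e i : ℂ) * ht (T2 (KK κ) N) (z - X i) - MG μ e z‖} ≤ 6 * q := by
    intro z hz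
    have hzB : ‖z‖ + R ≤ B := by
      have := net_norm hh hRp hz
      linarith
    have e1 := h1 μ e a z hμ he hzB
    have e2 := h2 μ e z Complex.reCLM hμ he hzB (fun w => Complex.abs_re_le_norm w)
    have e3 := h2 μ e z Complex.imCLM hμ he hzB (fun w => Complex.abs_im_le_norm w)
    have hsub : {X : Fin N → ℂ |
      κ * N / 8 ≤ |∑ i, (e i : ℝ) * lt (T1 N) B (z - X i) - (MU μ e a z - Real.log ‖a‖)| ∨
      κ * N / 8 ≤ ‖∑ i, (e i : ℂ) * ht (T2 (KK κ) N) (z - X i) - MG μ e z‖} ⊆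
      ({X | κ * N / 8 ≤ |∑ i, (e i : ℝ) * lt (T1 N) B (z - X i) -
        (MU μ e a z - Real.log ‖a‖)|} ∪
      {X | κ * N / 16 ≤ |∑ i, Complex.reCLM ((e i : ℂ) * ht (T2 (128 * 26 / κ) N) (z - X i)) -
        Complex.reCLM (MG μ e z)|}) ∪
      {X | κ * N / 16 ≤ |∑ i, Complex.imCLM ((e i : ℂ) * ht (T2 (128 * 26 / κ) N) (z - X i)) -
        Complex.imCLM (MG μ e z)|} := by
      intro X hX
      rcases hX with hX | hX
      · left; left; exact hX
      · have h5 := hX.trans (Complex.norm_le_abs_re_add_abs_im _)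
        have h6 : (∑ i, (e i : ℂ) * ht (T2 (KK κ) N) (z - X i) - MG μ e z).re =
            ∑ i, Complex.reCLM ((e i : ℂ) * ht (T2 (128 * 26 / κ) N) (z - X i)) -
              Complex.reCLM (MG μ e z) := by
          rw [← map_sum, ← map_sub]
          rfl
        have h7 : (∑ i, (e i : ℂ) * ht (T2 (KK κ) N) (z - X i) - MG μ e z).im =
            ∑ i, Complex.imCLM ((e i : ℂ) * ht (T2 (128 * 26 / κ) N) (z - X i)) -
              Complex.imCLM (MG μ e z) := by
          rw [← map_sum, ← map_sub]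
          rfl
        rw [h6, h7] at h5
        by_cases h8 : κ * N / 16 ≤ |∑ i, Complex.reCLM ((e i : ℂ) *
            ht (T2 (128 * 26 / κ) N) (z - X i)) - Complex.reCLM (MG μ e z)|
        · left; right; exact h8
        · right
          rw [not_le] at h8
          simp only [mem_ofPred_eq]
          linarith
    refine (measure_mono hsub).trans ((measure_union_le _ _).trans
      ((add_le_add_left (measure_union_le _ _) _).trans ?_))
    refine (add_le_add (add_le_add e1 e2) e3).trans (le_of_eq ?_)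
    ring
  have hsub : NetBad μ e a B κ Rp ⊆ ⋃ z ∈ net Rp ((N : ℝ) ^ 9)⁻¹, {X : Fin N → ℂ |
      κ * N / 8 ≤ |∑ i, (e i : ℝ) * lt (T1 N) B (z - X i) - (MU μ e a z - Real.log ‖a‖)| ∨
      κ * N / 8 ≤ ‖∑ i, (e i : ℂ) * ht (T2 (KK κ) N) (z - X i) - MG μ e z‖} := by
    rintro X ⟨z, hz, hX⟩
    exact mem_iUnion₂.2 ⟨z, hz, hX⟩
  refine (measure_mono hsub).trans ((measure_biUnion_finset_le _ _).trans
    ((Finset.sum_le_sum hpt).trans ?_))
  rw [Finset.sum_const, nsmul_eq_mul]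
  have hcard := net_card (Rp := Rp) hh hRp
  have h4 : 2 * (Rp / ((N : ℝ) ^ 9)⁻¹) + 3 ≤ (N : ℝ) ^ 10 := by
    rw [div_inv_eq_mul]
    have h5 : (1 : ℝ) ≤ (N : ℝ) ^ 9 := one_le_pow₀ (by linarith)
    calc 2 * (Rp * (N : ℝ) ^ 9) + 3 ≤ (2 * Rp + 3) * (N : ℝ) ^ 9 := by nlinarith
      _ ≤ N * (N : ℝ) ^ 9 := by gcongr
      _ = (N : ℝ) ^ 10 := by ring
  have h5 : ((net Rp ((N : ℝ) ^ 9)⁻¹).card : ℝ) ≤ (N : ℝ) ^ 20 := by
    refine hcard.trans ?_
    calc (2 * (Rp / ((N : ℝ) ^ 9)⁻¹) + 3) ^ 2 ≤ ((N : ℝ) ^ 10) ^ 2 := by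
          gcongr
      _ = (N : ℝ) ^ 20 := by ring
  have h6 : ((net Rp ((N : ℝ) ^ 9)⁻¹).card : ENNReal) ≤ ENNReal.ofReal ((N : ℝ) ^ 20) := by
    rw [← ENNReal.ofReal_natCast]
    exact ENNReal.ofReal_le_ofReal h5
  refine (mul_le_mul_left h6 (6 * q)).trans ?_
  have h7 : (6 : ENNReal) = ENNReal.ofReal 6 := by simp
  rw [hq, h7, ← ENNReal.ofReal_mul (by norm_num), ← ENNReal.ofReal_mul (by positivity)]
  refine ENNReal.ofReal_le_ofReal ?_
  have h8 : (N : ℝ) ^ 20 * (6 * ((N : ℝ) ^ 25)⁻¹) = 6 / N * ((N : ℝ) ^ 4)⁻¹ := by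
    field_simp
  rw [h8]
  have h9 : 6 / (N : ℝ) ≤ 1 := by rw [div_le_one hN0]; exact hN6
  have h10 : 0 < ((N : ℝ) ^ 4)⁻¹ := by positivity
  nlinarith

end Pool.Agent.N229.RL
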