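import Pool.Agent.N229.RL.Poly

/-!
# Multiplicities for rational functions
-/

set_option autoImplicit false

open Filter Topology MeasureTheory Set

namespace Pool.Agent.N229.RL

open Polynomial (C X derivative)

variable {N : ℕ}

theorem PJ_ne {a : ℂ} (ha : a ≠ 0) {x : Fin N → ℂ} {J : Finset (Fin N)} {y : ℂ}
    (h : ∀ j ∈ J, y ≠ x j) : (PJ a x J).eval y ≠ 0 := by
  rw [eval_PJ]
  exact gg_ne_zero ha h

theorem PJ_root {a : ℂ} {x : Fin N → ℂ} {J : Finset (Fin N)} {j : Fin N} (hj : j ∈ J) :
    (PJ a x J).eval (x j) = 0 := by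
  unfold PJ
  rw [Polynomial.eval_mul, Polynomial.eval_prod]
  refine mul_eq_zero_of_right _ (Finset.prod_eq_zero hj ?_)
  simp

theorem PJ_deriv_root {a : ℂ} (ha : a ≠ 0) {x : Fin N → ℂ} {J : Finset (Fin N)} {j : Fin N}
    (hj : j ∈ J) (h : ∀ k ∈ J, j ≠ k → x j ≠ x k) :
    (derivative (PJ a x J)).eval (x j) ≠ 0 := by
  have h1 : PJ a x J = (X - C (x j)) * PJ a x (J.erase j) := by
    unfold PJ
    rw [← Finset.mul_prod_erase J (fun k => X - C (x k)) hj]
    ring
  rw [h1, Polynomial.derivative_mul, Polynomial.derivative_sub, Polynomial.derivative_X,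
    Polynomial.derivative_C, sub_zero, one_mul, Polynomial.eval_add, Polynomial.eval_mul,
    Polynomial.eval_sub, Polynomial.eval_X, Polynomial.eval_C, sub_self, zero_mul, add_zero]
  refine PJ_ne ha fun k hk => ?_
  exact h k (Finset.mem_of_mem_erase hk) (Finset.ne_of_mem_erase hk).symm

theorem gg_split {a : ℂ} {e : Fin N → ℤ} (he : ∀ i, e i = 1 ∨ e i = -1) (x : Fin N → ℂ)
    (J : Finset (Fin N)) (y : ℂ) :
    gg a e x J y = gg a one x (J.filter fun j => e j = 1) y /
      gg 1 one x (J.filter fun j => ¬ e j = 1) y := by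
  unfold gg one
  rw [← Finset.prod_filter_mul_prod_filter_not J (fun j => e j = 1) fun j => (y - x j) ^ e j]
  have h1 : ∏ j ∈ J.filter (fun j => e j = 1), (y - x j) ^ e j =
      ∏ j ∈ J.filter (fun j => e j = 1), (y - x j) ^ (1 : ℤ) :=
    Finset.prod_congr rfl fun j hj => by rw [(Finset.mem_filter.1 hj).2]
  have h2 : ∏ j ∈ J.filter (fun j => ¬ e j = 1), (y - x j) ^ e j =
      (∏ j ∈ J.filter (fun j => ¬ e j = 1), (y - x j) ^ (1 : ℤ))⁻¹ := by
    rw [← Finset.prod_inv_distrib]
    refine Finset.prod_congr rfl fun j hj => ?_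
    rw [(he j).resolve_left (Finset.mem_filter.1 hj).2, zpow_neg]
  rw [h1, h2, one_mul, div_eq_mul_inv]
  ring

theorem SS_split {e : Fin N → ℤ} (he : ∀ i, e i = 1 ∨ e i = -1) (x : Fin N → ℂ)
    (J : Finset (Fin N)) (y : ℂ) :
    SS e x J y = SS one x (J.filter fun j => e j = 1) y -
      SS one x (J.filter fun j => ¬ e j = 1) y := by
  unfold SS one
  rw [← Finset.sum_filter_add_sum_filter_not J (fun j => e j = 1) fun j => (e j : ℂ) / (y - x j),
    sub_eq_add_neg, ← Finset.sum_neg_distrib]
  congr 1
  · exact Finset.sum_congr rfl fun j hj => by rw [(Finset.mem_filter.1 hj).2]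
  · refine Finset.sum_congr rfl fun j hj => ?_
    rw [(he j).resolve_left (Finset.mem_filter.1 hj).2]
    push_cast
    ring

/-- the multiplicities in the rational case -/
theorem multOK_rat {a : ℂ} (ha : a ≠ 0) {e : Fin N → ℤ} (he : ∀ i, e i = 1 ∨ e i = -1)
    (x : Fin N → ℂ) (i : Fin N) (hinj : ∀ j ∈ Jn i, ∀ k ∈ Jn i, j ≠ k → x j ≠ x k)
    (hp : 2 ≤ ((Jn i).filter fun j => e j = 1).card)
    (hm : 1 ≤ ((Jn i).filter fun j => ¬ e j = 1).card)
    (hm2 : e i = -1 → 2 * ((Jn i).filter fun j => ¬ e j = 1).card ≤ N) :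
    MultOK x e a i (2 * N) := by
  set Jp := (Jn i).filter fun j => e j = 1 with hJp
  set Jm := (Jn i).filter fun j => ¬ e j = 1 with hJm
  have hcard : Jp.card + Jm.card = N - 1 := by
    rw [hJp, hJm, Finset.card_filter_add_card_filter_not, card_J]
  have hN : 1 ≤ N := by omega
  have hsubp : ∀ j ∈ Jp, j ∈ Jn i := fun j hj => (Finset.mem_filter.1 hj).1
  have hsubm : ∀ j ∈ Jm, j ∈ Jn i := fun j hj => (Finset.mem_filter.1 hj).1
  have hdisj : ∀ j ∈ Jp, ∀ k ∈ Jm, j ≠ k := by
    intro j hj k hk h
    rw [h] at hj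
    exact (Finset.mem_filter.1 hk).2 (Finset.mem_filter.1 hj).2
  set A := PJ a x Jp with hA
  set B := PJ 1 x Jm with hB
  set W := derivative A * B - A * derivative B with hW
  have dA : A.natDegree ≤ Jp.card := by rw [hA, natDegree_PJ ha]
  have dB : B.natDegree ≤ Jm.card := by rw [hB, natDegree_PJ one_ne_zero]
  have dW : W.natDegree ≤ N - 1 := by
    rw [hW]
    refine (Polynomial.natDegree_sub_le_of_le (Polynomial.natDegree_mul_le_of_le
      ((Polynomial.natDegree_derivative_le A).trans (Nat.sub_le_sub_right dA 1)) dB)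
      (Polynomial.natDegree_mul_le_of_le dA
      ((Polynomial.natDegree_derivative_le B).trans (Nat.sub_le_sub_right dB 1)))).trans ?_
    omega
  -- values at a zero and at a pole
  obtain ⟨j₀, hj₀⟩ : Jm.Nonempty := Finset.card_pos.1 (by omega)
  obtain ⟨j₁, hj₁, j₂, hj₂, hj₁₂⟩ := Finset.one_lt_card.1 (by omega : 1 < Jp.card)
  have Ap : ∀ j ∈ Jp, A.eval (x j) = 0 := fun j hj => PJ_root hj
  have Bm : ∀ j ∈ Jm, B.eval (x j) = 0 := fun j hj => PJ_root hj
  have Am : ∀ j ∈ Jm, A.eval (x j) ≠ 0 := fun j hj => PJ_ne ha fun k hk =>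
    hinj j (hsubm j hj) k (hsubp k hk) (hdisj k hk j hj).symm
  have Bp : ∀ j ∈ Jp, B.eval (x j) ≠ 0 := fun j hj => PJ_ne one_ne_zero fun k hk =>
    hinj j (hsubp j hj) k (hsubm k hk) (hdisj j hj k hk)
  have A'p : ∀ j ∈ Jp, (derivative A).eval (x j) ≠ 0 := fun j hj => PJ_deriv_root ha hj
    fun k hk hjk => hinj j (hsubp j hj) k (hsubp k hk) hjk
  have B'm : ∀ j ∈ Jm, (derivative B).eval (x j) ≠ 0 := fun j hj => PJ_deriv_root one_ne_zero hj
    fun k hk hjk => hinj j (hsubm j hj) k (hsubm k hk) hjk
  have Wp : ∀ j ∈ Jp, W.eval (x j) ≠ 0 := by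
    intro j hj
    rw [hW, Polynomial.eval_sub, Polynomial.eval_mul, Polynomial.eval_mul, Ap j hj, zero_mul,
      sub_zero]
    exact mul_ne_zero (A'p j hj) (Bp j hj)
  have Wm : ∀ j ∈ Jm, W.eval (x j) ≠ 0 := by
    intro j hj
    rw [hW, Polynomial.eval_sub, Polynomial.eval_mul, Polynomial.eval_mul, Bm j hj, mul_zero,
      zero_sub]
    exact neg_ne_zero.2 (mul_ne_zero (Am j hj) (B'm j hj))
  -- values at the other points
  have evA : ∀ y, (∀ j ∈ Jn i, y ≠ x j) → A.eval y ≠ 0 := fun y hy =>
    PJ_ne ha fun j hj => hy j (hsubp j hj)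
  have evB : ∀ y, (∀ j ∈ Jn i, y ≠ x j) → B.eval y ≠ 0 := fun y hy =>
    PJ_ne one_ne_zero fun j hj => hy j (hsubm j hj)
  have evg : ∀ y, gg a e x (Jn i) y = A.eval y / B.eval y := by
    intro y
    rw [gg_split he, hA, hB, eval_PJ, eval_PJ]
  have evS : ∀ y, (∀ j ∈ Jn i, y ≠ x j) →
      W.eval y = A.eval y * B.eval y * SS e x (Jn i) y := by
    intro y hy
    rw [SS_split he, hW, Polynomial.eval_sub, Polynomial.eval_mul, Polynomial.eval_mul, hA, hB,
      deriv_PJ a x _ fun j hj => hy j (hsubp j hj),
      deriv_PJ 1 x _ fun j hj => hy j (hsubm j hj), eval_PJ, eval_PJ]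
    ring
  refine ⟨fun w => ?_, fun w => ?_, fun w => ?_⟩
  · refine encard_roots (Q := A - C w * B) ?_ ?_ ?_
    · intro h
      have h1 := congrArg (Polynomial.eval (x j₀)) h
      rw [Polynomial.eval_sub, Polynomial.eval_mul, Bm j₀ hj₀, mul_zero, sub_zero,
        Polynomial.eval_zero] at h1
      exact Am j₀ hj₀ h1
    · refine (Polynomial.natDegree_sub_le_of_le dA
        ((Polynomial.natDegree_C_mul_le _ _).trans dB)).trans ?_
      omega
    · rintro y ⟨hy1, hy2⟩
      rw [evg, div_eq_iff (evB y hy1)] at hy2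
      rw [Polynomial.eval_sub, Polynomial.eval_mul, Polynomial.eval_C, hy2, sub_self]
  · rcases he i with hi | hi
    · refine encard_roots (Q := A ^ 2 + C w * W) ?_ ?_ ?_
      · intro h
        have h1 := congrArg (Polynomial.eval (x j₁)) h
        rw [Polynomial.eval_add, Polynomial.eval_pow, Ap j₁ hj₁, Polynomial.eval_mul,
          Polynomial.eval_C, Polynomial.eval_zero] at h1
        have hw : w = 0 := by
          have h4 : w = 0 ∨ W.eval (x j₁) = 0 := by simpa using h1
          rcases h4 with h2 | h2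
          · exact h2
          · exact absurd h2 (Wp j₁ hj₁)
        have h3 := congrArg (Polynomial.eval (x j₀)) h
        rw [hw, Polynomial.eval_add, Polynomial.eval_pow, Polynomial.eval_mul,
          Polynomial.eval_C, zero_mul, add_zero, Polynomial.eval_zero] at h3
        exact Am j₀ hj₀ (pow_eq_zero_iff (by norm_num) |>.1 h3)
      · refine (Polynomial.natDegree_add_le_of_le (Polynomial.natDegree_pow_le_of_le 2 dA)
          ((Polynomial.natDegree_C_mul_le _ _).trans dW)).trans ?_
        omega
      · rintro y ⟨hy1, hy2, hy3⟩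
        have e1 := evA y hy1
        have e2 := evB y hy1
        have e3 := evS y hy1
        unfold VV at hy3
        rw [hi, evg] at hy3
        rw [Polynomial.eval_add, Polynomial.eval_pow, Polynomial.eval_mul, Polynomial.eval_C,
          ← hy3, e3]
        simp only [Int.cast_one, zpow_neg, zpow_one]
        field_simp
        ring
    · refine encard_roots (Q := W - C w * B ^ 2) ?_ ?_ ?_
      · intro h
        have h1 := congrArg (Polynomial.eval (x j₀)) h
        rw [Polynomial.eval_sub, Polynomial.eval_mul, Polynomial.eval_pow, Bm j₀ hj₀,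
          Polynomial.eval_zero] at h1
        exact Wm j₀ hj₀ (by simpa using h1)
      · refine (Polynomial.natDegree_sub_le_of_le dW
          ((Polynomial.natDegree_C_mul_le _ _).trans
            (Polynomial.natDegree_pow_le_of_le 2 dB))).trans ?_
        omega
      · rintro y ⟨hy1, hy2, hy3⟩
        have e1 := evA y hy1
        have e2 := evB y hy1
        have e3 := evS y hy1
        unfold VV at hy3
        rw [hi, evg] at hy3
        rw [Polynomial.eval_sub, Polynomial.eval_mul, Polynomial.eval_pow, Polynomial.eval_C,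
          ← hy3, e3]
        simp only [Int.cast_neg, Int.cast_one, neg_neg, zpow_one]
        field_simp
        ring
  · rcases he i with hi | hi
    · refine encard_roots (Q := A ^ 2 + (X + C w) * W + A * B) ?_ ?_ ?_
      · intro h
        have key : ∀ j ∈ Jp, w = -x j := by
          intro j hj
          have h1 := congrArg (Polynomial.eval (x j)) h
          rw [Polynomial.eval_add, Polynomial.eval_add, Polynomial.eval_pow, Ap j hj,
            Polynomial.eval_mul, Polynomial.eval_mul, Ap j hj, Polynomial.eval_add,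
            Polynomial.eval_C, Polynomial.eval_X, Polynomial.eval_zero] at h1
          have h4 : x j + w = 0 ∨ W.eval (x j) = 0 := by simpa using h1
          rcases h4 with h2 | h2
          · linear_combination h2
          · exact absurd h2 (Wp j hj)
        have h1 := key j₁ hj₁
        have h2 := key j₂ hj₂
        refine hinj j₁ (hsubp j₁ hj₁) j₂ (hsubp j₂ hj₂) hj₁₂ ?_
        linear_combination h1 - h2
      · refine (Polynomial.natDegree_add_le_of_le (Polynomial.natDegree_add_le_of_le
          (Polynomial.natDegree_pow_le_of_le 2 dA) (Polynomial.natDegree_mul_le_of_le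
          (Polynomial.natDegree_X_add_C w).le dW))
          (Polynomial.natDegree_mul_le_of_le dA dB)).trans ?_
        omega
      · rintro y ⟨hy1, hy2, hy3⟩
        have e1 := evA y hy1
        have e2 := evB y hy1
        have e3 := evS y hy1
        unfold VV FF at hy3
        rw [hi, evg] at hy3
        rw [Polynomial.eval_add, Polynomial.eval_add, Polynomial.eval_pow, Polynomial.eval_mul,
          Polynomial.eval_mul, Polynomial.eval_add, Polynomial.eval_C, Polynomial.eval_X,
          ← hy3, e3]
        simp only [Int.cast_one, zpow_neg, zpow_one]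
        field_simp
        ring
    · refine encard_roots (Q := W ^ 2 - (X + C w) * (B ^ 2 * W) + A * B ^ 3) ?_ ?_ ?_
      · intro h
        have h1 := congrArg (Polynomial.eval (x j₀)) h
        rw [Polynomial.eval_add, Polynomial.eval_sub, Polynomial.eval_pow, Polynomial.eval_mul,
          Polynomial.eval_mul, Polynomial.eval_mul, Polynomial.eval_pow, Polynomial.eval_pow,
          Bm j₀ hj₀, Polynomial.eval_zero] at h1
        exact Wm j₀ hj₀ (pow_eq_zero_iff (two_ne_zero) |>.1 (by simpa using h1))
      · have h2 := hm2 hi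
        refine (Polynomial.natDegree_add_le_of_le (Polynomial.natDegree_sub_le_of_le
          (Polynomial.natDegree_pow_le_of_le 2 dW) (Polynomial.natDegree_mul_le_of_le
          (Polynomial.natDegree_X_add_C w).le (Polynomial.natDegree_mul_le_of_le
            (Polynomial.natDegree_pow_le_of_le 2 dB) dW)))
          (Polynomial.natDegree_mul_le_of_le dA
            (Polynomial.natDegree_pow_le_of_le 3 dB))).trans ?_
        omega
      · rintro y ⟨hy1, hy2, hy3⟩
        have e1 := evA y hy1
        have e2 := evB y hy1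
        have e3 := evS y hy1
        unfold VV FF at hy3
        rw [hi, evg] at hy3
        rw [Polynomial.eval_add, Polynomial.eval_sub, Polynomial.eval_pow, Polynomial.eval_mul,
          Polynomial.eval_mul, Polynomial.eval_mul, Polynomial.eval_add, Polynomial.eval_pow,
          Polynomial.eval_pow, Polynomial.eval_C, Polynomial.eval_X, ← hy3, e3]
        simp only [Int.cast_neg, Int.cast_one, neg_neg, zpow_one]
        field_simp
        ring

end Pool.Agent.N229.RL
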