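import Pool.Agent.N229.RL.Bset

/-!
# The sections of the bad events
-/

set_option autoImplicit false

open Filter Topology MeasureTheory Set

namespace Pool.Agent.N229.RL

variable {N : ℕ}

/-- bounds and separation of the points -/
structure Base (R : ℝ) (X : Fin N → ℂ) : Prop where
  le : ∀ j, ‖X j‖ ≤ R
  ge : ∀ j, (N : ℝ)⁻¹ ≤ ‖X j‖
  sep : ∀ j k, j ≠ k → ((N : ℝ) ^ 2)⁻¹ ≤ ‖X j - X k‖

/-- the same for the points other than `X i` -/
structure BaseI (R : ℝ) (X : Fin N → ℂ) (i : Fin N) : Prop where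
  le : ∀ j ∈ Jn i, ‖X j‖ ≤ R
  ge : ∀ j ∈ Jn i, (N : ℝ)⁻¹ ≤ ‖X j‖
  sep : ∀ j ∈ Jn i, ∀ k ∈ Jn i, j ≠ k → ((N : ℝ) ^ 2)⁻¹ ≤ ‖X j - X k‖

/-- a critical point near `X i` whose value is in the window -/
def E3 (A : ℕ) (R Rp κ : ℝ) (e : Fin N → ℤ) (a : ℂ) (i : Fin N) : Set (Fin N → ℂ) :=
  {X | Base R X ∧ ∃ c : ℂ, ‖c‖ ≤ Rp ∧ (∀ j, ((N : ℝ) ^ 4)⁻¹ ≤ ‖c - X j‖) ∧
    SS e X Finset.univ c = 0 ∧ ‖c - X i‖ ≤ KK κ * Real.log N / N ∧
    gg a e X Finset.univ c ∈ B1 A Rp X e a i}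

/-- a critical point near `X i` whose value is extremely close to `X i` -/
def E4 (R Rp κ : ℝ) (e : Fin N → ℤ) (a : ℂ) (i : Fin N) : Set (Fin N → ℂ) :=
  {X | Base R X ∧ ∃ c : ℂ, ‖c‖ ≤ Rp ∧ (∀ j, ((N : ℝ) ^ 4)⁻¹ ≤ ‖c - X j‖) ∧
    SS e X Finset.univ c = 0 ∧ ‖c - X i‖ ≤ KK κ * Real.log N / N ∧
    ((N : ℝ) ^ 4)⁻¹ ≤ ‖gg a e X Finset.univ c‖ ∧ ‖gg a e X Finset.univ c‖ ≤ Rp ∧
    ‖gg a e X Finset.univ c - X i‖ ≤ ((N : ℝ) ^ 4)⁻¹}

/-- bounds for the multiplicities -/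
structure MultOK (X : Fin N → ℂ) (e : Fin N → ℤ) (a : ℂ) (i : Fin N) (m : ℕ) : Prop where
  m1 : ∀ w, Set.encard {z : ℂ | (∀ j ∈ Jn i, z ≠ X j) ∧ gg a e X (Jn i) z = w} ≤ m
  m2 : ∀ w, Set.encard {z : ℂ | (∀ j ∈ Jn i, z ≠ X j) ∧ SS e X (Jn i) z ≠ 0 ∧
    VV (e i) (gg a e X (Jn i)) (SS e X (Jn i)) z = w} ≤ m
  m3 : ∀ w, Set.encard {z : ℂ | (∀ j ∈ Jn i, z ≠ X j) ∧ SS e X (Jn i) z ≠ 0 ∧
    VV (e i) (gg a e X (Jn i)) (SS e X (Jn i)) z - FF (e i) (SS e X (Jn i)) z = w} ≤ m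

theorem gg_congr {a : ℂ} {e : Fin N → ℤ} {X Y : Fin N → ℂ} {J : Finset (Fin N)}
    (h : ∀ j ∈ J, X j = Y j) : gg a e X J = gg a e Y J := by
  funext z
  unfold gg
  congr 1
  exact Finset.prod_congr rfl fun j hj => by rw [h j hj]

theorem SS_congr {e : Fin N → ℤ} {X Y : Fin N → ℂ} {J : Finset (Fin N)}
    (h : ∀ j ∈ J, X j = Y j) : SS e X J = SS e Y J := by
  funext z
  unfold SS
  exact Finset.sum_congr rfl fun j hj => by rw [h j hj]

theorem upd_eq (X : Fin N → ℂ) (i : Fin N) (x : ℂ) :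
    ∀ j ∈ Jn i, Function.update X i x j = X j := fun j hj => by
  unfold Jn at hj
  rw [Function.update_of_ne (Finset.ne_of_mem_erase hj)]

theorem B1_upd {A : ℕ} {Rp : ℝ} {e : Fin N → ℤ} {a : ℂ} (X : Fin N → ℂ) (i : Fin N) (x : ℂ) :
    B1 A Rp (Function.update X i x) e a i = B1 A Rp X e a i := by
  unfold B1
  rw [gg_congr (upd_eq X i x)]
  ext v
  simp only [mem_ofPred_eq]
  have h1 : (∃ j ∈ Jn i, ‖v - Function.update X i x j‖ ≤ ((N : ℝ) ^ 4)⁻¹) ↔
      ∃ j ∈ Jn i, ‖v - X j‖ ≤ ((N : ℝ) ^ 4)⁻¹ := by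
    constructor <;> rintro ⟨j, hj, h⟩ <;> refine ⟨j, hj, ?_⟩
    · rwa [upd_eq X i x j hj] at h
    · rwa [upd_eq X i x j hj]
  have h2 : (∀ j ∈ Jn i, ((N : ℝ) ^ 4)⁻¹ ≤ ‖v - Function.update X i x j‖) ↔
      ∀ j ∈ Jn i, ((N : ℝ) ^ 4)⁻¹ ≤ ‖v - X j‖ := by
    constructor <;> intro h j hj
    · have := h j hj
      rwa [upd_eq X i x j hj] at this
    · rw [upd_eq X i x j hj]
      exact h j hj
  rw [h1, h2]

theorem gg_univ {a : ℂ} {e : Fin N → ℤ} (X : Fin N → ℂ) (i : Fin N) (z : ℂ) :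
    gg a e X Finset.univ z = (z - X i) ^ e i * gg a e X (Jn i) z := by
  unfold gg Jn
  rw [← Finset.mul_prod_erase _ _ (Finset.mem_univ i)]
  ring

theorem SS_univ {e : Fin N → ℤ} (X : Fin N → ℂ) (i : Fin N) (z : ℂ) :
    SS e X Finset.univ z = (e i : ℂ) / (z - X i) + SS e X (Jn i) z := by
  unfold SS Jn
  rw [← Finset.add_sum_erase _ _ (Finset.mem_univ i)]

/-- the critical point equation, solved for one of the points -/
theorem crit_rel {a : ℂ} {e : Fin N → ℤ} (he : ∀ i, e i = 1 ∨ e i = -1) (X : Fin N → ℂ)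
    (i : Fin N) {c : ℂ} (hc : c ≠ X i) (h : SS e X Finset.univ c = 0) :
    SS e X (Jn i) c ≠ 0 ∧ FF (e i) (SS e X (Jn i)) c = X i ∧
    VV (e i) (gg a e X (Jn i)) (SS e X (Jn i)) c = gg a e X Finset.univ c := by
  rw [SS_univ X i] at h
  have hc' : c - X i ≠ 0 := sub_ne_zero.2 hc
  have h1 : SS e X (Jn i) c = -((e i : ℂ) / (c - X i)) := by linear_combination h
  have hei : (e i : ℂ) ≠ 0 := by rcases he i with h2 | h2 <;> simp [h2]
  refine ⟨?_, ?_, ?_⟩
  · rw [h1]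
    exact neg_ne_zero.2 (div_ne_zero hei hc')
  · unfold FF
    rw [h1]
    field_simp
    ring
  · rw [gg_univ X i]
    unfold VV
    rw [h1]
    rcases he i with h2 | h2
    · simp only [h2, Int.cast_one, zpow_neg, zpow_one]
      field_simp
    · simp only [h2, Int.cast_neg, Int.cast_one, neg_neg, zpow_one, zpow_neg]
      field_simp

theorem Base.baseI {R : ℝ} {X : Fin N → ℂ} {i : Fin N} {x : ℂ}
    (h : Base R (Function.update X i x)) : BaseI R X i := by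
  refine ⟨fun j hj => ?_, fun j hj => ?_, fun j hj k hk hjk => ?_⟩
  · have := h.le j
    rwa [upd_eq X i x j hj] at this
  · have := h.ge j
    rwa [upd_eq X i x j hj] at this
  · have := h.sep j k hjk
    rwa [upd_eq X i x j hj, upd_eq X i x k hk] at this

theorem Dens.dens' {μ : Measure ℂ} {D R : ℝ} (h : Dens μ D R) (s : Set ℂ) :
    μ s ≤ ENNReal.ofReal D * volume s := by
  rw [← measure_toMeasurable (μ := volume) s]
  exact (measure_mono (subset_toMeasurable _ _)).trans (h.dens _ (measurableSet_toMeasurable _ _))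

theorem measurable_VV {a : ℂ} {e : Fin N → ℤ} {X : Fin N → ℂ} {J : Finset (Fin N)}
    (he : ∀ i, e i = 1 ∨ e i = -1) (i : Fin N) :
    Measurable (VV (e i) (gg a e X J) (SS e X J)) := by
  have hg := measurable_gg (a := a) (X := X) (J := J) he
  have hS := measurable_SS (e := e) (X := X) (J := J)
  unfold VV
  rcases he i with h | h
  · simp only [h, zpow_neg, zpow_one]
    fun_prop
  · simp only [h, neg_neg, zpow_one]
    fun_prop

theorem measurable_FF {e : Fin N → ℤ} {X : Fin N → ℂ} {J : Finset (Fin N)} (i : Fin N) :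
    Measurable (FF (e i) (SS e X J)) := by
  have hS := measurable_SS (e := e) (X := X) (J := J)
  unfold FF
  fun_prop

theorem isOpen_Om (X : Fin N → ℂ) (e : Fin N → ℤ) (i : Fin N) :
    IsOpen {z : ℂ | (∀ j ∈ Jn i, z ≠ X j) ∧ SS e X (Jn i) z ≠ 0} := by
  have hΩo : IsOpen {z : ℂ | ∀ j ∈ Jn i, z ≠ X j} := by
    have : {z : ℂ | ∀ j ∈ Jn i, z ≠ X j} = ⋂ j ∈ Jn i, {X j}ᶜ := by
      ext z
      simp
    rw [this]
    exact isOpen_biInter_finset fun j _ => isOpen_compl_singleton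
  have hc : ContinuousOn (SS e X (Jn i)) {z : ℂ | ∀ j ∈ Jn i, z ≠ X j} := fun z hz =>
    (hasDerivAt_SS hz).continuousAt.continuousWithinAt
  exact hc.isOpen_inter_preimage hΩo isOpen_compl_singleton

theorem sect3 {R B κ Rp δ D : ℝ} (A : ℕ) (hκ : 0 < κ) (hR : 0 ≤ R) (hRp : 0 ≤ Rp)
    (hB : 2 * Rp + 2 + R ≤ B) (hδ : 0 < δ) (hD : 0 ≤ D) :
    ∃ C : ℝ, 0 < C ∧ ∀ᶠ N : ℕ in atTop, ∀ (μ : Fin N → Measure ℂ) (e : Fin N → ℤ) (a : ℂ)
      (X : Fin N → ℂ) (i : Fin N), (∀ i, e i = 1 ∨ e i = -1) → a ≠ 0 → Dens (μ i) D R →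
      BaseI R X i → X ∉ NetBad μ e a B κ Rp → Reg μ e a κ Rp δ → MultOK X e a i (2 * N) →
      μ i {x | Function.update X i x ∈ E3 A R Rp κ e a i} ≤
        ENNReal.ofReal (C * Real.log N ^ 4 / N ^ 2) := by
  obtain ⟨C, hC, hC'⟩ := B1_log A hκ hR hRp hB hδ
  have hK0 : 0 < KK κ := by unfold KK; positivity
  refine ⟨2 * (D + 1) * KK κ ^ 2 * C, by positivity, ?_⟩
  filter_upwards [hC', eventually_ge_atTop 4, ev_log_ge 1] with
    N h1 hN h3 μ e a X i he ha hμ hX hbad hReg hm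
  have hN4 : (4 : ℝ) ≤ N := by exact_mod_cast hN
  have hN0 : (0 : ℝ) < N := by linarith
  have hlog : 0 < Real.log N := by linarith
  have h2 := h1 μ e a X i he ha hX.le hX.ge hbad hReg hm.m1
  set g := gg a e X (Jn i) with hg
  set S := SS e X (Jn i) with hS
  set Ω : Set ℂ := {z : ℂ | (∀ j ∈ Jn i, z ≠ X j) ∧ S z ≠ 0} with hΩ
  have hΩo : IsOpen Ω := isOpen_Om X e i
  set r : ℝ := KK κ * Real.log N / N with hr
  have hr0 : 0 < r := by rw [hr]; positivity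
  set P : Set ℂ := {z | z ∈ Ω ∧ ‖z - FF (e i) S z‖ ≤ r ∧ VV (e i) g S z ∈ B1 A Rp X e a i} with hP
  have hPm : MeasurableSet P := by
    have m1 : MeasurableSet {z : ℂ | ‖z - FF (e i) S z‖ ≤ r} :=
      measurableSet_le (measurable_id.sub (measurable_FF i)).norm measurable_const
    have m2 : MeasurableSet {z : ℂ | VV (e i) g S z ∈ B1 A Rp X e a i} :=
      measurable_VV he i (measurable_B1 he)
    exact hΩo.measurableSet.inter (m1.inter m2)
  have hsub : {x | Function.update X i x ∈ E3 A R Rp κ e a i} ⊆ FF (e i) S '' P := by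
    rintro x ⟨hx, c, hc1, hc2, hc3, hc4, hc5⟩
    have hcx : c ≠ Function.update X i x i := by
      refine sub_ne_zero.1 (norm_pos_iff.1 (lt_of_lt_of_le ?_ (hc2 i)))
      positivity
    obtain ⟨k1, k2, k3⟩ := crit_rel (a := a) he (Function.update X i x) i hcx hc3
    rw [SS_congr (upd_eq X i x), ← hS] at k1 k2 k3
    rw [gg_congr (upd_eq X i x), ← hg] at k3
    rw [Function.update_self] at k2 hc4
    refine ⟨c, ⟨⟨fun j hj => ?_, k1⟩, ?_, ?_⟩, k2⟩
    · have h4 := hc2 j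
      rw [upd_eq X i x j hj] at h4
      refine sub_ne_zero.1 (norm_pos_iff.1 (lt_of_lt_of_le ?_ h4))
      positivity
    · rw [k2]
      exact hc4
    · rw [k3, ← B1_upd X i x]
      exact hc5
  have harea := area_F (Ω := Ω) hΩo hPm (fun z hz => hz.1) (measurable_B1 he)
    (B := B1 A Rp X e a i) (g := g) (S := S) (S' := SS' e X (Jn i))
    (fun z hz => hasDerivAt_gg hz.1) (fun z hz => hasDerivAt_SS hz.1)
    (fun z hz => ⟨gg_ne_zero ha hz.1, hz.2⟩) (he i) (r := r) (fun z hz => hz.2.1)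
    (fun z hz => hz.2.2) (2 * N) (fun w => by
      refine (Set.encard_le_encard ?_).trans (hm.m2 w)
      rintro z ⟨hz1, hz2⟩
      exact ⟨hz1.1.1, hz1.1.2, hz2⟩)
  refine (measure_mono hsub).trans ((hμ.dens' _).trans ?_)
  refine (mul_le_mul_right harea _).trans ?_
  refine (mul_le_mul_right (mul_le_mul_right (mul_le_mul_left h2 _) _) _).trans ?_
  rw [← ENNReal.ofReal_natCast (2 * N), ← ENNReal.ofReal_mul (by positivity),
    ← ENNReal.ofReal_mul (by positivity), ← ENNReal.ofReal_mul hD]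
  refine ENNReal.ofReal_le_ofReal ?_
  have e1 : D * (r ^ 2 * (C * Real.log N ^ 2 / N * ((2 * N : ℕ) : ℝ))) =
      2 * D * KK κ ^ 2 * C * (Real.log N ^ 4 / N ^ 2) := by
    rw [hr]
    push_cast
    field_simp
  have e2 : 2 * (D + 1) * KK κ ^ 2 * C * Real.log N ^ 4 / N ^ 2 =
      2 * (D + 1) * KK κ ^ 2 * C * (Real.log N ^ 4 / N ^ 2) := by ring
  rw [e1, e2]
  have e3 : 0 ≤ KK κ ^ 2 * C * (Real.log N ^ 4 / N ^ 2) := by positivity
  nlinarith

theorem sect4 {R B κ Rp δ D : ℝ} (hκ : 0 < κ) (hR : 0 ≤ R) (hRp : 1 ≤ Rp)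
    (hB : 2 * Rp + 2 + R ≤ B) (hδ : 0 < δ) (hD : 0 ≤ D) :
    ∀ᶠ N : ℕ in atTop, ∀ (μ : Fin N → Measure ℂ) (e : Fin N → ℤ) (a : ℂ)
      (X : Fin N → ℂ) (i : Fin N), (∀ i, e i = 1 ∨ e i = -1) → a ≠ 0 → Dens (μ i) D R →
      BaseI R X i → X ∉ NetBad μ e a B κ Rp → Reg μ e a κ Rp δ → MultOK X e a i (2 * N) →
      μ i {x | Function.update X i x ∈ E4 R Rp κ e a i} ≤
        ENNReal.ofReal (1 / N ^ 3) := by
  have hK0 : 0 < KK κ := by unfold KK; positivity
  have hpi := Real.pi_pos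
  filter_upwards [det_main hκ hR (by linarith) hB hδ, eventually_ge_atTop 4, ev_log_ge 1,
    ev_log (22 / κ) 1, ev_log_ge (Real.log Rp), ev_log (8 * KK κ / δ) 1, ev_log (8 / δ) 0,
    ev_log (2 * Real.pi * D) 0, ev_log (KK κ) 1] with
    N h1 hN h3 h4 h5 h6 h7 h8 h9 μ e a X i he ha hμ hX hbad hReg hm
  rw [pow_one] at h4 h6 h9
  rw [pow_zero, mul_one] at h7 h8
  have hN4 : (4 : ℝ) ≤ N := by exact_mod_cast hN
  have hN0 : (0 : ℝ) < N := by linarith
  have hlog : 0 < Real.log N := by linarith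
  set g := gg a e X (Jn i) with hg
  set S := SS e X (Jn i) with hS
  set Ω : Set ℂ := {z : ℂ | (∀ j ∈ Jn i, z ≠ X j) ∧ S z ≠ 0} with hΩ
  have hΩo : IsOpen Ω := isOpen_Om X e i
  set r : ℝ := KK κ * Real.log N / N with hr
  have hr0 : 0 < r := by rw [hr]; positivity
  set q : ℝ := ((N : ℝ) ^ 4)⁻¹ with hq
  have hq0 : 0 < q := by rw [hq]; positivity
  set P : Set ℂ := {z | z ∈ Ω ∧ ‖z - FF (e i) S z‖ ≤ r ∧
    ‖VV (e i) g S z - FF (e i) S z‖ ≤ q ∧ 1 ≤ ‖VV (e i) g S z * S z - 1‖} with hP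
  have hPm : MeasurableSet P := by
    have m1 := measurable_VV (a := a) (X := X) (J := Jn i) he i
    have m2 := measurable_FF (e := e) (X := X) (J := Jn i) i
    have m3 := measurable_SS (e := e) (X := X) (J := Jn i)
    have n1 : MeasurableSet {z : ℂ | ‖z - FF (e i) S z‖ ≤ r} :=
      measurableSet_le (measurable_id.sub m2).norm measurable_const
    have n2 : MeasurableSet {z : ℂ | ‖VV (e i) g S z - FF (e i) S z‖ ≤ q} :=
      measurableSet_le (m1.sub m2).norm measurable_const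
    have n3 : MeasurableSet {z : ℂ | 1 ≤ ‖VV (e i) g S z * S z - 1‖} :=
      measurableSet_le measurable_const ((m1.mul m3).sub measurable_const).norm
    exact hΩo.measurableSet.inter (n1.inter (n2.inter n3))
  have hsub : {x | Function.update X i x ∈ E4 R Rp κ e a i} ⊆ FF (e i) S '' P := by
    rintro x ⟨hx, c, hc1, hc2, hc3, hc4, hc5, hc6, hc7⟩
    have hcx : c ≠ Function.update X i x i := by
      refine sub_ne_zero.1 (norm_pos_iff.1 (lt_of_lt_of_le ?_ (hc2 i)))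
      positivity
    obtain ⟨k1, k2, k3⟩ := crit_rel (a := a) he (Function.update X i x) i hcx hc3
    rw [SS_congr (upd_eq X i x), ← hS] at k1 k2 k3
    rw [gg_congr (upd_eq X i x), ← hg] at k3
    rw [Function.update_self] at k2 hc4 hc7
    rw [← k3] at hc5 hc6 hc7
    have hcX : ∀ j ∈ Jn i, q ≤ ‖c - X j‖ := by
      intro j hj
      have h4 := hc2 j
      rwa [upd_eq X i x j hj] at h4
    have hcne : ∀ j ∈ Jn i, c ≠ X j := fun j hj =>
      sub_ne_zero.1 (norm_pos_iff.1 (hq0.trans_le (hcX j hj)))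
    refine ⟨c, ⟨⟨hcne, k1⟩, ?_, ?_, ?_⟩, k2⟩
    · rw [k2]
      exact hc4
    · rw [k2]
      exact hc7
    -- size of `S`
    have hSn := norm_sub_FF (he i) S c
    rw [k2] at hSn
    have hS0 : 0 < ‖S c‖ := norm_pos_iff.2 k1
    have hSlow : r⁻¹ ≤ ‖S c‖ := by
      rw [inv_le_comm₀ hr0 hS0, ← hSn]
      exact hc4
    have hSup : ‖S c‖ ≤ (N : ℝ) ^ 4 := by
      have h10 := hc2 i
      rw [Function.update_self, hSn] at h10
      exact (inv_le_inv₀ (by positivity) hS0).1 h10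
    have hgpos : 0 < ‖g c‖ := norm_pos_iff.2 (gg_ne_zero ha hcne)
    have hVpos : 0 < ‖VV (e i) g S c‖ := hq0.trans_le hc5
    have hVlog : |Real.log ‖VV (e i) g S c‖| ≤ 4 * Real.log N := by
      rw [abs_le]
      constructor
      · have h10 := Real.log_le_log hq0 hc5
        rw [hq, Real.log_inv, Real.log_pow] at h10
        exact_mod_cast h10
      · have h10 := Real.log_le_log hVpos hc6
        linarith
    have hrN : (N : ℝ)⁻¹ ≤ r⁻¹ := by
      refine inv_anti₀ hr0 ?_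
      rw [hr, div_le_iff₀ hN0]
      nlinarith
    have hSlog : |Real.log ‖S c‖| ≤ 4 * Real.log N := by
      rw [abs_le]
      constructor
      · have h10 := Real.log_le_log (by positivity) (hrN.trans hSlow)
        rw [Real.log_inv] at h10
        linarith
      · have h10 := Real.log_le_log hS0 hSup
        rw [Real.log_pow] at h10
        exact_mod_cast h10
    have hgV : ‖VV (e i) g S c‖ = ‖g c‖ * ‖S c‖ ^ (-(e i)) := by
      unfold VV
      rw [norm_mul, norm_mul, norm_neg, norm_sign (he i), one_mul, norm_zpow]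
    have hglog : |Real.log ‖g c‖| ≤ κ * N / 2 := by
      have h10 : Real.log ‖VV (e i) g S c‖ = Real.log ‖g c‖ + ((-(e i) : ℤ) : ℝ) *
          Real.log ‖S c‖ := by
        rw [hgV, Real.log_mul hgpos.ne' (zpow_ne_zero _ hS0.ne'), Real.log_zpow]
      have h11 : |((-(e i) : ℤ) : ℝ) * Real.log ‖S c‖| ≤ 4 * Real.log N := by
        rw [abs_mul]
        have : |((-(e i) : ℤ) : ℝ)| = 1 := by rcases he i with h | h <;> simp [h]
        rw [this, one_mul]
        exact hSlog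
      have h12 : Real.log ‖g c‖ = Real.log ‖VV (e i) g S c‖ -
          ((-(e i) : ℤ) : ℝ) * Real.log ‖S c‖ := by rw [h10]; ring
      rw [h12]
      refine (abs_sub _ _).trans ?_
      rw [div_mul_eq_mul_div, div_le_iff₀ hκ] at h4
      linarith
    obtain ⟨h10, -⟩ := h1 μ e a X (Jn i) c he ha hX.le hbad (card_Jn i) hReg hc1 hcX hglog
    -- `‖V‖ ≥ δ / 4`
    have hrδ : r ≤ δ / 8 := by
      rw [hr, div_le_iff₀ hN0]
      rw [div_mul_eq_mul_div, div_le_iff₀ hδ] at h6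
      linarith
    have hqδ : q ≤ δ / 8 := by
      have h11 : q ≤ (N : ℝ)⁻¹ := by
        rw [hq]
        exact inv_anti₀ hN0 (le_self_pow₀ (by linarith) (by norm_num))
      refine h11.trans ?_
      rw [inv_le_comm₀ hN0 (by positivity), inv_div]
      exact h7
    have hVδ : δ / 4 ≤ ‖VV (e i) g S c‖ := by
      have h11 : ‖c‖ ≤ ‖VV (e i) g S c‖ + ‖VV (e i) g S c - x‖ + ‖c - x‖ := by
        have : c = VV (e i) g S c - (VV (e i) g S c - x) + (c - x) := by ring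
        nth_rewrite 1 [this]
        exact (norm_add_le _ _).trans (by
          have := norm_sub_le (VV (e i) g S c) (VV (e i) g S c - x)
          linarith)
      linarith
    have hVS : 2 ≤ ‖VV (e i) g S c * S c‖ := by
      rw [norm_mul]
      have h11 : 8 / δ ≤ r⁻¹ := by
        rw [le_inv_comm₀ (by positivity) hr0, inv_div]
        exact hrδ
      calc (2 : ℝ) = δ / 4 * (8 / δ) := by field_simp; norm_num
        _ ≤ ‖VV (e i) g S c‖ * ‖S c‖ := by
            gcongr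
            exact h11.trans hSlow
    have h13 : ‖VV (e i) g S c * S c‖ ≤ ‖VV (e i) g S c * S c - 1‖ + 1 := by
      have := norm_add_le (VV (e i) g S c * S c - 1) 1
      simpa using this
    linarith
  have harea := area_H (Ω := Ω) hΩo hPm (fun z hz => hz.1) (g := g) (S := S)
    (S' := SS' e X (Jn i))
    (fun z hz => hasDerivAt_gg hz.1) (fun z hz => hasDerivAt_SS hz.1)
    (fun z hz => ⟨gg_ne_zero ha hz.1, hz.2⟩) (σ := e i) (η := q) hq0.le (fun z hz => hz.2.2.1)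
    (fun z hz => hz.2.2.2) (2 * N) (fun w => by
      refine (Set.encard_le_encard ?_).trans (hm.m3 w)
      rintro z ⟨hz1, hz2⟩
      exact ⟨hz1.1.1, hz1.1.2, hz2⟩)
  refine (measure_mono hsub).trans ((hμ.dens' _).trans ((mul_le_mul_right harea _).trans ?_))
  rw [← ENNReal.ofReal_natCast (2 * N), ← ENNReal.ofReal_mul (by positivity),
    ← ENNReal.ofReal_mul hD]
  refine ENNReal.ofReal_le_ofReal ?_
  have e1 : D * (Real.pi * q ^ 2 * ((2 * N : ℕ) : ℝ)) = 2 * Real.pi * D / N ^ 7 := by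
    rw [hq]
    push_cast
    field_simp
  rw [e1, div_le_div_iff₀ (by positivity) (by positivity)]
  calc 2 * Real.pi * D * (N : ℝ) ^ 3 ≤ N * (N : ℝ) ^ 3 := by gcongr
    _ = (N : ℝ) ^ 4 := by ring
    _ ≤ (N : ℝ) ^ 7 := pow_le_pow_right₀ (by linarith) (by norm_num)
    _ = 1 * (N : ℝ) ^ 7 := by ring

end Pool.Agent.N229.RL
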